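import Pool.Agent.H57.SWC.Cgq
import Pool.Agent.H57.W1.Fa
import Pool.Agent.H57.SWB.Jrs
import Pool.Agent.H18.PN.Altr
import Pool.Agent.H18.PN.Cuq
import Pool.Agent.H80.ASB.Cb1

/-!
# Properties of the windows for a list whose levels are not sorted

`Lx`: the largest of the first levels of a list. Names `Pool.W.X.foo`: the form of `Pool.X.foo` for
the swapped list. `W.PKG.AePG`: a property holds for the list with the places 1 and 2 swapped, at
almost every window of the closed sets of windows where the coordinate of the place 2 has closed labels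
of its level over the first coordinate. `W.V0F.ChUQ`: the chain, full behind its largest level.
`aePG_sum`, `aePG_fa`, `aePG_alt`, `aePG_attU`, `aePG_chU`.
-/

set_option autoImplicit false

namespace Pool.SWC

open Finset Real MvPolynomial MeasureTheory
open Pool.Agent.H49.Ent Pool.Agent.H32.Dense Pool.STK Pool.KA Pool.KSAT Pool.K2S Pool.PB Pool.GEN
open Pool.S6C Pool.GRW Pool.RCD Pool.CHT
open Pool.PKG
open Pool.LA91 (Chn ChG HerQ FaQ sumQ her_sum her_fa)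
open Pool.V0F (LbU AttUQ her_attU)
open Pool.ALT (AltE AltAt SubC AltQ AltI AltUI her_alt)
open Pool.TOP (TopS)
open Pool.SWP

/-- **The largest of the levels** `0, …, r` at the window `w`. -/
def Lx (L : ℕ → ℝ → ℝ → ℝ) : ℕ → ℝ → ℝ
  | 0, w => L 0 w w
  | r + 1, w => max (Lx L r w) (L (r + 1) w w)

theorem le_lx (L : ℕ → ℝ → ℝ → ℝ) {i r : ℕ} (h : i ≤ r) (w : ℝ) : L i w w ≤ Lx L r w := by
  induction r with
  | zero =>
    obtain rfl : i = 0 := by omega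
    exact le_rfl
  | succ r ih =>
    rcases Nat.lt_or_ge i (r + 1) with h1 | h1
    · exact (ih (by omega)).trans (le_max_left _ _)
    · obtain rfl : i = r + 1 := by omega
      exact le_max_right _ _

theorem lx_le (L : ℕ → ℝ → ℝ → ℝ) {r : ℕ} {w x : ℝ} (h : ∀ i ≤ r, L i w w ≤ x) :
    Lx L r w ≤ x := by
  induction r with
  | zero => exact h 0 le_rfl
  | succ r ih => exact max_le (ih fun i hi => h i (by omega)) (h _ le_rfl)

theorem lx_lt (L : ℕ → ℝ → ℝ → ℝ) {r : ℕ} {w x : ℝ} (h : ∀ i ≤ r, L i w w < x) :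
    Lx L r w < x := by
  induction r with
  | zero => exact h 0 le_rfl
  | succ r ih => exact max_lt (ih fun i hi => h i (by omega)) (h _ le_rfl)

/-- One of the levels is the largest. -/
theorem lx_ex (L : ℕ → ℝ → ℝ → ℝ) (r : ℕ) (w : ℝ) : ∃ i ≤ r, Lx L r w = L i w w := by
  induction r with
  | zero => exact ⟨0, le_rfl, rfl⟩
  | succ r ih =>
    rcases max_choice (Lx L r w) (L (r + 1) w w) with h | h
    · obtain ⟨i, hi, h1⟩ := ih
      exact ⟨i, by omega, h.trans h1⟩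
    · exact ⟨r + 1, le_rfl, h⟩

/-- For a sorted list the largest level is the last one. -/
theorem lx_sort (L : ℕ → ℝ → ℝ → ℝ) {r : ℕ} {w : ℝ} (h : ∀ i ≤ r, L i w w ≤ L r w w) :
    Lx L r w = L r w w := le_antisymm (lx_le L h) (le_lx L le_rfl w)

theorem lx_con (L : ℕ → ℝ → ℝ → ℝ) {r : ℕ} {w : ℝ} (h : ∀ i ≤ r, ContinuousAt (fun x => L i x x) w) :
    ContinuousAt (fun x => Lx L r x) w := by
  induction r with
  | zero => exact h 0 le_rfl
  | succ r ih => exact (ih fun i hi => h i (by omega)).max (h _ le_rfl)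

theorem lx_mono {L : ℕ → ℝ → ℝ → ℝ} {r : ℕ} {v w : ℝ} (h : ∀ i ≤ r, L i v v ≤ L i w w) :
    Lx L r v ≤ Lx L r w := by
  induction r with
  | zero => exact h 0 le_rfl
  | succ r ih => exact max_le_max (ih fun i hi => h i (by omega)) (h _ le_rfl)

/-- The levels of the places of a good window are at most the last one before the target. -/
theorem lvl_le {n : ℕ} {hn : 2 ≤ n} {S : PCl n} {P : ℝ → ℝ → ℝ} {r : ℝ → ℝ}
    {P' : ℕ → List (Fin n) × Fin n → ℝ → ℝ → ℝ} {Λ : Finset (Fin n) → Fin n → ℝ → ℝ → ℝ}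
    (H : Pk hn S P r P' Λ) (hTop : TopS n) (hF : FZX (n - 1)) {o : Od n} {w : ℝ}
    (hw : w ∈ Gs P r P' Λ o) {l : ℕ} (hl : l ≤ n - 2) :
    LvL hn P P' o l w w ≤ LvL hn P P' o (n - 2) w w := by
  rw [gs_lvl H hTop hF hw (by omega), gs_lvl H hTop hF hw (by omega)]
  have h1 : Vgr Λ (Pool.OWN72.epo hn o) w := hw.1.1.2.2.1
  exact h1.mono H.lam hw.1.1.2.1.le (by omega)

/-- The largest level of the swapped list. -/
theorem lx_sw {n : ℕ} {hn : 2 ≤ n} {S : PCl n} {P : ℝ → ℝ → ℝ} {r : ℝ → ℝ}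
    {P' : ℕ → List (Fin n) × Fin n → ℝ → ℝ → ℝ} {Λ : Finset (Fin n) → Fin n → ℝ → ℝ → ℝ}
    (H : Pk hn S P r P' Λ) (hTop : TopS n) (hF : FZX (n - 1)) {o : Od n} {w : ℝ}
    (hw : w ∈ Gs P r P' Λ o) {k : ℕ} (hk : k + 1 < n - 1) :
    Lx (fun l => LvL hn P P' o (sw k l)) (n - 2) w = LvL hn P P' o (n - 2) w w := by
  refine le_antisymm (lx_le _ fun i hi => lvl_le H hTop hF hw ?_) ?_
  · unfold sw
    split_ifs <;> omega
  · have h1 := le_lx (fun l => LvL hn P P' o (sw k l)) (i := sw k (n - 2)) (r := n - 2) (by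
      unfold sw
      split_ifs <;> omega) w
    simp only [sw_sw] at h1
    exact h1

end Pool.SWC

namespace Pool.W.PKG

open Finset Real MvPolynomial MeasureTheory
open Pool.Agent.H49.Ent Pool.Agent.H32.Dense Pool.STK Pool.KA Pool.KSAT Pool.K2S Pool.PB Pool.GEN
open Pool.S6C Pool.GRW Pool.RCD Pool.CHT
open Pool.PKG
open Pool.LA91 (Chn ChG HerQ FaQ sumQ her_sum her_fa)
open Pool.V0F (LbU AttUQ her_attU)
open Pool.ALT (AltE AltAt SubC AltQ AltI AltUI her_alt)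
open Pool.TOP (TopS)
open Pool.SWP
open Pool.SWC

/-- **Levels of the list with the places 1 and 2 swapped**: monotone on the diagonal, equal to the
swapped levels at the windows of `G`, the target unchanged. -/
structure LwD {n : ℕ} (hn : 2 ≤ n) (P : ℝ → ℝ → ℝ)
    (P' : ℕ → List (Fin n) × Fin n → ℝ → ℝ → ℝ) (o : Od n) (G : Set ℝ) (L : ℕ → ℝ → ℝ → ℝ) :
    Prop where
  mono : ∀ l, MonotoneOn (fun w => L l w w) (Set.Ioo 0 1)
  last : L (n - 1) = P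
  dia : ∀ l < n, ∀ w ∈ G, L l w w = LvL hn P P' o (sw 1 l) w w

/-- The largest level. -/
theorem LwD.lx {n : ℕ} {hn : 2 ≤ n} {P : ℝ → ℝ → ℝ} {P' : ℕ → List (Fin n) × Fin n → ℝ → ℝ → ℝ}
    {o : Od n} {G : Set ℝ} {L : ℕ → ℝ → ℝ → ℝ} (h : LwD hn P P' o G L) {r : ℕ} (hr : r < n)
    {w : ℝ} (hw : w ∈ G) : Lx L r w = Lx (fun l => LvL hn P P' o (sw 1 l)) r w := by
  induction r with
  | zero => exact h.dia 0 hr w hw
  | succ r ih =>
    show max (Lx L r w) (L (r + 1) w w) = max _ _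
    rw [ih (by omega), h.dia (r + 1) hr w hw]

/-- **The property holds at almost every window for the list with the places 1 and 2 swapped**, in a
subclass, for levels of this list. -/
def AePG (n : ℕ) {ι : Type} (Q : PropG n ι) : Prop :=
  2 < n - 1 → ∀ (hn : 2 ≤ n) (S : PCl n) (P : ℝ → ℝ → ℝ) (r : ℝ → ℝ)
    (P' : ℕ → List (Fin n) × Fin n → ℝ → ℝ → ℝ) (Λ : Finset (Fin n) → Fin n → ℝ → ℝ → ℝ)
    (PB : ℕ → List (Fin n) × Fin n → ℝ → ℝ → ℝ) (PQ : ℚ → List (Fin n) × Fin n → ℝ → ℝ → ℝ),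
    PkB hn S P r P' Λ PB PQ → TopS n → FZX (n - 1) → ∀ (o : Od n) (G : Set ℝ), IsClosed G →
      G ⊆ Gs P r P' Λ o →
      (∀ w ∈ G, SwA S (cc hn o.1.1) (LvL hn P P' o) 1 w) → G ⊆ CtD Λ →
      ∀ (P₀ : List (Fin n) × Fin n → ℝ → ℝ → ℝ) (θ₀ : ℝ) (L T : ℕ → ℝ → ℝ → ℝ),
      LwD hn P P' o G L → ∃ S' : PCl n, S'.Ne ∧
        (∀ (τ : ℝ) (J : ℕ) (F : Fam n J) (A : F.Ω → Prop), S'.St τ J F A → S.St τ J F A) ∧
        ∀ᵐ g : ℝ, g ∈ G → ∀ κ : ℕ → Kg,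
          (∀ l < n, κ l = .one → deriv (fun a => LvL hn P P' o (sw 1 l) a a) g = 1) → ∀ p : ι,
          ∃ k₀ : ℕ, Q p k₀ S' P₀ θ₀ (fun l => cc hn o.1.1 (sw 1 l)) P r L T κ G g

/-- A property of the swapped list. -/
theorem aePG_of {n : ℕ} {ι : Type} {Q : PropG n ι}
    (h : 2 < n - 1 → AeSv n 1 Q) (hQ : CgQ Q) : AePG n Q := by
  classical
  intro h2 hn S P r P' Λ PB PQ H hTop hF o G hG hGs hsw hct P₀ θ₀ L T hL
  obtain ⟨S', a1, a2, a3⟩ := h h2 hn S P r P' Λ PB PQ H hTop hF o G hG hGs hsw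
  refine ⟨S', a1, a2, ?_⟩
  filter_upwards [a3] with g ha hg κ hκ p
  have e1 : sw 1 (n - 1) = n - 1 := sw_gt (by omega)
  obtain ⟨k₀, hk₀⟩ := ha hg (fun l => if κ (sw 1 l) = .one then .one else .any) (fun l hl => by
    by_cases h1 : κ (sw 1 l) = .one
    · simp only [h1, if_true]
      have h3 := hκ (sw 1 l) (by
        have := sw_lt_n (k := 1) (i := l) (n := n) (by omega) (by omega)
        omega) h1
      rw [sw_sw] at h3
      exact h3
    · simp only [h1, if_false]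
      trivial) p
  refine ⟨k₀, hQ p k₀ S' _ P₀ _ θ₀ _ P r _ L _ T _ κ G g (by omega) hg ?_
    (fun l hl w hw => hL.dia l hl w hw)
    (fun l hl h1 => ?_) hk₀⟩
  · rw [hL.last]
    simp only [e1]
    exact (lvL_last (hn := hn) (P := P) (P' := P') o).symm
  · simp only [sw_sw, h1, if_true]

end Pool.W.PKG

namespace Pool.W.LA91

open Finset Real MvPolynomial MeasureTheory
open Pool.Agent.H49.Ent Pool.Agent.H32.Dense Pool.STK Pool.KA Pool.KSAT Pool.K2S Pool.PB Pool.GEN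
open Pool.S6C Pool.GRW Pool.RCD Pool.CHT
open Pool.PKG hiding AePG
open Pool.W.PKG (AePG)
open Pool.LA91 (Chn ChG HerQ FaQ sumQ her_sum her_fa)
open Pool.V0F (LbU AttUQ her_attU)
open Pool.ALT (AltE AltAt SubC AltQ AltI AltUI her_alt)
open Pool.TOP (TopS)
open Pool.SWP
open Pool.SWC

/-- **Two properties at almost every window**, in one subclass. -/
theorem aePG_sum {n : ℕ} {ι ι' : Type} {Q : PropG n ι} {Q' : PropG n ι'} (h : AePG n Q)
    (hh : HerQ Q) (h' : AePG n Q') : AePG n (sumQ Q Q') := by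
  intro h2 hn S P r P' Λ PB PQ H hTop hF o G hG hGs hsw hct P₀ θ₀ L T hL
  obtain ⟨S₁, a1, a2, a3⟩ := h h2 hn S P r P' Λ PB PQ H hTop hF o G hG hGs hsw hct P₀ θ₀ L T hL
  obtain ⟨S₂, b1, b2, b3⟩ := h' h2 hn S₁ P r P' Λ PB PQ (H.sub a1 a2) hTop hF o G hG hGs
    (fun w hw => (hsw w hw).sub a2) hct P₀ θ₀ L T hL
  refine ⟨S₂, b1, fun τ J F A h => a2 τ J F A (b2 τ J F A h), ?_⟩
  filter_upwards [a3, b3] with g ha hb hg κ hκ p
  rcases p with p | p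
  · obtain ⟨k₀, hk₀⟩ := ha hg κ hκ p
    exact ⟨k₀, hh _ _ _ _ _ _ _ _ _ _ _ _ _ _ b2 hk₀⟩
  · exact hb hg κ hκ p

/-- Free velocities and entropy fields, for the exponents over all places. -/
theorem aePG_fa (n : ℕ) : AePG n (Pool.W.LA91.FaQ : PropG n (ℕ × ℕ × ℚ × ℚ)) :=
  W.PKG.aePG_of (fun h => Pool.W.SWP.aeSv_fa h) (Pool.W.SWC.cg_fa n)

end Pool.W.LA91

namespace Pool.W.ALT

open Finset Real MvPolynomial MeasureTheory
open Pool.Agent.H49.Ent Pool.Agent.H32.Dense Pool.STK Pool.KA Pool.KSAT Pool.K2S Pool.PB Pool.GEN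
open Pool.S6C Pool.GRW Pool.RCD Pool.CHT
open Pool.PKG hiding AePG
open Pool.W.PKG (AePG)
open Pool.LA91 (Chn ChG HerQ FaQ sumQ her_sum her_fa)
open Pool.V0F (LbU AttUQ her_attU)
open Pool.ALT (AltE AltAt SubC AltQ AltI AltUI her_alt)
open Pool.TOP (TopS)
open Pool.SWP
open Pool.SWC

theorem aePG_alt (n : ℕ) : AePG n (AltQ : PropG n AltI) := by
  classical
  intro h2 hn S P r P' Λ PB PQ H hTop hF o G hG hGs hsw hct P₀ θ₀ L T hL
  obtain ⟨al, g₀, s, d', e', K₁, N₁, hal, hg₀, hC⟩ := H.cl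
  obtain ⟨c, hc⟩ : ∃ c : ℕ → Fin n, c = fun l => cc hn o.1.1 (sw 1 l) := ⟨_, rfl⟩
  obtain ⟨S', a1, a2, a3⟩ := Pool.ALT.alt_rate (ι := (ℕ × ℕ × ℕ) × (ℚ × ℚ × ℚ)) hC.ne hC.pos
    (fun i => (range i.1.1).image c) (fun i => (range i.1.2.1).image c)
    (fun i => c i.1.1) (fun i => i.1.2.2) (fun i => i.2.1) (fun i => i.2.2.1)
    (fun i => i.2.2.2) (fun i w => L i.1.1 w w) (A := 0) (B := 1) le_rfl
    (fun i => hL.mono i.1.1)
  refine ⟨S', a1, a2, ?_⟩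
  filter_upwards [a3] with g h1 hg κ hκ p
  have ho := hGs hg
  obtain ⟨α, Q, c', F⟩ := H.toPk.fac hTop hF ho
  rw [← hc]
  by_cases hex : 0 < p.2.2 ∧ ∃ S'' : PCl n, S''.Ne ∧ SubC S'' S' ∧ ∃ w₀ : ℝ, 0 < w₀ ∧ w₀ < g ∧
      AltE S'' ((range p.1.1).image c) (c p.1.1) p.1.2.2 p.2.1.1 p.2.1.2.1
        p.2.1.2.2 w₀
  · obtain ⟨he, S'', hne, hs, w₀, b1, b2, b3⟩ := hex
    obtain ⟨φ, hφ, h2⟩ := h1 ⟨F.g0, F.g1⟩ (p.1, p.2.1) S'' hne hs w₀ b1 b2 b3
    obtain ⟨k₀, hk₀⟩ := h2 p.2.2 (by exact_mod_cast he)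
    exact ⟨k₀, ⟨fun _ _ _ _ _ _ _ _ => ⟨φ, hφ, hk₀⟩⟩⟩
  · exact ⟨0, ⟨fun he S'' hne hs w₀ b1 b2 b3 => absurd ⟨he, S'', hne, hs, w₀, b1, b2, b3⟩ hex⟩⟩

end Pool.W.ALT

namespace Pool.W.V0F

open Finset Real MvPolynomial MeasureTheory
open Pool.Agent.H49.Ent Pool.Agent.H32.Dense Pool.STK Pool.KA Pool.KSAT Pool.K2S Pool.PB Pool.GEN
open Pool.S6C Pool.GRW Pool.RCD Pool.CHT
open Pool.PKG hiding AePG
open Pool.W.PKG (AePG)
open Pool.LA91 (Chn ChG HerQ FaQ sumQ her_sum her_fa)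
open Pool.V0F (LbU AttUQ her_attU)
open Pool.ALT (AltE AltAt SubC AltQ AltI AltUI her_alt)
open Pool.TOP (TopS)
open Pool.SWP
open Pool.SWC

theorem aePG_attU (n : ℕ) : AePG n (AttUQ : PropG n Unit) :=
  W.PKG.aePG_of (fun h => aeSv_attU h) (cg_attU n)

/-- **The chain at all windows of** `G`, full behind its largest level. -/
def ChUQ {n : ℕ} (_ : Unit) (_ : ℕ) (S : PCl n) (_ : List (Fin n) × Fin n → ℝ → ℝ → ℝ) (_ : ℝ)
    (c : ℕ → Fin n) (_ : ℝ → ℝ → ℝ) (_ : ℝ → ℝ) (L _ : ℕ → ℝ → ℝ → ℝ) (_ : ℕ → Kg)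
    (G : Set ℝ) (_ : ℝ) : Prop :=
  ∀ w ∈ G, ∃ rd : ℕ → ℝ, (∀ l < n - 1, 0 ≤ rd l) ∧
    Chn S c 0 (n - 1) w w (Lx L (n - 2) w) (fun l => L l w w) rd

theorem her_chU (n : ℕ) : HerQ (ChUQ : PropG n Unit) := by
  intro p k₀ S S' P θ c Pt r L T κ G x hs h w hw
  obtain ⟨rd, h1, h2⟩ := h w hw
  exact ⟨rd, h1, h2.sub hs⟩

/-- **It holds at almost every window.** -/
theorem aePG_chU (n : ℕ) : AePG n (ChUQ : PropG n Unit) := by
  intro h2 hn S P r P' Λ PB PQ H hTop hF o G hG hGs hsw hct P₀ θ₀ L T hL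
  refine ⟨S, H.toPk.ne, fun _ _ _ _ h => h, Filter.Eventually.of_forall fun g _ κ _ _ =>
    ⟨0, fun w hw => ?_⟩⟩
  obtain ⟨rd, h3, h4⟩ := gs_chnX_sw H.toPk hTop hF (hGs hw) (fun _ _ _ _ h => h) (by omega)
    (hsw w hw) (i := n - 1) le_rfl
  refine ⟨rd, h3, ?_⟩
  rw [hL.lx (by omega) hw, lx_sw H.toPk hTop hF (hGs hw) (k := 1) (by omega)]
  exact chn_cg h4 fun i hi => hL.dia i (by omega) w hw

end Pool.W.V0F
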