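import Pool.Agent.H57.SWC.Lx

/-!
# The rate of the last coordinate alone, with margins, for the swapped list

`Pool.W.ALT.AltU`, `AltR`: the literals with the largest level `Lx`; `aePG_altU`, `aePG_altR`.
`Pool.W.PKG.CuQ`. `Pool.W.ALT.AdmL`, `Pool.W.ASM.AdmN`: the admissible families, `admN_eq`.
-/

set_option autoImplicit false

namespace Pool.W.ALT

open Finset Real MeasureTheory Set Filter Topology
open Pool.Agent.H49.Ent Pool.Agent.H32.Dense Pool.STK Pool.KA Pool.KSAT Pool.K2S Pool.PB Pool.S6C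
  Pool.GEN Pool.RCD Pool.LA91 Pool.OWN68 Pool.CHT Pool.GRW
open Pool.PKG hiding AePG
open Pool.W.PKG (AePG)
open Pool.TOP (TopS)
open Pool.V0F (LbU)
open Pool.ALT (SubC AltE AltAt AltUI AltJ)
open Pool.SWP Pool.SWC

/-- **The rate of the last coordinate alone** at a window `x`, with margins. -/
structure AltU {n : ℕ} (p : AltUI) (k₀ : ℕ) (S : PCl n)
    (P : List (Fin n) × Fin n → ℝ → ℝ → ℝ) (θ : ℝ) (c : ℕ → Fin n) (Pt : ℝ → ℝ → ℝ)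
    (r : ℝ → ℝ) (L T : ℕ → ℝ → ℝ → ℝ) (κ : ℕ → Kg) (G : Set ℝ) (x : ℝ) : Prop where
  ex : ∃ e₀ ρ₀ π₀ : ℝ, 0 ≤ e₀ ∧ ρ₀ + (1 / 2) ^ k₀ ≤ 1 ∧
    (∀ w ∈ G, |w - x| ≤ (1 / 2) ^ k₀ → ∃ rk E : ℝ, 0 ≤ rk ∧ rk + (1 / 2) ^ k₀ ≤ ρ₀ ∧ 0 ≤ E ∧
      E + (1 / 2) ^ k₀ ≤ e₀ ∧ Lx L (n - 2) w + (1 / 2) ^ k₀ ≤ e₀ + L (n - 1) w w ∧
      Lx L (n - 2) w + (1 / 2) ^ k₀ ≤ ρ₀ ∧ π₀ + (1 / 2) ^ k₀ ≤ L (n - 1) w w ∧
      e₀ + L (n - 1) w w + (1 / 2) ^ k₀ ≤ 1 ∧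
      L (n - 1) w w + Lx L (n - 2) w + (1 / 2) ^ k₀ ≤ 1 + π₀ ∧
      LbU S ((range (n - 1)).image c) (c (n - 1)) w (L (n - 1) w w) rk E) ∧
    (0 < p.2 → ∀ S' : PCl n, S'.Ne → SubC S' S → ∀ w₀ : ℝ, 0 < w₀ → w₀ < x →
      AltE S' ((range (n - 1)).image c) (c (n - 1)) p.1.2 e₀ ρ₀ π₀ w₀ →
      ∃ φ : ℝ, 0 ≤ φ ∧ ∀ k ≥ k₀, AltAt S ((range (n - 1)).image c) (p.1.1.image c)
        (c (n - 1)) p.1.2 e₀ ρ₀ π₀ (fun w => L (n - 1) w w) x φ p.2 k)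

theorem her_altU (n : ℕ) : HerQ (AltU : PropG n AltUI) := by
  intro p k₀ S S' P θ c Pt r L T κ G x hs h
  obtain ⟨e₀, ρ₀, π₀, h1, h2, h3, h4⟩ := h.ex
  refine ⟨⟨e₀, ρ₀, π₀, h1, h2, fun w hw hwx => ?_, fun hp S'' hne hs'' w₀ k1 k2 k3 => ?_⟩⟩
  · obtain ⟨rk, E, a1, a2, a3, a4, a5, a6, a7, a8, a9, a10⟩ := h3 w hw hwx
    exact ⟨rk, E, a1, a2, a3, a4, a5, a6, a7, a8, a9, a10.sub hs⟩
  · obtain ⟨φ, hφ, h5⟩ := h4 hp S'' hne (fun τ J F A h => hs τ J F A (hs'' τ J F A h)) w₀ k1 k2 k3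
    exact ⟨φ, hφ, fun k hk => (h5 k hk).sub hs⟩

/-- **It holds at almost every window.** -/
theorem aePG_altU (n : ℕ) : AePG n (AltU : PropG n AltUI) := by
  classical
  intro hn3 hn S P r P' Λ PB PQ H hTop hF o G hG hGs hsw hct P₀ θ₀ L T hL
  obtain ⟨S', h1, h2, h3⟩ := Pool.ALT.aePG_altU n hn S P r P' Λ PB PQ H hTop hF o G hG hGs
  refine ⟨S', h1, h2, ?_⟩
  filter_upwards [h3] with g h4 hg κ hκ p
  obtain ⟨k₀, hk⟩ := h4 hg (fun _ => .any) (fun _ _ => trivial)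
    ((p.1.1.image (sw 1), p.1.2), p.2)
  obtain ⟨e₀, ρ₀, π₀, a1, a2, a3, a4⟩ := hk.ex
  have e1 : sw 1 (n - 1) = n - 1 := sw_gt (by omega)
  have e2 : (range (n - 1)).image (fun l => cc hn o.1.1 (sw 1 l)) =
      (range (n - 1)).image (cc hn o.1.1) := img_sw (cc hn o.1.1) (Or.inr (by omega))
  have e3 : p.1.1.image (fun l => cc hn o.1.1 (sw 1 l)) =
      (p.1.1.image (sw 1)).image (cc hn o.1.1) := by
    rw [Finset.image_image]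
    rfl
  have e4 : LvL hn P P' o (n - 1) = P := lvL_last (hn := hn) (P := P) (P' := P') o
  refine ⟨k₀, ⟨⟨e₀, ρ₀, π₀, a1, a2, fun w hw hwx => ?_, fun hp S'' hne hs w₀ c1 c2 c3 => ?_⟩⟩⟩
  · have h5 := a3 w hw hwx
    rw [e4] at h5
    simp only [e1, e2, hL.last, hL.lx (show n - 2 < n by omega) hw,
      lx_sw H.toPk hTop hF (hGs hw) (k := 1) (by omega)]
    exact h5
  · simp only [e1, e2] at c3
    have h5 := a4 hp S'' hne hs w₀ c1 c2 c3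
    rw [e4] at h5
    simp only [e1, e2, e3, hL.last]
    exact h5

/-- **The rate of the last coordinate alone** at a window `x`, with margins, rational exponents. -/
structure AltR {n : ℕ} (p : AltUI) (k₀ : ℕ) (S : PCl n)
    (P : List (Fin n) × Fin n → ℝ → ℝ → ℝ) (θ : ℝ) (c : ℕ → Fin n) (Pt : ℝ → ℝ → ℝ)
    (r : ℝ → ℝ) (L T : ℕ → ℝ → ℝ → ℝ) (κ : ℕ → Kg) (G : Set ℝ) (x : ℝ) : Prop where
  ex : ∃ e₀ ρ₀ π₀ : ℚ, (0 : ℝ) ≤ e₀ ∧ (ρ₀ : ℝ) + (1 / 2) ^ k₀ ≤ 1 ∧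
    (∀ w ∈ G, |w - x| ≤ (1 / 2) ^ k₀ → ∃ rk E : ℝ, 0 ≤ rk ∧ rk + (1 / 2) ^ k₀ ≤ ρ₀ ∧ 0 ≤ E ∧
      E + (1 / 2) ^ k₀ ≤ e₀ ∧ Lx L (n - 2) w + (1 / 2) ^ k₀ ≤ e₀ + L (n - 1) w w ∧
      Lx L (n - 2) w + (1 / 2) ^ k₀ ≤ ρ₀ ∧ π₀ + (1 / 2) ^ k₀ ≤ L (n - 1) w w ∧
      e₀ + L (n - 1) w w + (1 / 2) ^ k₀ ≤ 1 ∧
      L (n - 1) w w + Lx L (n - 2) w + (1 / 2) ^ k₀ ≤ 1 + π₀ ∧
      LbU S ((range (n - 1)).image c) (c (n - 1)) w (L (n - 1) w w) rk E) ∧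
    (0 < p.2 → ∀ S' : PCl n, S'.Ne → SubC S' S → ∀ w₀ : ℝ, 0 < w₀ → w₀ < x →
      AltE S' ((range (n - 1)).image c) (c (n - 1)) p.1.2 e₀ ρ₀ π₀ w₀ →
      ∃ φ : ℝ, 0 ≤ φ ∧ ∀ k ≥ k₀, AltAt S ((range (n - 1)).image c) (p.1.1.image c)
        (c (n - 1)) p.1.2 e₀ ρ₀ π₀ (fun w => L (n - 1) w w) x φ p.2 k)

theorem her_altR (n : ℕ) : HerQ (AltR : PropG n AltUI) := by
  intro p k₀ S S' P θ c Pt r L T κ G x hs h
  obtain ⟨e₀, ρ₀, π₀, h1, h2, h3, h4⟩ := h.ex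
  refine ⟨⟨e₀, ρ₀, π₀, h1, h2, fun w hw hwx => ?_, fun hp S'' hne hs'' w₀ k1 k2 k3 => ?_⟩⟩
  · obtain ⟨rk, E, a1, a2, a3, a4, a5, a6, a7, a8, a9, a10⟩ := h3 w hw hwx
    exact ⟨rk, E, a1, a2, a3, a4, a5, a6, a7, a8, a9, a10.sub hs⟩
  · obtain ⟨φ, hφ, h5⟩ := h4 hp S'' hne (fun τ J F A h => hs τ J F A (hs'' τ J F A h)) w₀ k1 k2 k3
    exact ⟨φ, hφ, fun k hk => (h5 k hk).sub hs⟩

/-- **It holds at almost every window.** -/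
theorem aePG_altR (n : ℕ) : AePG n (AltR : PropG n AltUI) := by
  classical
  intro hn3 hn S P r P' Λ PB PQ H hTop hF o G hG hGs hsw hct P₀ θ₀ L T hL
  obtain ⟨S', h1, h2, h3⟩ := Pool.ALT.aePG_altR n hn S P r P' Λ PB PQ H hTop hF o G hG hGs
  refine ⟨S', h1, h2, ?_⟩
  filter_upwards [h3] with g h4 hg κ hκ p
  obtain ⟨k₀, hk⟩ := h4 hg (fun _ => .any) (fun _ _ => trivial)
    ((p.1.1.image (sw 1), p.1.2), p.2)
  obtain ⟨e₀, ρ₀, π₀, a1, a2, a3, a4⟩ := hk.ex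
  have e1 : sw 1 (n - 1) = n - 1 := sw_gt (by omega)
  have e2 : (range (n - 1)).image (fun l => cc hn o.1.1 (sw 1 l)) =
      (range (n - 1)).image (cc hn o.1.1) := img_sw (cc hn o.1.1) (Or.inr (by omega))
  have e3 : p.1.1.image (fun l => cc hn o.1.1 (sw 1 l)) =
      (p.1.1.image (sw 1)).image (cc hn o.1.1) := by
    rw [Finset.image_image]
    rfl
  have e4 : LvL hn P P' o (n - 1) = P := lvL_last (hn := hn) (P := P) (P' := P') o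
  refine ⟨k₀, ⟨⟨e₀, ρ₀, π₀, a1, a2, fun w hw hwx => ?_, fun hp S'' hne hs w₀ c1 c2 c3 => ?_⟩⟩⟩
  · have h5 := a3 w hw hwx
    rw [e4] at h5
    simp only [e1, e2, hL.last, hL.lx (show n - 2 < n by omega) hw,
      lx_sw H.toPk hTop hF (hGs hw) (k := 1) (by omega)]
    exact h5
  · simp only [e1, e2] at c3
    have h5 := a4 hp S'' hne hs w₀ c1 c2 c3
    rw [e4] at h5
    simp only [e1, e2, e3, hL.last]
    exact h5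

/-- **The admissible families**: target `c (n - 1)` over all the other coordinates, exact in
`c 0, …, c (n - 3)`; exponents `(e₀, ρ₀, π₀)` with strict inequalities at the window `g`. -/
def AdmL (n : ℕ) : AltJ → PropW n := fun i _ _ _ _ _ _ L _ _ _ g =>
  i.1.1 = n - 1 ∧ i.1.2.1 = n - 2 ∧ 0 ≤ i.2.1 ∧ i.2.2.1 ≤ 1 ∧ (i.2.1 : ℝ) + L (n - 1) g g < 1 ∧
    (i.2.2.2 : ℝ) < L (n - 1) g g ∧ L (n - 1) g g + Lx L (n - 2) g < 1 + i.2.2.2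

end Pool.W.ALT

namespace Pool.W.ASM

open MeasureTheory Set Filter Topology
open Pool.GEN Pool.SW
open Pool.PKG hiding AePG
open Pool.ALT (AltJ)
open Pool.W.ALT Pool.SWC

/-- **The families of the labels of the coordinate** `r + 1` over the coordinates before it, of which
those before `r` are exact. -/
def AdmN {n : ℕ} (r : ℕ) : AltJ → PropW n := fun i _ _ _ _ _ _ L _ _ _ g =>
  i.1.1 = r + 1 ∧ i.1.2.1 = r ∧ 0 ≤ (i.2.1 : ℝ) ∧ (i.2.2.1 : ℝ) ≤ 1 ∧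
  (i.2.1 : ℝ) + L (r + 1) g g < 1 ∧ (i.2.2.2 : ℝ) < L (r + 1) g g ∧
  L (r + 1) g g + Lx L r g < 1 + (i.2.2.2 : ℝ)

/-- The families of labels of the last coordinate, for four coordinates. -/
theorem admN_eq : (AdmN 2 : AltJ → PropW 4) = AdmL 4 := by
  funext i S P θ c Pt r L T κ G g
  have h1 : ((i.2.2.1 : ℝ) ≤ 1) ↔ i.2.2.1 ≤ 1 := by exact_mod_cast Iff.rfl
  have h2 : (0 ≤ (i.2.1 : ℝ)) ↔ 0 ≤ i.2.1 := by exact_mod_cast Iff.rfl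
  apply propext
  simp only [AdmN, AdmL, h1, h2]

end Pool.W.ASM

namespace Pool.W.PKG

open Pool.GEN
open Pool.PKG hiding AePG CuQ her_cu aePG_cu
open Pool.LA91 (HerQ)

/-- **The chain at all windows of** `G`, full behind its largest level. -/
def CuQ {n : ℕ} : PropG n Unit := Pool.W.V0F.ChUQ

theorem her_cu (n : ℕ) : HerQ (CuQ : PropG n Unit) := Pool.W.V0F.her_chU n

theorem aePG_cu (n : ℕ) : AePG n (CuQ : PropG n Unit) := Pool.W.V0F.aePG_chU n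

end Pool.W.PKG
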