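import Pool.Agent.H57.SWC.Lxa
import Pool.Agent.H60.ALT.Alo
import Pool.Agent.H92.ALT.Adm

/-!
# The margins near a window, and the output of the alternative, for a list whose levels are not sorted

`Pool.W.ALT.mar_lin`: the margins near the window, the largest level `Lx` in the place of the last
level before the target where it is a radius of fullness. `Pool.W.ALT.AlO`: the output of the
alternative, full behind the largest level.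
-/

set_option autoImplicit false

namespace Pool.W.ALT

open Pool.SWC

/-- **The margins near the window.** -/
theorem mar_lin {L : ℕ → ℝ → ℝ → ℝ} {Sl : ℕ → ℝ} {r : ℕ} {sN e₀ π₀ g : ℝ}
    (hL : ∀ l ≤ r, HasDerivAt (fun x => L l x x) (Sl l) g)
    (hN : HasDerivAt (fun x => L (r + 1) x x) sN g) (h0 : 0 < L (r + 1) g g)
    (h0u : 0 < L r g g) (h1 : e₀ + L (r + 1) g g < 1) (h2 : π₀ < L (r + 1) g g)
    (h3 : L (r + 1) g g + Lx L r g < 1 + π₀) : ∃ μ d : ℝ, 0 < μ ∧ 0 < d ∧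
      ∀ w : ℝ, |w - g| ≤ d → μ ≤ L (r + 1) w w ∧ μ ≤ L r w w ∧ Lx L r w + μ ≤ 1 ∧
      e₀ + L (r + 1) w w + μ ≤ 1 ∧ π₀ + μ ≤ L (r + 1) w w ∧
      L (r + 1) w w + L r w w + μ ≤ 1 + π₀ := by
  have hx : L r g g ≤ Lx L r g := le_lx L le_rfl g
  obtain ⟨μ₁, d₁, hμ₁, hd₁, H1⟩ := Pool.ALT.mar_lin (e₀ := e₀) (π₀ := π₀) (hL r le_rfl) hN h0 h0u h1 h2
    (by linarith)
  obtain ⟨μ₂, hμ₂⟩ : ∃ μ₂ : ℝ, μ₂ = (1 - Lx L r g) / 2 := ⟨_, rfl⟩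
  have hμ₂0 : 0 < μ₂ := by
    rw [hμ₂]
    linarith
  have hc := lx_con L (r := r) (w := g) fun i hi => (hL i hi).continuousAt
  obtain ⟨d₂, hd₂, H2⟩ := Metric.continuousAt_iff.1 hc μ₂ hμ₂0
  refine ⟨min μ₁ μ₂, min d₁ (d₂ / 2), lt_min hμ₁ hμ₂0, lt_min hd₁ (by linarith), fun w hw => ?_⟩
  have k1 := min_le_left μ₁ μ₂
  have k2 := min_le_right μ₁ μ₂
  obtain ⟨b1, b2, b3, b4, b5, b6⟩ := H1 w (hw.trans (min_le_left _ _))
  have a2 := @H2 w (by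
    rw [Real.dist_eq]
    have := hw.trans (min_le_right d₁ (d₂ / 2))
    linarith)
  rw [Real.dist_eq, abs_lt] at a2
  obtain ⟨a2, a2'⟩ := a2
  exact ⟨by linarith, by linarith, by linarith, by linarith, by linarith, by linarith⟩

open Finset Real MvPolynomial
open Pool.Agent.H49.Ent Pool.Agent.H32.Dense Pool.STK Pool.KA Pool.KSAT Pool.K2S Pool.PB Pool.S6C
  Pool.GEN Pool.RCD Pool.LA91 Pool.OWN68 Pool.PKG
open Pool.ALT (Fml NzO AlpD NzQ NzF BlB AlW)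

/-- **The output of the alternative**, full behind the largest level. -/
structure AlO {r₀ : ℕ} (S : PCl (r₀ + 2)) (c : ℕ → Fin (r₀ + 2)) (L : ℕ → ℝ → ℝ → ℝ) (D N' : ℕ)
    (V' : ℕ → ℝ) (i j : ℕ) (R h δ lam rr ℓ g₂ X η μ e₀ π₀ q t : ℝ) (Ψ : Fml (r₀ + 2))
    (w p₁ p₂ eN uN pN pa₁ pa₂ ea ua pa : ℝ) : Prop where
  wv : w ≤ t + V' i * q
  wq : t + V' i * q - q / 2 ≤ w
  wR : t - (R + 1) * q ≤ w
  wl : t + V' i * q - 2 * ℓ * q ≤ w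
  wu : w ≤ t + V' i * q - ℓ * q
  e1 : eN + L (r₀ + 1) (t + V' i * q) (t + V' i * q) + μ / 2 < 1
  u1 : uN + μ / 2 < 1
  pN1 : L (r₀ + 1) (t + V' i * q) (t + V' i * q) - δ * lam * q / 8 ≤ pN
  nzo : NzO S Ψ c r₀ (c (r₀ + 1)) D D D w (t + V' i * q) p₁ p₂ eN uN pN
  alp : ∀ n : ℝ, 1 - μ / 2 ≤ n → n ≤ 1 →
    AlpD S Ψ c r₀ (c (r₀ + 1)) D w (t + V' i * q) (t + V' j * q)
      (L (r₀ + 1) (t + V' i * q) (t + V' i * q)) (lam * q) (rr * q) n h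
      (δ * (lam * q) / 4) p₁ p₂ eN uN pN
  ea0 : 0 ≤ ea
  pa1 : L (r₀ + 1) (t + V' i * q) (t + V' i * q) + lam * q ≤ pa
  ea1 : L (r₀ + 1) (t + V' i * q) (t + V' i * q) + lam * q + ea < 1 - μ / 2
  ua1 : ua ≤ 1 - μ / 2
  nza : NzO S Ψ c r₀ (c (r₀ + 1)) D D D w (t + V' j * q) pa₁ pa₂ ea ua pa
  nzq : Bas S (fun J F A => ∃ (V : Type) (z : PtT F → V) (z' : LnT F → V)
    (G : V → MvPolynomial (Option (Fin (r₀ + 2))) ℝ),
    NzQ Ψ c r₀ (c (r₀ + 1)) D D D D w (t + V' i * q) p₁ p₂ eN uN pN (t + V' j * q) pa₁ pa₂ ea ua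
      pa J F A V z z' G)
  blb : ∀ k < N', V' i + g₂ ≤ V' k → |V' k| ≤ R → V' k + g₂ ≤ R → X * q ≤ μ →
    X * q ≤ L r₀ (t + V' k * q) (t + V' k * q) →
    e₀ + L (r₀ + 1) (t + V' k * q) (t + V' k * q) < 1 →
    L (r₀ + 1) (t + V' k * q) (t + V' k * q) + L r₀ (t + V' k * q) (t + V' k * q) +
      X * q ≤ 1 + π₀ →
    BlB S c r₀ (c (r₀ + 1)) (t + V' i * q) (t + V' k * q) D D
      (L (r₀ + 1) (t + V' k * q) (t + V' k * q) - 2 * (η * q))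
      (L r₀ (t + V' k * q) (t + V' k * q) - 2 * (η * q))
      (L r₀ (t + V' k * q) (t + V' k * q) -
        L (r₀ + 1) (t + V' k * q) (t + V' k * q) + X * q)
      (NzF Ψ c r₀ (c (r₀ + 1)) D D D w (t + V' i * q) p₁ p₂ eN uN pN)
  lab : ∀ k < N', ∃ E Eu : ℝ, AlW S c r₀ (c (r₀ + 1)) D (t + V' k * q)
    (L (r₀ + 1) (t + V' k * q) (t + V' k * q)) (L r₀ (t + V' k * q) (t + V' k * q)) E Eu
    (Lx L r₀ (t + V' k * q))

end Pool.W.ALT
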