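import Pool.Agent.H57.SWC.Lxa
import Pool.Agent.H3.D2G.RecO

/-!
# The joint at the windows where the third coordinate has closed labels over the first ones

`TwR`: the number of the coordinate of the place `k + 1` over the places before `k`, on balls of a
radius less than one, is its level. `ae_of_twr`: almost every such window is in a closed set of windows
where the swapped list exists. `der_of_dense`: the derivative of a monotone function from its values on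
a set with small gaps. `joint_aeW`: the record of the list and a property of the swapped list.
-/

set_option autoImplicit false

namespace Pool.SWC

open Finset Real MvPolynomial MeasureTheory Filter Topology
open Pool.Agent.H49.Ent Pool.Agent.H32.Dense Pool.STK Pool.KA Pool.KSAT Pool.K2S Pool.PB Pool.S6C
open Pool.GEN Pool.CHT Pool.STAT Pool.GRW Pool.STA Pool.ONE Pool.RCD
open Pool.PKG Pool.SWP
open Pool.TOP (TopS)

variable {n : ℕ} {hn : 2 ≤ n} {S : PCl n} {P : ℝ → ℝ → ℝ} {r : ℝ → ℝ}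
  {P' : ℕ → List (Fin n) × Fin n → ℝ → ℝ → ℝ} {Λ : Finset (Fin n) → Fin n → ℝ → ℝ → ℝ}
  {PB : ℕ → List (Fin n) × Fin n → ℝ → ℝ → ℝ}

/-- **The windows where the swapped list exists**: the number of the coordinate of the place `k + 1`
over the places before `k`, on balls of a radius less than one, is its level. -/
def TwR (hn : 2 ≤ n) (P : ℝ → ℝ → ℝ) (P' : ℕ → List (Fin n) × Fin n → ℝ → ℝ → ℝ)
    (Λ : Finset (Fin n) → Fin n → ℝ → ℝ → ℝ) (k : ℕ) (o : Od n) (g : ℝ) : Prop :=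
  ∃ ρ < 1, LvL hn P P' o (k + 1) g g ≤
    Λ ((range k).image (cc hn o.1.1)) (cc hn o.1.1 (k + 1)) g ρ

/-- **Almost every such window is in a closed set of them**, with a property of almost every window at
all the windows of the set. -/
theorem ae_of_twr (H : PkT hn S P r P' Λ PB) (k : ℕ) (o : Od n) {X Y : ℝ → Prop}
    (hY : ∀ᵐ w : ℝ, w ∈ Gs P r P' Λ o → SwA S (cc hn o.1.1) (LvL hn P P' o) k w → Y w)
    (h : ∀ G : Set ℝ, IsClosed G → G ⊆ Gs P r P' Λ o →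
      (∀ w ∈ G, SwA S (cc hn o.1.1) (LvL hn P P' o) k w) → (∀ w ∈ G, Y w) → G ⊆ CtD Λ →
      ∀ᵐ g : ℝ, g ∈ G → X g) :
    ∀ᵐ g : ℝ, g ∈ Gs P r P' Λ o → TwR hn P P' Λ k o g → X g := by
  have hlam := H.toPk.lam
  obtain ⟨M, hM⟩ : ∃ M : Set ℝ, M = Gs P r P' Λ o ∩ ⋃ q : {q : ℚ // (q : ℝ) < 1},
      {w | dgP (LvL hn P P' o (k + 1)) w ≤
        Λ ((range k).image (cc hn o.1.1)) (cc hn o.1.1 (k + 1)) w (q : ℚ)} := ⟨_, rfl⟩
  have hMm : MeasurableSet M := by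
    rw [hM]
    refine (H.toPk.gs_meas o).inter (MeasurableSet.iUnion fun q => ?_)
    refine measurableSet_le (dgP_mono (H.lawL o (k + 1))).measurable (Monotone.measurable
      fun a b h => ?_)
    exact hlam.mono _ _ _ _ _ _ _ (Finset.Subset.refl _) h le_rfl
  have hMG : ∀ w, w ∈ M ↔ w ∈ Gs P r P' Λ o ∧ TwR hn P P' Λ k o w := by
    intro w
    rw [hM]
    refine ⟨fun hw => ?_, fun hw => ⟨hw.1, ?_⟩⟩
    · obtain ⟨h1, h2⟩ := hw
      refine ⟨h1, ?_⟩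
      obtain ⟨⟨q, hq⟩, h3⟩ := Set.mem_iUnion.1 h2
      have h4 : dgP (LvL hn P P' o (k + 1)) w ≤
        Λ ((range k).image (cc hn o.1.1)) (cc hn o.1.1 (k + 1)) w (q : ℚ) := h3
      rw [dgP_eq _ h1.1.1.1.le h1.1.1.2.1.le] at h4
      exact ⟨q, hq, h4⟩
    · obtain ⟨h1, ρ, hρ, h2⟩ := hw
      obtain ⟨q, hq0, hq1⟩ := exists_rat_btwn hρ
      refine Set.mem_iUnion.2 ⟨⟨q, hq1⟩, ?_⟩
      show dgP (LvL hn P P' o (k + 1)) w ≤
        Λ ((range k).image (cc hn o.1.1)) (cc hn o.1.1 (k + 1)) w (q : ℚ)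
      rw [dgP_eq _ h1.1.1.1.le h1.1.1.2.1.le]
      exact h2.trans (hlam.mono _ _ _ _ _ _ _ (Finset.Subset.refl _) le_rfl hq0.le)
  have hfin : volume M ≠ ⊤ := by
    have h1 : M ⊆ Set.Icc 0 1 := fun x hx =>
      ⟨((hMG x).1 hx).1.1.1.1.le, ((hMG x).1 hx).1.1.1.2.1.le⟩
    exact ((measure_mono h1).trans_lt (by simp)).ne
  have hat : ∀ᵐ w : ℝ, w ∈ M → SwA S (cc hn o.1.1) (LvL hn P P' o) k w ∧ Y w := by
    filter_upwards [att_lam hlam, hY] with w hw hy hwM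
    obtain ⟨h1, ρ, hρ, h2⟩ := (hMG w).1 hwM
    have h3 := hw h1.1.1.1 h1.1.1.2.1.le _ _ _ _ hρ h2
    exact ⟨h3, hy h1 h3⟩
  obtain ⟨X', hX'⟩ : ∃ X' : Set ℝ, X' = toMeasurable volume {w | w ∈ M ∧
    ¬ (SwA S (cc hn o.1.1) (LvL hn P P' o) k w ∧ Y w)} := ⟨_, rfl⟩
  have hX0 : volume X' = 0 := by
    rw [hX', measure_toMeasurable]
    refine measure_eq_zero_iff_ae_notMem.2 ?_
    filter_upwards [hat] with w hw hcon
    exact hcon.2 (hw hcon.1)
  have hXm : MeasurableSet X' := by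
    rw [hX']
    exact measurableSet_toMeasurable _ _
  have hXs : ∀ w ∈ M, w ∉ X' → SwA S (cc hn o.1.1) (LvL hn P P' o) k w ∧ Y w := by
    intro w hw hwX
    by_contra hcon
    rw [hX'] at hwX
    exact hwX (subset_toMeasurable _ _ ⟨hw, hcon⟩)
  have hcn := ctD_cnt hlam
  have h1 := ae_of_closed ((hMm.diff hXm).diff hcn.measurableSet) (ne_top_of_le_ne_top hfin
    (measure_mono fun x hx => hx.1.1)) (X := X) fun G hG hGM =>
      h G hG (fun w hw => ((hMG w).1 (hGM hw).1.1).1)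
        (fun w hw => (hXs w (hGM hw).1.1 (hGM hw).1.2).1)
        (fun w hw => (hXs w (hGM hw).1.1 (hGM hw).1.2).2) fun w hw => by
          have := (hGM hw).2
          rwa [Set.mem_compl_iff, not_not] at this
  filter_upwards [h1, measure_eq_zero_iff_ae_notMem.1 hX0, hcn.ae_notMem volume] with g k1 k2 k3
    hg hgT
  exact k1 ⟨⟨(hMG g).2 ⟨hg, hgT⟩, k2⟩, k3⟩

/-- **The derivative of a monotone function** from its values on a set with small gaps. -/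
theorem der_of_dense {f u : ℝ → ℝ} {s g : ℝ} {G : Set ℝ} (h0 : 0 < g) (h1 : g < 1)
    (hf : MonotoneOn f (Set.Ioo 0 1)) (hfu : ∀ w ∈ G, f w = u w) (hu : HasDerivAt u s g)
    (hg : g ∈ G) (hgap : ∀ C τ : ℝ, 0 < C → 0 < τ → ∃ q₁ : ℝ, 0 < q₁ ∧ ∀ q y : ℝ, 0 < q →
      q < q₁ → |y - g| ≤ C * q → ∃ x ∈ G, y ≤ x ∧ x ≤ y + τ * q) : HasDerivAt f s g := by
  rw [hasDerivAt_iff_isLittleO, Asymptotics.isLittleO_iff]
  intro e he
  have h2 := (hasDerivAt_iff_isLittleO.1 hu).def (show 0 < e / 8 by linarith)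
  obtain ⟨η, hη, h3⟩ := Metric.eventually_nhds_iff.1 h2
  obtain ⟨τ, hτ⟩ : ∃ τ, τ = min (1 / 2) (e / (8 * (|s| + 1))) := ⟨_, rfl⟩
  have hs0 : 0 ≤ |s| := abs_nonneg s
  have hτ0 : 0 < τ := by
    rw [hτ]
    exact lt_min (by norm_num) (by positivity)
  have hτ1 : τ ≤ 1 / 2 := by
    rw [hτ]
    exact min_le_left _ _
  have hτ2 : |s| * τ ≤ e / 8 := by
    have h4 : τ ≤ e / (8 * (|s| + 1)) := by
      rw [hτ]
      exact min_le_right _ _
    rw [le_div_iff₀ (by positivity)] at h4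
    nlinarith
  obtain ⟨q₁, hq₁, h4⟩ := hgap 2 τ two_pos hτ0
  refine Metric.eventually_nhds_iff.2 ⟨min (min q₁ (η / 2)) (min (g / 2) ((1 - g) / 2)), by
    refine lt_min (lt_min hq₁ (by linarith)) (lt_min (by linarith) (by linarith)), fun y hy => ?_⟩
  rw [Real.dist_eq] at hy
  have hy1 := hy.trans_le ((min_le_left _ _).trans (min_le_left _ _))
  have hy2 := hy.trans_le ((min_le_left _ _).trans (min_le_right _ _))
  have hy3 := hy.trans_le ((min_le_right _ _).trans (min_le_left _ _))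
  have hy4 := hy.trans_le ((min_le_right _ _).trans (min_le_right _ _))
  rcases eq_or_ne y g with rfl | hne
  · simp
  obtain ⟨q, hq⟩ : ∃ q, q = |y - g| := ⟨_, rfl⟩
  have hq0 : 0 < q := by
    rw [hq]
    exact abs_pos.2 (sub_ne_zero.2 hne)
  rw [← hq] at hy1 hy2 hy3 hy4
  have hyq := abs_le.1 hq.symm.le
  have hτq : τ * q ≤ q / 2 := by nlinarith
  have hτq0 : 0 < τ * q := mul_pos hτ0 hq0
  obtain ⟨x, hx, hx1, hx2⟩ := h4 q y hq0 hy1 (by rw [← hq]; linarith)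
  obtain ⟨z, hz, hz1, hz2⟩ := h4 q (y - τ * q) hq0 hy1 (by
    rw [abs_le]
    constructor <;> linarith)
  rw [sub_add_cancel] at hz2
  have key : ∀ v : ℝ, |v - y| ≤ τ * q → |u v - u g - s * (y - g)| ≤ e * q / 2 := by
    intro v hv
    have hv' := abs_le.1 hv
    have hvg : |v - g| ≤ 2 * q := by
      rw [abs_le]
      constructor <;> linarith
    have h5 := h3 (y := v) (by
      rw [Real.dist_eq]
      linarith)
    rw [Real.norm_eq_abs, Real.norm_eq_abs, smul_eq_mul] at h5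
    have h6 : |s * (v - y)| ≤ e / 8 * q := by
      rw [abs_mul]
      calc |s| * |v - y| ≤ |s| * (τ * q) := mul_le_mul_of_nonneg_left hv hs0
        _ = |s| * τ * q := by ring
        _ ≤ e / 8 * q := mul_le_mul_of_nonneg_right hτ2 hq0.le
    have h7 : u v - u g - s * (y - g) = (u v - u g - (v - g) * s) + s * (v - y) := by ring
    rw [h7]
    refine (abs_add_le _ _).trans ?_
    have h8 : e / 8 * |v - g| ≤ e / 8 * (2 * q) := mul_le_mul_of_nonneg_left hvg (by linarith)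
    have h9 : 0 < e * q := mul_pos he hq0
    linarith
  have kx := abs_le.1 (key x (by
    rw [abs_le]
    constructor <;> linarith))
  have kz := abs_le.1 (key z (by
    rw [abs_le]
    constructor <;> linarith))
  have mx : f y ≤ f x := hf ⟨by linarith, by linarith⟩ ⟨by linarith, by linarith⟩ hx1
  have mz : f z ≤ f y := hf ⟨by linarith, by linarith⟩ ⟨by linarith, by linarith⟩ hz2
  rw [hfu x hx] at mx
  rw [hfu z hz] at mz
  rw [hfu g hg, Real.norm_eq_abs, Real.norm_eq_abs, smul_eq_mul, ← hq, abs_le]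
  have e1 : (y - g) * s = s * (y - g) := mul_comm _ _
  have e2 : 0 < e * q := mul_pos he hq0
  rw [e1]
  constructor <;> linarith [kx.1, kx.2, kz.1, kz.2]

/-- **The record of the list and the property of the swapped list** at almost every window where
the swapped list exists and near it, in a subclass; `Cl`: a predicate of the classes which holds for
the subclasses; `Y`: a property of almost every window. -/
theorem joint_aeW {ι : Type} [Countable ι] {Q : PropG n ι} (hQ : Pool.W.PKG.AePG n Q)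
    (hn3 : 2 < n - 1) {Cl : PCl n → Prop} (hCl : ∀ S₁ S₂ : PCl n, Cl S₁ → S₂.Ne →
      (∀ (τ : ℝ) (J : ℕ) (F : Fam n J) (A : F.Ω → Prop), S₂.St τ J F A → S₁.St τ J F A) → Cl S₂)
    (hS : Cl S) (H : PkT hn S P r P' Λ PB) (hTop : TopS n) (hF : FZX (n - 1)) (o : Od n)
    (P₀ : List (Fin n) × Fin n → ℝ → ℝ → ℝ) (θ₀ : ℝ) (L T : ℕ → ℝ → ℝ → ℝ) {Y : ℝ → Prop}
    (hY : ∀ᵐ w : ℝ, Y w)
    (hL : ∀ (S : PCl n) (G : Set ℝ), PkT hn S P r P' Λ PB → Cl S → IsClosed G →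
      G ⊆ Gs P r P' Λ o → (∀ w ∈ G, SwA S (cc hn o.1.1) (LvL hn P P' o) 1 w) → (∀ w ∈ G, Y w) →
      Pool.W.PKG.LwD hn P P' o G L) (κ : ℕ → Kg) :
    ∀ᵐ g : ℝ, g ∈ Gs P r P' Λ o → TwR hn P P' Λ 1 o g →
      (∀ l < n, κ l = .one → deriv (fun a => LvL hn P P' o (sw 1 l) a a) g = 1) →
      ∃ (S' : PCl n) (G : Set ℝ), PkT hn S' P r P' Λ PB ∧ Cl S' ∧ IsClosed G ∧ g ∈ G ∧
        G ⊆ Gs P r P' Λ o ∧ (∀ w ∈ G, SwA S' (cc hn o.1.1) (LvL hn P P' o) 1 w) ∧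
        (∀ w ∈ G, Y w) ∧ WnG hn S' P P' PB o G g ∧
        (∀ C τ : ℝ, 0 < C → 0 < τ → ∃ q₁ : ℝ, 0 < q₁ ∧ ∀ q y : ℝ, 0 < q → q < q₁ →
          |y - g| ≤ C * q → ∃ x ∈ G, y ≤ x ∧ x ≤ y + τ * q) ∧
        (∀ l < n, HasDerivAt (fun x => L l x x) (SlL hn P P' o g (sw 1 l)) g) ∧
        ∀ p : ι, ∃ k₀ : ℕ, Q p k₀ S' P₀ θ₀ (fun l => cc hn o.1.1 (sw 1 l)) P r L T κ G g ∧
          ∀ C τ : ℝ, 0 < C → 0 < τ →
          ∃ q₁ : ℝ, 0 < q₁ ∧ ∀ q y : ℝ, 0 < q → q < q₁ → |y - g| ≤ C * q →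
            ∃ x : ℝ, x ∈ G ∧ y ≤ x ∧ x ≤ y + τ * q ∧
              Q p k₀ S' P₀ θ₀ (fun l => cc hn o.1.1 (sw 1 l)) P r L T κ G x := by
  refine ae_of_twr H 1 o (Y := Y) (hY.mono fun _ h _ _ => h)
    fun G hG hGs hsw hGY hct => ?_
  obtain ⟨S₁, PQ, hS₁, HB⟩ := pkB_ex H
  have hc₁ : Cl S₁ := by
    obtain ⟨_, _, _, _, _, _, _, _, _, hC⟩ := HB.cl
    exact hCl S S₁ hS hC.ne hS₁
  have hLw := hL S₁ G HB.toPkT hc₁ hG hGs (fun w hw => (hsw w hw).sub hS₁) hGY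
  obtain ⟨S', hne, hs, hae⟩ := hQ hn3 hn S₁ P r P' Λ PB PQ HB hTop hF o G hG hGs
    (fun w hw => (hsw w hw).sub hS₁) hct P₀ θ₀ L T hLw
  have HB' := HB.sub hne hs
  have hall : ∀ᵐ g : ℝ, ∀ j : ι × ℕ, g ∈ {x : ℝ | x ∈ G ∧ Q j.1 j.2 S' P₀ θ₀
      (fun l => cc hn o.1.1 (sw 1 l)) P r L T κ G x} → ∀ C τ : ℝ, 0 < C → 0 < τ →
      ∃ q₁ : ℝ, 0 < q₁ ∧ ∀ q y : ℝ, 0 < q → q < q₁ → |y - g| ≤ C * q →
        ∃ x ∈ {x : ℝ | x ∈ G ∧ Q j.1 j.2 S' P₀ θ₀
          (fun l => cc hn o.1.1 (sw 1 l)) P r L T κ G x}, y ≤ x ∧ x ≤ y + τ * q :=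
    ae_all_iff.2 fun j => pt_near _
  filter_upwards [HB'.wnG_ae hTop hF hG.measurableSet hGs, hae, hall, pt_near G,
    H.dia_all H.pble hTop hF] with g h1 h2 h3 h4 hdia hg hk
  have ho := hGs hg
  obtain ⟨α, Q₁, c', F⟩ := H.toPk.fac hTop hF ho
  refine ⟨S', G, HB'.toPkT, hCl S₁ S' hc₁ hne hs, hG, hg, hGs, fun w hw => ((hsw w hw).sub hS₁).sub hs,
    hGY, h1 hg, h4 hg,
    fun l hl => ?_, fun p => ?_⟩
  · have h5 : sw 1 l ≤ n - 1 := sw_lt_n (by omega) (by omega)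
    exact der_of_dense F.g0 F.g1 (hLw.mono l) (fun w hw => hLw.dia l hl w hw)
      (hdia o ho (sw 1 l) h5).1.hasDerivAt hg (h4 hg)
  · obtain ⟨k₀, hk₀⟩ := h2 hg κ hk p
    refine ⟨k₀, hk₀, fun C τ hC hτ => ?_⟩
    obtain ⟨q₁, hq₁, h4⟩ := h3 (p, k₀) ⟨hg, hk₀⟩ C τ hC hτ
    refine ⟨q₁, hq₁, fun q y hq hq' hy => ?_⟩
    obtain ⟨x, hx, h5, h6⟩ := h4 q y hq hq' hy
    exact ⟨x, hx.1, h5, h6, hx.2⟩

end Pool.SWC
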