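import Pool.Agent.H57.SWC.Asp
import Pool.Agent.H3.SHE.Cel

/-!
# The record of the swapped list exists

`RecSw`: the record of the swapped list near a window, for all classes with a property and all sets of
windows. `LSwR`: for all packages, at almost every window where the third coordinate has its labels over
the first one. `pkw_ex`: the thresholds with the exponents over all places. `lSwR_of`: the record exists.
-/

set_option autoImplicit false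

namespace Pool.SWC

open MeasureTheory Set Filter Topology
open Pool.Agent.H49.Ent Pool.Agent.H32.Dense Pool.STK Pool.KA Pool.KSAT Pool.K2S Pool.PB
open Pool.GEN Pool.S6C Pool.STAT Pool.CHT Pool.GRW Pool.ONE Pool.STA
open Pool.PKG hiding RecG
open Pool.LBT (ThrOf LSys)
open Pool.SWP
open Pool.W.PKG (RecG LwD)
open Pool.TOP (TopS)

variable {n : ℕ} {hn : 2 ≤ n} {S : PCl n} {P : ℝ → ℝ → ℝ} {r : ℝ → ℝ}
  {P' : ℕ → List (Fin n) × Fin n → ℝ → ℝ → ℝ} {Λ : Finset (Fin n) → Fin n → ℝ → ℝ → ℝ}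
  {PB : ℕ → List (Fin n) × Fin n → ℝ → ℝ → ℝ}

/-- **The record of the swapped list near the window** `g`, with the thresholds `P₀`, the levels `L`,
the levels `T` of the fattest boxes and the kinds `κ` of the swapped list, for all classes with `Cl`
and all sets of windows with `Y`. -/
def RecSw (hn : 2 ≤ n) (P : ℝ → ℝ → ℝ) (r : ℝ → ℝ)
    (P' : ℕ → List (Fin n) × Fin n → ℝ → ℝ → ℝ) (Λ : Finset (Fin n) → Fin n → ℝ → ℝ → ℝ)
    (PB : ℕ → List (Fin n) × Fin n → ℝ → ℝ → ℝ) (Cl : PCl n → Prop) (Y : ℝ → Prop) (o : Od n)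
    (P₀ : List (Fin n) × Fin n → ℝ → ℝ → ℝ) (θ₀ : ℝ) (L T : ℕ → ℝ → ℝ → ℝ) (κ : ℕ → Kg)
    (h g : ℝ) : Prop :=
  ∀ (S : PCl n) (G : Set ℝ), PkT hn S P r P' Λ PB → Cl S → IsClosed G → G ⊆ Gs P r P' Λ o →
    (∀ w ∈ G, SwA S (cc hn o.1.1) (LvL hn P P' o) 1 w) → (∀ w ∈ G, Y w) → g ∈ G →
    WnG hn S P P' PB o G g →
    (∀ C τ : ℝ, 0 < C → 0 < τ → ∃ q₁ : ℝ, 0 < q₁ ∧ ∀ q y : ℝ, 0 < q → q < q₁ →
      |y - g| ≤ C * q → ∃ x ∈ G, y ≤ x ∧ x ≤ y + τ * q) →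
    ∀ (al : ℝ) (g₀ : ℝ → ℝ), 0 < al → (∀ ε : ℝ, 0 < ε → 0 < g₀ ε) →
    (∃ (s : Fin n → ℝ) (d : ℕ → ℝ) (e : ℝ) (K₀ : ℕ) (N₁ : ℚ → ℚ → ℝ),
      ClX s d al g₀ e K₀ N₁ S) →
    ∃ (P₂ : ℕ → List (Fin n) × Fin n → ℝ → ℝ → ℝ) (θ₂ Eb e₂ : ℕ → ℝ) (S₀ : ℕ), 1 ≤ S₀ ∧
      ∀ (K₀ K : ℝ) (N : ℕ) (A V : ℕ → ℝ), 0 < K₀ → 1 ≤ K →
      (∀ k < N, -K ≤ V k ∧ V k ≤ A k ∧ A k ≤ K) →
      ∀ th : ℝ, 0 < th → ∃ S₂ : ℕ, S₀ ≤ S₂ ∧ ∀ (K' : ℝ) (N' : ℕ) (V' : ℕ → ℝ), K ≤ K' →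
        (∀ k < N', -K' ≤ V' k ∧ V' k ≤ K') → ∀ ε : ℝ, 0 < ε → ∃ q₁ : ℝ, 0 < q₁ ∧
        ∀ q u : ℝ, 0 < q → q < q₁ → |u - g| ≤ K₀ * q → ∃ t : ℝ, u ≤ t ∧ t ≤ u + th * q ∧
          RecG S al g₀ P₀ θ₀ P₂ θ₂ Eb e₂ (fun l => cc hn o.1.1 (sw 1 l)) P r h
            (K₀ + th) g L T (fun l => SlL hn P P' o g (sw 1 l)) κ G S₀ N A V S₂ N' V' K' ε q t

/-- A predicate of the classes which holds for the subclasses. -/
def SubCl {n : ℕ} (Cl : PCl n → Prop) : Prop :=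
  ∀ S₁ S₂ : PCl n, Cl S₁ → S₂.Ne →
    (∀ (τ : ℝ) (J : ℕ) (F : Fam n J) (A : F.Ω → Prop), S₂.St τ J F A → S₁.St τ J F A) → Cl S₂

/-- The window of a row only depends on the numbers of the package. -/
theorem rwH_cl {S' : PCl n} {H : PkT hn S P r P' Λ PB}
    (H' : PkT hn S' P r P' Λ PB) {hTop : TopS n} {hF : FZX (n - 1)} {h : ℝ} {o : Od n} {g : ℝ}
    (R : RwH H hTop hF h o g) : RwH H' hTop hF h o g := ⟨R.rwd, R.defi⟩

/-- **The record of the swapped list**, for all packages: at almost every window where the third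
coordinate has its labels over the first one, its level is larger than the level of the second one, and
the slopes of the places 0 and 2 are one. -/
def LSwR : Prop :=
  ∀ (hn : 2 ≤ 4) (hTop : TopS 4) (hF : FZX (4 - 1)) (S : PCl 4) (P : ℝ → ℝ → ℝ) (r : ℝ → ℝ)
    (P' : ℕ → List (Fin 4) × Fin 4 → ℝ → ℝ → ℝ) (Λ : Finset (Fin 4) → Fin 4 → ℝ → ℝ → ℝ)
    (PB : ℕ → List (Fin 4) × Fin 4 → ℝ → ℝ → ℝ) (H : PkT hn S P r P' Λ PB) (h : ℝ), 0 < h →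
    h ≤ 1 → ∀ o : Od 4, ∃ (S' : PCl 4) (Cl : PCl 4 → Prop) (Y : ℝ → Prop)
      (P₀ : List (Fin 4) × Fin 4 → ℝ → ℝ → ℝ) (θ₀ : ℝ) (L T : ℕ → ℝ → ℝ → ℝ),
      PkT hn S' P r P' Λ PB ∧ SubCl Cl ∧ Cl S' ∧ (∀ᵐ w : ℝ, Y w) ∧
      (∀ (S : PCl 4) (G : Set ℝ), PkT hn S P r P' Λ PB → Cl S → IsClosed G → G ⊆ Gs P r P' Λ o →
        (∀ w ∈ G, SwA S (cc hn o.1.1) (LvL hn P P' o) 1 w) → (∀ w ∈ G, Y w) →
        LwD hn P P' o G L) ∧
      ∀ᵐ g : ℝ, RwH H hTop hF h o g → TwR hn P P' Λ 1 o g →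
        LvL hn P P' o 1 g g < LvL hn P P' o 2 g g → SlL hn P P' o g 0 = 1 →
        SlL hn P P' o g 2 = 1 → ∀ κ : ℕ → Kg, (∀ l < 4, KgAt hn P P' PB o (sw 1 l) g (κ l)) →
        RecSw hn P r P' Λ PB Cl Y o P₀ θ₀ L T κ h g

/-- **The thresholds with the exponents over all places**, in a subclass. -/
theorem pkw_ex (H : PkT hn S P r P' Λ PB) :
    ∃ (S' : PCl n) (PQ : ℚ → List (Fin n) × Fin n → ℝ → ℝ → ℝ),
      (∀ (τ : ℝ) (J : ℕ) (F : Fam n J) (A : F.Ω → Prop), S'.St τ J F A → S.St τ J F A) ∧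
      PkT hn S' P r P' Λ PB ∧ ∀ p : ℚ, ThrOf (Pool.W.CHT.chsys n (p : ℝ)) S' (PQ p) := by
  obtain ⟨al, g₀, s, d, e, K₀, N, hal, hg₀, hC⟩ := H.cl
  obtain ⟨S₁, Q, h1, h2, h3⟩ := Pool.LBT.thr (LSys.sig fun p : ℚ => Pool.W.CHT.chsys n (p : ℝ)) S
    hC.ne (Pool.LBT.slo_sig fun p : ℚ => Pool.W.CHT.slo_chsys (p : ℝ) S)
    (Pool.LBT.tri_sig fun p : ℚ => Pool.W.CHT.tri_chsys (p : ℝ) S)
  exact ⟨S₁, fun p i => Q ⟨p, i⟩, h2,
    { cl := ⟨al, g₀, s, d, e, K₀, N, hal, hg₀, hC.sub h1 h2⟩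
      tgs := H.tgs.sub h2
      rate := H.rate.sub h2
      cht := fun j => (H.cht j).sub h2
      reg := H.reg
      lam := H.lam.sub h2
      thb := fun j => (H.thb j).sub h2
      regb := H.regb }, fun p => h3.of_sig p⟩

/-- **The record of the swapped list exists**, from the numbers at the pairs. -/
theorem lSwR_of (num : Nm2) : LSwR := by
  intro hn hTop hF S P r P' Λ PB H h hh hh1 o
  obtain ⟨S', PQ, hs, H', hPQ⟩ := pkw_ex H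
  obtain ⟨p₀, hp₀⟩ : ∃ p₀ : ℚ, p₀ = 1 / ((o.2 : ℚ) + 2) := ⟨_, rfl⟩
  have hth : (p₀ : ℝ) = tht o.2 := by
    rw [hp₀]
    unfold tht
    push_cast
    ring
  have key : ∀ (S : PCl 4) (G : Set ℝ), PkT hn S P r P' Λ PB →
      (∀ p : ℚ, ThrOf (Pool.W.CHT.chsys 4 (p : ℝ)) S (PQ p)) → G ⊆ Gs P r P' Λ o →
      (∀ w ∈ G, SwA S (cc hn o.1.1) (LvL hn P P' o) 1 w) →
      (∀ w ∈ G, ∀ (p : ℚ) (i : List (Fin 4) × Fin 4), ContinuousAt (dg (PQ p) i) w) →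
      SwD hn S P r P' Λ PB PQ o G (PQ p₀) (tht o.2) := by
    intro S G H hc hG hsw hY
    refine ⟨H, hTop, hF, hG, hsw, le_rfl, ?_, hc, fun w hw => hY w hw p₀, hY, fun w hw i hi => ?_⟩
    · rw [← hth]
      exact hc p₀
    · obtain ⟨α, Q, c', F⟩ := H.toPk.fac hTop hF (hG hw)
      have hw0 := F.g0
      have hw1 := F.g1
      have hθ := tht_pos o.2
      rw [LvL_lt o hi]
      have h1 := F.le _ hi w w hw0 le_rfl F.gα
      have h3 := F.thc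
      have h4 : tht o.2 * w ≤ tht o.2 := by nlinarith
      show bet (P' o.2) (cc hn o.1.1) i w w < _
      linarith
  refine ⟨S', fun S => ∀ p : ℚ, ThrOf (Pool.W.CHT.chsys 4 (p : ℝ)) S (PQ p),
    fun w => ∀ (p : ℚ) (i : List (Fin 4) × Fin 4), ContinuousAt (dg (PQ p) i) w, PQ p₀, tht o.2,
    LvP hn P (PQ p₀) o, TvP hn P (PQ p₀) PB o, H', fun S₁ S₂ h1 _ h3 p => (h1 p).sub h3, hPQ, ?_,
    fun S G H hc _ hG hsw hY => (key S G H hc hG hsw hY).lwd, ?_⟩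
  · refine ae_all_iff.2 fun p => ae_all_iff.2 fun i => ?_
    have h1 := (dg_mono' ((hPQ p).law i)).countable_not_continuousAt
    filter_upwards [h1.ae_notMem volume] with w hw
    by_contra hcon
    exact hw hcon
  · filter_upwards [H.sl_ae hTop hF] with g hsl R hTw h12 hs0 hs2 κ hκ
    have ho := R.rwd.mem
    have hsl := hsl o ho
    intro S G HT hc hG hGs hsw hY hgG W hgap al g₀ hal hg₀ hC
    have hl0 : LvL hn P P' o 0 g g = g := by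
      rw [Pool.Z4.lvL_eq o (by omega)]
      exact HT.toPk.act_diag hTop hF ho
    exact (key S G HT hc hGs hsw hY).recG num hgG hgap W hκ
      (fun l hl => (hsl l (by omega)).2.1.1) (fun l hl => (hsl l (by omega)).2.2) hs0 hs2 hl0 h12
      R.rwd.rdif R.defi hal hg₀ hC

end Pool.SWC
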