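import Pool.Agent.H57.SWC.Lx
import Pool.Agent.H57.W1.H50.SWR.Clb
import Pool.Agent.H50.SWR.Clb

/-!
# The levels of the swapped list

`thr_w`: the thresholds of the chains with the natural exponents are at most the thresholds with the
exponents over all places. `LvS`: the levels of the list with the places 1 and 2 swapped. `CoD`: the
diagonals of the thresholds are continuous. `lwD_of`: on the diagonal they are the levels of the list,
at the windows where the third coordinate has closed labels of its level over the first one.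
-/

set_option autoImplicit false

namespace Pool.SWC

open Finset Real MvPolynomial MeasureTheory Filter Topology
open Pool.Agent.H49.Ent Pool.Agent.H32.Dense Pool.STK Pool.KA Pool.KSAT Pool.K2S Pool.PB Pool.GEN
open Pool.S6C Pool.GRW Pool.RCD Pool.CHT Pool.PKG Pool.LA91
open Pool.LBT (ThrOf thr_le Reg)
open Pool.LEV (Law)
open Pool.ISO (lvN)
open Pool.TOP (TopS)
open Pool.SWP
open Pool.W.PKG (LwD)

section

variable {m J : ℕ}

/-- A chain with natural exponents is a chain with the exponents over all places. -/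
theorem chOK_w {F : Fam m J} {c : ℕ → Fin m} {r : ℕ} {K : ℕ → ℕ} {a w e : ℕ} {g : ℕ → ℕ}
    {A : F.Ω → Prop} {G : PtT F → ℕ → MvPolynomial (Option (Fin m)) ℝ}
    {H : LnT F → ℕ → MvPolynomial (Option (Fin m)) ℝ} (h : ChOK F c r K a w e g A G H) :
    Pool.W.GEN.ChOK F c r K a w e g A G H :=
  ⟨h.degG, h.degH, h.depG, h.depH, h.pos, h.agr, fun ω hω i hi b hb l hl =>
    (h.lip ω hω i hi b hb l hl).trans (pow_le_pow_right₀ (by norm_num)
      (Nat.add_le_add_left (Pool.W.GEN.nlp_ge g l i) e))⟩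

theorem cht_w {θ : ℝ} {l : List (Fin m)} {k : Fin m} {K a w P : ℕ} {F : Fam m J}
    {A : F.Ω → Prop} (h : Cht θ l k K a w P J F A) : Pool.W.CHT.Cht θ l k K a w P J F A := by
  obtain ⟨a₀, w₀, g, h1, h2, h3, h4, h5, G, H, h6⟩ := h
  exact ⟨a₀, w₀, g, h1, h2, h3, h4, h5, G, H, chOK_w h6⟩

/-- **The thresholds with natural exponents** are at most the thresholds with the exponents over all
places. -/
theorem thr_w {θ : ℝ} {S : PCl m} (hS : S.Ne) {P PW : List (Fin m) × Fin m → ℝ → ℝ → ℝ}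
    (hP : ThrOf (chsys m θ) S P) (hW : ThrOf (Pool.W.CHT.chsys m θ) S PW)
    {i : List (Fin m) × Fin m} (hr : Reg (P i)) {a w : ℝ} (hw : 0 < w) (hwa : w ≤ a)
    (ha : a ≤ 1) : P i a w ≤ PW i a w :=
  Reg.le hr (hW.law i) (fun _ _ h1 h2 h3 => thr_le (i := i) (i' := i) hS hP hW
    (fun K => ⟨K, fun _ _ _ _ _ _ h => cht_w h⟩) h1 h2 h3) hw hwa ha

end

variable {n : ℕ} {hn : 2 ≤ n} {S : PCl n} {P : ℝ → ℝ → ℝ} {r : ℝ → ℝ}
  {P' : ℕ → List (Fin n) × Fin n → ℝ → ℝ → ℝ} {Λ : Finset (Fin n) → Fin n → ℝ → ℝ → ℝ}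
  {PB : ℕ → List (Fin n) × Fin n → ℝ → ℝ → ℝ} {PW : ℕ → List (Fin n) × Fin n → ℝ → ℝ → ℝ}

/-- **The levels of the list with the places 1 and 2 swapped.** -/
noncomputable def LvS (hn : 2 ≤ n) (P : ℝ → ℝ → ℝ)
    (PW : ℕ → List (Fin n) × Fin n → ℝ → ℝ → ℝ) (o : Od n) : ℕ → ℝ → ℝ → ℝ :=
  lvN (PW o.2) (fun l => cc hn o.1.1 (sw 1 l)) (n - 1) P

/-- **The diagonals of the thresholds** are continuous at the window. -/
def CoD (PW : ℕ → List (Fin n) × Fin n → ℝ → ℝ → ℝ) (w : ℝ) : Prop :=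
  ∀ (j : ℕ) (i : List (Fin n) × Fin n), ContinuousAt (dg (PW j) i) w

theorem dg_mono' {m : ℕ} {P : List (Fin m) × Fin m → ℝ → ℝ → ℝ} {l : List (Fin m) × Fin m}
    (hP : Law (P l)) : Monotone (dg P l) := by
  intro a b h
  unfold dg
  have h1 : max 0 (min a 1) ≤ max 0 (min b 1) := max_le_max le_rfl (min_le_min h le_rfl)
  exact hP.mono (le_max_left _ _) le_rfl h1 h1 le_rfl (max_le zero_le_one (min_le_right _ _))

theorem coD_ae (h : ∀ j i, Law (PW j i)) : ∀ᵐ w : ℝ, CoD PW w := by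
  refine ae_all_iff.2 fun j => ae_all_iff.2 fun i => ?_
  have h1 := (dg_mono' (h j i)).countable_not_continuousAt
  filter_upwards [h1.ae_notMem volume] with w hw
  by_contra hcon
  exact hw hcon

/-- The levels of the swapped list on the diagonal, for one place. -/
theorem lvS_dia (H : PkT hn S P r P' Λ PB)
    (hW : ∀ j, ThrOf (Pool.W.CHT.chsys n (tht j)) S (PW j)) (hTop : TopS n) (hF : FZX (n - 1))
    (h2 : 2 < n - 1) {o : Od n} {w : ℝ} (hw : w ∈ Gs P r P' Λ o)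
    (hsw : SwA S (cc hn o.1.1) (LvL hn P P' o) 1 w) (hY : CoD PW w) {l : ℕ} (hl : l < n - 1) :
    bet (PW o.2) (fun l => cc hn o.1.1 (sw 1 l)) l w w = LvL hn P P' o (sw 1 l) w w := by
  obtain ⟨al, g₀, s, d', e', K₁, N₁, hal, hg₀, hC⟩ := H.cl
  have htm : TmC S 6 := Pool.GEN.N83.clx_tmc hC
  obtain ⟨α, Q, c', F⟩ := H.toPk.fac hTop hF hw
  have hw0 := F.g0
  have hw1 := F.g1
  obtain ⟨rd, -, hch⟩ := gs_chnX_sw H.toPk hTop hF hw (fun _ _ _ _ h => h) (k := 1) (by omega) hsw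
    (i := n - 1) le_rfl
  have hθ := tht_pos o.2
  have hsl : ∀ i < n - 1, sw 1 i < n - 1 := fun i hi => sw_mem (Or.inr (by omega)) hi
  have hlev : ∀ i < n - 1, w ≤ LvL hn P P' o (sw 1 i) w w ∧
      LvL hn P P' o (sw 1 i) w w < 1 - tht o.2 * w := by
    intro i hi
    rw [LvL_lt o (hsl i hi)]
    have h1 := F.le _ (hsl i hi) w w hw0 le_rfl F.gα
    have h3 := F.thc
    have h4 : tht o.2 * w ≤ tht o.2 := by nlinarith
    refine ⟨(H.cht o.2).low _ w w hw0.le le_rfl hw1.le, ?_⟩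
    show bet (P' o.2) (cc hn o.1.1) (sw 1 i) w w < _
    linarith
  refine le_antisymm ?_ ?_
  · exact Pool.W.SWR.thr_le_chn hθ hC.ne (by norm_num : (0 : ℝ) ≤ 6) htm hC.pos (hW o.2) hch hw0 hl
      (fun i hi => (hlev i (by omega)).1) fun i hi => (hlev i (by omega)).2
  · refine le_of_forall_pos_le_add fun e he => ?_
    have h1 := hY o.2 ((List.range l).map (fun l => cc hn o.1.1 (sw 1 l)), cc hn o.1.1 (sw 1 l))
    rw [Metric.continuousAt_iff] at h1
    obtain ⟨δ, hδ, h2⟩ := h1 e he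
    obtain ⟨w', hw'⟩ : ∃ w', w' = min (w + δ / 2) 1 := ⟨_, rfl⟩
    have hww : w < w' := by rw [hw']; exact lt_min (by linarith) hw1
    have hw'1 : w' ≤ 1 := by rw [hw']; exact min_le_right _ _
    have hw'2 : w' ≤ w + δ / 2 := by rw [hw']; exact min_le_left _ _
    have h3 := @h2 w' (by rw [Real.dist_eq, abs_lt]; constructor <;> linarith)
    rw [Real.dist_eq, dg_eq (PW o.2) _ (hw0.le.trans hww.le) hw'1, dg_eq (PW o.2) _ hw0.le hw1.le] at h3
    have h4 := Pool.SWR.chn_le_thr hθ hC.ne htm (H.cht o.2) hch hw0 hl hww hw'1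
    have h5 := (abs_lt.1 h3).2
    have h6 : bet (P' o.2) (fun l => cc hn o.1.1 (sw 1 l)) l w' w' ≤
        bet (PW o.2) (fun l => cc hn o.1.1 (sw 1 l)) l w' w' :=
      thr_w hC.ne (H.cht o.2) (hW o.2) (H.reg o.2 _) (hw0.trans hww) le_rfl hw'1
    have h7 : bet (PW o.2) (fun l => cc hn o.1.1 (sw 1 l)) l w' w' -
        bet (PW o.2) (fun l => cc hn o.1.1 (sw 1 l)) l w w < e := h5
    linarith

/-- **The levels of the swapped list.** -/
theorem lwD_of (H : PkT hn S P r P' Λ PB)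
    (hW : ∀ j, ThrOf (Pool.W.CHT.chsys n (tht j)) S (PW j)) (hTop : TopS n) (hF : FZX (n - 1))
    (h2 : 2 < n - 1) {o : Od n} {G : Set ℝ} (hG : G ⊆ Gs P r P' Λ o)
    (hsw : ∀ w ∈ G, SwA S (cc hn o.1.1) (LvL hn P P' o) 1 w) (hY : ∀ w ∈ G, CoD PW w) :
    LwD hn P P' o G (LvS hn P PW o) where
  mono l := by
    intro a ha b hb hab
    unfold LvS lvN
    by_cases hl : l < n - 1
    · simp only [if_pos hl]
      exact ((hW o.2).law _).mono ha.1.le le_rfl hab hab le_rfl hb.2.le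
    · simp only [if_neg hl]
      exact (H.tgs.law ()).mono ha.1.le le_rfl hab hab le_rfl hb.2.le
  last := by
    funext a w
    unfold LvS lvN
    rw [if_neg (lt_irrefl _)]
  dia l hl w hw := by
    unfold LvS lvN
    by_cases h3 : l < n - 1
    · rw [if_pos h3]
      exact lvS_dia H hW hTop hF h2 (hG hw) (hsw w hw) (hY w hw) h3
    · have h4 : l = n - 1 := by omega
      have e1 : sw 1 (n - 1) = n - 1 := sw_gt (by omega)
      rw [if_neg h3, h4, e1, lvL_last (hn := hn) (P := P) (P' := P') o]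

end Pool.SWC
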