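import Pool.Agent.H57.SWC.Jtv
import Pool.Agent.H57.SWC.Lwd
import Pool.Agent.H50.SWR.App
import Pool.Agent.H50.SWR.Ratc
import Pool.Agent.H3.W.Bas
import Pool.Agent.H2.GEN.AttI

/-!
# The numbers of the swapped list near a window

`SwD`: the data of the list with the places 1 and 2 swapped on a set of windows, with the thresholds
`P₀` of the exponents over all places. `SwD.dia`: its levels `LvP` on the diagonal. `SwD.pair`: at the
pairs where the path data of the greedy list exist. `SwD.sta2`, `SwD.thin2`: the kind of the place 2.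
-/

set_option autoImplicit false

namespace Pool.SWC

open Finset Real MvPolynomial MeasureTheory Filter Topology
open Pool.Agent.H49.Ent Pool.Agent.H32.Dense Pool.STK Pool.KA Pool.KSAT Pool.K2S Pool.PB Pool.GEN
open Pool.S6C Pool.GRW Pool.RCD Pool.CHT Pool.PKG Pool.LA91
open Pool.LBT (ThrOf thr_le Reg)
open Pool.LEV (Law)
open Pool.ISO (lvN)
open Pool.TOP (TopS)
open Pool.STR (ThinAt SteepAt StaAt StaD)
open Pool.SWP
open Pool.W.PKG (LwD)

section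

variable {m J : ℕ}

theorem lipE_th {θ θ' : ℝ} (h0 : 0 ≤ θ) (h : θ ≤ θ') (K w J : ℕ) :
    lipE θ K w J ≤ lipE θ' K w J := by
  refine Nat.floor_le_floor ?_
  have h1 : |θ| ≤ |θ'| := by rwa [abs_of_nonneg h0, abs_of_nonneg (h0.trans h)]
  have h2 : |θ| * w ≤ |θ'| * w := mul_le_mul_of_nonneg_right h1 (Nat.cast_nonneg w)
  linarith

/-- **The natural thresholds** are at most the thresholds with the exponents over all places and
larger gradients. -/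
theorem thr_wt {θ θ' : ℝ} (h0 : 0 ≤ θ) (h : θ ≤ θ') {S : PCl m} (hS : S.Ne)
    {P PW : List (Fin m) × Fin m → ℝ → ℝ → ℝ} (hP : ThrOf (chsys m θ) S P)
    (hW : ThrOf (Pool.W.CHT.chsys m θ') S PW) {i : List (Fin m) × Fin m} (hr : Reg (P i))
    {a w : ℝ} (hw : 0 < w) (hwa : w ≤ a) (ha : a ≤ 1) : P i a w ≤ PW i a w :=
  Reg.le hr (hW.law i) (fun _ _ h1 h2 h3 => thr_le (i := i) (i' := i) hS hP hW
    (fun K => ⟨K, fun a w Q J F A hT => by
      obtain ⟨a₀, w₀, g, k1, k2, k3, k4, k5, G, H, k6⟩ := hT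
      exact ⟨a₀, w₀, g, k1, k2, k3, k4, k5, G, H,
        chOK_w (k6.mono le_rfl (fun _ => le_rfl) le_rfl (lipE_th h0 h K w J))⟩⟩) h1 h2 h3) hw hwa ha

end

/-- **The numbers at the pairs** where the path data of the greedy list exist. -/
def Nm2 : Prop :=
  ∀ {m : ℕ} {S : PCl m} {P PW : List (Fin m) × Fin m → ℝ → ℝ → ℝ} {θ θ' : ℝ} {c : ℕ → Fin m}
    {Pt : ℝ → ℝ → ℝ} {a w Eb : ℝ} {S₀ : ℕ}, 1 ≤ S₀ → S.Ne → TmH S → ThrOf (chsys m θ) S P →
    0 < θ → Set.InjOn c (Set.Iio 4) → Law Pt → ThrOf (Pool.W.CHT.chsys m θ') S PW → 0 < θ' →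
    Pool.PKG.PtI S P θ (fun l => c (sw 1 l)) 3 Pt S₀ Eb a w →
    (∀ l ≤ 2, lvN P (fun l => c (sw 1 l)) 3 Pt l a w + θ' * w < 1) →
    bet PW c 0 a w ≤ lvN P (fun l => c (sw 1 l)) 3 Pt 0 a w ∧
    bet PW c 1 a w ≤ lvN P (fun l => c (sw 1 l)) 3 Pt 2 a w ∧
    ∀ ε : ℝ, lvN P (fun l => c (sw 1 l)) 3 Pt 1 a w + ε + θ' * w < 1 →
      lvN P (fun l => c (sw 1 l)) 3 Pt 2 a w ≤ bet PW c 1 a w + ε →
      bet PW c 2 a w ≤ lvN P (fun l => c (sw 1 l)) 3 Pt 1 a w + ε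

theorem sw10 : sw 1 0 = 0 := by unfold sw; simp
theorem sw11 : sw 1 1 = 2 := by unfold sw; simp
theorem sw12 : sw 1 2 = 1 := by unfold sw; simp
theorem sw13 : sw 1 3 = 3 := by unfold sw; simp

theorem sw1_lt {i : ℕ} (h : i < 4) : sw 1 i < 4 := sw_mem (Or.inr (by norm_num)) h

theorem sw1_lt3 {i : ℕ} (h : i < 3) : sw 1 i < 3 := sw_mem (Or.inr (by norm_num)) h

/-- **The levels of the list with the places 1 and 2 swapped**, with the thresholds `P₀`. -/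
noncomputable def LvP (hn : 2 ≤ 4) (P : ℝ → ℝ → ℝ) (P₀ : List (Fin 4) × Fin 4 → ℝ → ℝ → ℝ)
    (o : Od 4) : ℕ → ℝ → ℝ → ℝ :=
  lvN P₀ (fun l => cc hn o.1.1 (sw 1 l)) (4 - 1) P

/-- **The data of the swapped list** on a set of windows. -/
structure SwD (hn : 2 ≤ 4) (S : PCl 4) (P : ℝ → ℝ → ℝ) (r : ℝ → ℝ)
    (P' : ℕ → List (Fin 4) × Fin 4 → ℝ → ℝ → ℝ) (Λ : Finset (Fin 4) → Fin 4 → ℝ → ℝ → ℝ)
    (PB : ℕ → List (Fin 4) × Fin 4 → ℝ → ℝ → ℝ) (PQ : ℚ → List (Fin 4) × Fin 4 → ℝ → ℝ → ℝ)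
    (o : Od 4) (G : Set ℝ) (P₀ : List (Fin 4) × Fin 4 → ℝ → ℝ → ℝ) (θ₀ : ℝ) : Prop where
  pk : PkT hn S P r P' Λ PB
  top : TopS 4
  fzx : FZX (4 - 1)
  gs : G ⊆ Gs P r P' Λ o
  swa : ∀ w ∈ G, SwA S (cc hn o.1.1) (LvL hn P P' o) 1 w
  th : tht o.2 ≤ θ₀
  thr : ThrOf (Pool.W.CHT.chsys 4 θ₀) S P₀
  thq : ∀ p : ℚ, ThrOf (Pool.W.CHT.chsys 4 (p : ℝ)) S (PQ p)
  con : ∀ w ∈ G, ∀ i, ContinuousAt (dg P₀ i) w
  conq : ∀ w ∈ G, ∀ (p : ℚ) (i : List (Fin 4) × Fin 4), ContinuousAt (dg (PQ p) i) w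
  room : ∀ w ∈ G, ∀ i < 4 - 1, LvL hn P P' o i w w < 1 - θ₀ * w

section

variable {hn : 2 ≤ 4} {S : PCl 4} {P : ℝ → ℝ → ℝ} {r : ℝ → ℝ}
  {P' : ℕ → List (Fin 4) × Fin 4 → ℝ → ℝ → ℝ} {Λ : Finset (Fin 4) → Fin 4 → ℝ → ℝ → ℝ}
  {PB : ℕ → List (Fin 4) × Fin 4 → ℝ → ℝ → ℝ} {PQ : ℚ → List (Fin 4) × Fin 4 → ℝ → ℝ → ℝ}
  {o : Od 4} {G : Set ℝ} {P₀ : List (Fin 4) × Fin 4 → ℝ → ℝ → ℝ} {θ₀ : ℝ}

theorem lvP_lt {l : ℕ} (hl : l < 3) (a w : ℝ) :
    LvP hn P P₀ o l a w = bet P₀ (fun l => cc hn o.1.1 (sw 1 l)) l a w := by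
  unfold LvP lvN
  rw [if_pos (by omega)]

theorem lvP_ge {l : ℕ} (hl : ¬ l < 3) : LvP hn P P₀ o l = P := by
  funext a w
  unfold LvP lvN
  rw [if_neg (by omega)]

theorem lvP_top : LvP hn P P₀ o 3 = P := lvP_ge (by norm_num)

theorem lvP_law (hP : Law P) (h0 : ∀ i, Law (P₀ i)) (l : ℕ) : Law (LvP hn P P₀ o l) := by
  by_cases hl : l < 3
  · have : LvP hn P P₀ o l = bet P₀ (fun l => cc hn o.1.1 (sw 1 l)) l := by
      funext a w
      exact lvP_lt hl a w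
    rw [this]
    exact h0 _
  · rw [lvP_ge hl]
    exact hP

namespace SwD

variable (D : SwD hn S P r P' Λ PB PQ o G P₀ θ₀)
include D

theorem th0 : 0 < θ₀ := (tht_pos o.2).trans_le D.th

theorem law (l : ℕ) : Law (LvP hn P P₀ o l) := lvP_law (D.pk.tgs.law ()) D.thr.law l

theorem tmc : TmC S 6 := by
  obtain ⟨al, g₀, s, d', e', K₁, N₁, hal, hg₀, hC⟩ := D.pk.cl
  exact Pool.GEN.N83.clx_tmc hC

theorem tmh : TmH S := tmH_of_tmC (by norm_num) D.tmc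

theorem pos (τ : ℝ) (J : ℕ) (F : Fam 4 J) (A : F.Ω → Prop) (h : S.St τ J F A) :
    0 < Pe F.p A := by
  obtain ⟨al, g₀, s, d', e', K₁, N₁, hal, hg₀, hC⟩ := D.pk.cl
  exact hC.pos τ J F A h

theorem ne : S.Ne := D.pk.toPk.ne

theorem bnd {w : ℝ} (hw : w ∈ G) : 0 < w ∧ w < 1 :=
  ⟨(D.gs hw).1.1.1, (D.gs hw).1.1.2.1⟩

/-- The chain of the swapped list at a window. -/
theorem chn {w : ℝ} (hw : w ∈ G) : ∃ (u₁ : ℝ) (rd : ℕ → ℝ),
    Chn S (fun l => cc hn o.1.1 (sw 1 l)) 0 3 w w u₁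
      (fun l => LvL hn P P' o (sw 1 l) w w) rd := by
  obtain ⟨rd, -, hch⟩ := gs_chnX_sw D.pk.toPk D.top D.fzx (D.gs hw) (fun _ _ _ _ h => h) (k := 1)
    (by omega) (D.swa w hw) (i := 4 - 1) le_rfl
  exact ⟨_, rd, hch⟩

theorem ge {w : ℝ} (hw : w ∈ G) {l : ℕ} (hl : l < 4) : w ≤ LvL hn P P' o l w w := by
  obtain ⟨h0, h1⟩ := D.bnd hw
  by_cases h3 : l < 3
  · rw [LvL_lt o (by omega)]
    exact (D.pk.cht o.2).low _ w w h0.le le_rfl h1.le
  · have : l = 4 - 1 := by omega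
    rw [this, lvL_last]
    exact D.pk.tgs.low () w w h0.le le_rfl h1.le

/-- **Upper bounds on the diagonal**, for any exponent. -/
theorem up {w : ℝ} (hw : w ∈ G) {θ₂ : ℝ} (h2 : 0 < θ₂)
    {P₂ : List (Fin 4) × Fin 4 → ℝ → ℝ → ℝ} (hP₂ : ThrOf (Pool.W.CHT.chsys 4 θ₂) S P₂)
    (hr : ∀ i < 3, LvL hn P P' o i w w < 1 - θ₂ * w) {l : ℕ} (hl : l < 3) :
    bet P₂ (fun l => cc hn o.1.1 (sw 1 l)) l w w ≤ LvL hn P P' o (sw 1 l) w w := by
  obtain ⟨u₁, rd, hch⟩ := D.chn hw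
  exact Pool.W.SWR.thr_le_chn h2 D.ne (by norm_num : (0 : ℝ) ≤ 6) D.tmc D.pos hP₂ hch
    (D.bnd hw).1 hl (fun i hi => D.ge hw (sw1_lt (by omega)))
    fun i hi => hr _ (sw1_lt3 (by omega))

/-- **The levels on the diagonal.** -/
theorem dia {w : ℝ} (hw : w ∈ G) {l : ℕ} (hl : l < 4) :
    LvP hn P P₀ o l w w = LvL hn P P' o (sw 1 l) w w := by
  obtain ⟨hw0, hw1⟩ := D.bnd hw
  by_cases h3 : l < 3
  · rw [lvP_lt h3]
    refine le_antisymm (D.up hw D.th0 D.thr (D.room w hw) h3) ?_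
    refine le_of_forall_pos_le_add fun e he => ?_
    have h1 := D.con w hw ((List.range l).map (fun l => cc hn o.1.1 (sw 1 l)), cc hn o.1.1 (sw 1 l))
    rw [Metric.continuousAt_iff] at h1
    obtain ⟨δ, hδ, h2⟩ := h1 e he
    obtain ⟨w', hw'⟩ : ∃ w', w' = min (w + δ / 2) 1 := ⟨_, rfl⟩
    have hww : w < w' := by rw [hw']; exact lt_min (by linarith) hw1
    have hw'1 : w' ≤ 1 := by rw [hw']; exact min_le_right _ _
    have hw'2 : w' ≤ w + δ / 2 := by rw [hw']; exact min_le_left _ _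
    have h3' := @h2 w' (by rw [Real.dist_eq, abs_lt]; constructor <;> linarith)
    rw [Real.dist_eq, dg_eq P₀ _ (hw0.le.trans hww.le) hw'1, dg_eq P₀ _ hw0.le hw1.le] at h3'
    obtain ⟨u₁, rd, hch⟩ := D.chn hw
    have h4 := Pool.SWR.chn_le_thr (tht_pos o.2) D.ne D.tmc (D.pk.cht o.2) hch hw0 h3 hww hw'1
    have h5 := (abs_lt.1 h3').2
    have h6 : bet (P' o.2) (fun l => cc hn o.1.1 (sw 1 l)) l w' w' ≤
        bet P₀ (fun l => cc hn o.1.1 (sw 1 l)) l w' w' :=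
      thr_wt (tht_pos o.2).le D.th D.ne (D.pk.cht o.2) D.thr (D.pk.reg o.2 _) (hw0.trans hww)
        le_rfl hw'1
    have h7 : bet P₀ (fun l => cc hn o.1.1 (sw 1 l)) l w' w' -
        bet P₀ (fun l => cc hn o.1.1 (sw 1 l)) l w w < e := h5
    linarith
  · have h4 : l = 3 := by omega
    subst h4
    rw [lvP_top, sw13]
    exact (congrFun (congrFun (lvL_last (hn := hn) (P := P) (P' := P') o) w) w).symm

theorem lwd : LwD hn P P' o G (LvP hn P P₀ o) where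
  mono l := by
    intro a ha b hb hab
    exact (D.law l).mono ha.1.le le_rfl hab hab le_rfl hb.2.le
  last := lvP_top
  dia l hl w hw := D.dia hw (by omega)

/-- **The derivatives of the levels.** -/
theorem der {g : ℝ} (hg : g ∈ G) (hgap : ∀ C τ : ℝ, 0 < C → 0 < τ → ∃ q₁ : ℝ, 0 < q₁ ∧
      ∀ q y : ℝ, 0 < q → q < q₁ → |y - g| ≤ C * q → ∃ x ∈ G, y ≤ x ∧ x ≤ y + τ * q)
    {l : ℕ} (hl : l < 4) (hd : DifferentiableAt ℝ (fun a => LvL hn P P' o (sw 1 l) a a) g) :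
    HasDerivAt (fun a => LvP hn P P₀ o l a a) (SlL hn P P' o g (sw 1 l)) g :=
  der_of_dense (D.bnd hg).1 (D.bnd hg).2 (D.lwd.mono l)
    (u := fun a => LvL hn P P' o (sw 1 l) a a) (fun _ hw => D.dia hw hl) hd.hasDerivAt hg hgap

/-- The place 0: below. -/
theorem low0 {a w : ℝ} (hw : 0 < w) (hwa : w ≤ a) (ha : a ≤ 1) :
    LvL hn P P' o 0 a w ≤ LvP hn P P₀ o 0 a w := by
  rw [lvP_lt (by norm_num), LvL_lt o (by norm_num)]
  exact thr_wt (tht_pos o.2).le D.th D.ne (D.pk.cht o.2) D.thr (D.pk.reg o.2 _) hw hwa ha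

/-- The place 2: below. -/
theorem low2 {a w : ℝ} (hw : 0 < w) (hwa : w ≤ a) (ha : a ≤ 1) :
    LvL hn P P' o 1 a w ≤ LvP hn P P₀ o 2 a w := by
  rw [lvP_lt (by norm_num), LvL_lt o (by norm_num)]
  have e1 : bet (P' o.2) (cc hn o.1.1) 1 a w = P' o.2 ([cc hn o.1.1 0], cc hn o.1.1 1) a w := rfl
  have e2 : bet P₀ (fun l => cc hn o.1.1 (sw 1 l)) 2 a w =
      P₀ ([cc hn o.1.1 0] ++ [cc hn o.1.1 2], cc hn o.1.1 1) a w := by
    have k1 : (List.range 2).map (fun l => cc hn o.1.1 (sw 1 l)) =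
        [cc hn o.1.1 0] ++ [cc hn o.1.1 2] := rfl
    have k2 : (fun l => cc hn o.1.1 (sw 1 l)) 2 = cc hn o.1.1 1 := rfl
    show P₀ ((List.range 2).map (fun l => cc hn o.1.1 (sw 1 l)), (fun l => cc hn o.1.1 (sw 1 l)) 2)
      a w = _
    rw [k1, k2]
  rw [e1, e2]
  have hx : cc hn o.1.1 2 ∉ [cc hn o.1.1 0] := by
    rw [List.mem_singleton]
    intro h
    have := cc_inj hn o.1.1 (show 2 ∈ Set.Iio 4 by simp) (show 0 ∈ Set.Iio 4 by simp) h
    omega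
  refine (Pool.SWR.nat_app D.ne (D.pk.cht o.2) hx (D.pk.reg o.2 _) hw hwa ha).trans ?_
  exact thr_wt (tht_pos o.2).le D.th D.ne (D.pk.cht o.2) D.thr (D.pk.reg o.2 _) hw hwa ha

/-- **The levels at a pair** where the path data of the greedy list exist. -/
theorem pair (num : Nm2) {a w : ℝ} (ha : a ∈ G) (hw : w ∈ G) (hwa : w ≤ a) {S₀ : ℕ} (hS₀ : 1 ≤ S₀)
    {Eb : ℝ} (hpt : Pool.PKG.PtI S (P' o.2) (tht o.2) (cc hn o.1.1) 3 P S₀ Eb a w) {ε : ℝ}
    (hε : LvL hn P P' o 2 a w ≤ LvP hn P P₀ o 1 a w + ε) (hε0 : 0 ≤ ε)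
    (hrm : LvL hn P P' o 1 a a + ε + θ₀ * a < 1) {j : ℕ} (hj : j < 4) :
    |LvP hn P P₀ o j a w - LvL hn P P' o (sw 1 j) a w| ≤ ε := by
  obtain ⟨hw0, hw1⟩ := D.bnd hw
  obtain ⟨ha0, ha1⟩ := D.bnd ha
  have ec : (fun l => (fun l => cc hn o.1.1 (sw 1 l)) (sw 1 l)) = cc hn o.1.1 := by
    funext l
    show cc hn o.1.1 (sw 1 (sw 1 l)) = _
    rw [sw_sw]
  have hlv : ∀ l ≤ 3, lvN (P' o.2) (cc hn o.1.1) 3 P l a w = LvL hn P P' o l a w := fun l hl => rfl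
  have hinj : Set.InjOn (fun l => cc hn o.1.1 (sw 1 l)) (Set.Iio 4) := by
    intro x hx y hy h
    have h1 := cc_inj hn o.1.1 (show sw 1 x ∈ Set.Iio 4 from sw1_lt hx)
      (show sw 1 y ∈ Set.Iio 4 from sw1_lt hy) h
    rw [← sw_sw 1 x, h1, sw_sw]
  have h1 := num (c := fun l => cc hn o.1.1 (sw 1 l)) hS₀ D.ne D.tmh (D.pk.cht o.2) (tht_pos o.2)
    hinj (D.pk.tgs.law ()) D.thr D.th0 (by rw [ec]; exact hpt) (by
      rw [ec]
      intro l hl
      rw [hlv l (by omega)]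
      have h2 := (D.pk.lawL o l).mono_w a w a hw0.le hwa le_rfl ha1.le
      have h3 := D.room a ha l (by omega)
      have h4 : θ₀ * w ≤ θ₀ * a := mul_le_mul_of_nonneg_left hwa D.th0.le
      linarith)
  rw [ec] at h1
  obtain ⟨n0, n1, n2⟩ := h1
  rw [hlv _ (by norm_num)] at n0 n1
  have n2' := n2 ε
  rw [hlv _ (by norm_num), hlv _ (by norm_num), ← lvP_lt (P := P) (by norm_num),
    ← lvP_lt (P := P) (by norm_num)] at n2'
  have n2' := n2' (by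
    have h2 := (D.pk.lawL o 1).mono_w a w a hw0.le hwa le_rfl ha1.le
    have h4 : θ₀ * w ≤ θ₀ * a := mul_le_mul_of_nonneg_left hwa D.th0.le
    linarith)
  rw [← lvP_lt (P := P) (by norm_num)] at n0 n1
  have l0 := D.low0 hw0 hwa ha1.le
  have l2 := D.low2 hw0 hwa ha1.le
  interval_cases j
  · rw [sw10, abs_le]
    constructor <;> linarith
  · rw [sw11, abs_le]
    constructor <;> linarith
  · rw [sw12, abs_le]
    have := n2' hε
    constructor <;> linarith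
  · rw [sw13, lvP_top]
    have e1 : LvL hn P P' o 3 a w = P a w :=
      congrFun (congrFun (lvL_last (hn := hn) (P := P) (P' := P') o) a) w
    rw [e1, sub_self, abs_zero]
    exact hε0

/-- **The place 2 is static** if its coordinate is static in the greedy list. -/
theorem sta2 {g : ℝ} (hg : g ∈ G) {s : ℝ} (h1 : HasDerivAt (fun a => LvP hn P P₀ o 2 a a) s g)
    (h2 : HasDerivAt (fun a => LvL hn P P' o 1 a a) s g) (hst : StaAt (LvL hn P P' o 1) g) :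
    StaAt (LvP hn P P₀ o 2) g := by
  intro e he
  obtain ⟨hg0, hg1⟩ := D.bnd hg
  have hd := D.dia hg (l := 2) (by norm_num)
  rw [sw12] at hd
  obtain ⟨r₁, hr₁, k1⟩ := hst (e / 4) (by linarith)
  obtain ⟨η₁, hη₁, k2⟩ := Metric.eventually_nhds_iff.1
    ((hasDerivAt_iff_isLittleO.1 h1).def (show 0 < e / 32 by linarith))
  obtain ⟨η₂, hη₂, k3⟩ := Metric.eventually_nhds_iff.1
    ((hasDerivAt_iff_isLittleO.1 h2).def (show 0 < e / 32 by linarith))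
  refine ⟨min (min r₁ (min (η₁ / 9) (η₂ / 9))) (min (g / 9) ((1 - g) / 9)), lt_min (lt_min hr₁
    (lt_min (by linarith) (by linarith))) (lt_min (by linarith) (by linarith)),
    fun q hq hqm a w b1 b2 b3 => ?_⟩
  have q1 := hqm.trans_le ((min_le_left _ _).trans (min_le_left _ _))
  have q2 := hqm.trans_le ((min_le_left _ _).trans ((min_le_right _ _).trans (min_le_left _ _)))
  have q3 := hqm.trans_le ((min_le_left _ _).trans ((min_le_right _ _).trans (min_le_right _ _)))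
  have q4 := hqm.trans_le ((min_le_right _ _).trans (min_le_left _ _))
  have q5 := hqm.trans_le ((min_le_right _ _).trans (min_le_right _ _))
  have c1 := k1 q hq q1 a w b1 b2 b3
  have hag : |a - g| ≤ 8 * q := by
    rw [abs_le]
    constructor <;> linarith
  have c2 := k2 (y := a) (by rw [Real.dist_eq]; linarith)
  have c3 := k3 (y := a) (by rw [Real.dist_eq]; linarith)
  rw [Real.norm_eq_abs, Real.norm_eq_abs, smul_eq_mul] at c2 c3
  have c4 : e / 32 * |a - g| ≤ e / 4 * q := by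
    have := mul_le_mul_of_nonneg_left hag (show 0 ≤ e / 32 by linarith)
    linarith
  have c2' := abs_le.1 (c2.trans c4)
  have c3' := abs_le.1 (c3.trans c4)
  have c5 := D.low2 (a := a) (w := w) (by linarith) b2 (by linarith)
  linarith [c2'.2, c3'.1]

end SwD

/-! ### The grid -/

theorem grid_ex {x τ : ℝ} (hτ : 0 < τ) {M : ℕ} (h0 : 0 ≤ x) (h1 : x + τ ≤ M * τ) :
    x ≤ (⌈x / τ⌉₊ : ℝ) * τ ∧ (⌈x / τ⌉₊ : ℝ) * τ ≤ x + τ ∧ ⌈x / τ⌉₊ ≤ M := by
  have h2 := Nat.le_ceil (x / τ)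
  have h3 := Nat.ceil_lt_add_one (show 0 ≤ x / τ by positivity)
  have e1 : x / τ * τ = x := by field_simp
  have h4 : x ≤ (⌈x / τ⌉₊ : ℝ) * τ := by
    have := mul_le_mul_of_nonneg_right h2 hτ.le
    linarith
  have h5 : (⌈x / τ⌉₊ : ℝ) * τ ≤ x + τ := by
    have := mul_le_mul_of_nonneg_right h3.le hτ.le
    linarith
  refine ⟨h4, h5, ?_⟩
  have h6 : (⌈x / τ⌉₊ : ℝ) * τ ≤ M * τ := h5.trans h1
  have h7 : (⌈x / τ⌉₊ : ℝ) ≤ M := le_of_mul_le_mul_right h6 hτ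
  exact_mod_cast h7

namespace SwD

variable (D : SwD hn S P r P' Λ PB PQ o G P₀ θ₀)
include D

/-- **The number of the place 1 at a pair**: its slope is one. -/
theorem sl1 {a w x : ℝ} (ha : a ∈ G) (hw : w ∈ G) (hwa : w ≤ a)
    (h1 : LvL hn P P' o 2 a a ≤ LvL hn P P' o 2 w w + (a - w) + x)
    (h2 : LvL hn P P' o 2 w w + (a - w) < 1) :
    LvL hn P P' o 2 a w ≤ LvP hn P P₀ o 1 a w + x := by
  obtain ⟨hw0, hw1⟩ := D.bnd hw
  obtain ⟨ha0, ha1⟩ := D.bnd ha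
  have h3 := (D.pk.lawL o 2).mono_w a w a hw0.le hwa le_rfl ha1.le
  have h4 := (D.law 1).slope w w (a - w) hw0.le le_rfl (by linarith) (by linarith)
  have e1 : w + (a - w) = a := by ring
  have h5 := D.dia hw (l := 1) (by norm_num)
  rw [sw11] at h5
  rw [e1, h5, min_eq_right h2.le] at h4
  linarith

/-- **The place 2 is thin** if its coordinate is thin in the greedy list. -/
theorem thin2 (num : Nm2) {g : ℝ} (hg : g ∈ G) (W : WnG hn S P P' PB o G g)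
    (hs2 : SlL hn P P' o g 2 = 1) (hth : ThinAt (LvL hn P P' o 1) (LvT hn PB o 1) g) :
    ThinAt (LvP hn P P₀ o 2) (LvT hn PB o 1) g := by
  intro e he
  obtain ⟨hg0, hg1⟩ := D.bnd hg
  obtain ⟨θ₂, e₂, Eb, P₂, S₀, hT, -, hS₀, W⟩ := W
  obtain ⟨s, hs⟩ : ∃ s, s = |SlL hn P P' o g 1| := ⟨_, rfl⟩
  have hs0 : 0 ≤ s := by rw [hs]; exact abs_nonneg _
  obtain ⟨τ, hτ⟩ : ∃ τ, τ = min (1 / 2) (e / (4 * (s + 1))) := ⟨_, rfl⟩
  have hτ0 : 0 < τ := by rw [hτ]; exact lt_min (by norm_num) (by positivity)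
  have hτ1 : τ ≤ 1 / 2 := by rw [hτ]; exact min_le_left _ _
  have hτ2 : τ * (s + 1) ≤ e / 4 := by
    have : τ ≤ e / (4 * (s + 1)) := by rw [hτ]; exact min_le_right _ _
    rw [le_div_iff₀ (by positivity)] at this
    linarith
  obtain ⟨M, hM⟩ := exists_nat_ge (20 / τ)
  have hM1 : 20 ≤ M * τ := by rwa [div_le_iff₀ hτ0] at hM
  obtain ⟨M', hM'⟩ : ∃ M', M' = M + 1 := ⟨_, rfl⟩
  have hM'0 : 0 < M' := by omega
  -- the offsets of the grid
  obtain ⟨K, hK⟩ : ∃ K : ℝ, K = max 12 (M' * τ) := ⟨_, rfl⟩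
  have hK12 : 12 ≤ K := by rw [hK]; exact le_max_left _ _
  have hKM : M' * τ ≤ K := by rw [hK]; exact le_max_right _ _
  have hgr : ∀ i : ℕ, i < M' → (0 : ℝ) ≤ i * τ ∧ (i : ℝ) * τ ≤ K := by
    intro i hi
    refine ⟨by positivity, ?_⟩
    have h1 : (i : ℝ) ≤ M' := by exact_mod_cast hi.le
    exact (mul_le_mul_of_nonneg_right h1 hτ0.le).trans hKM
  obtain ⟨S₁, hS₁, W⟩ := W K (M' * M') (fun k => -9 + (max (k / M') (k % M') : ℕ) * τ)
    (fun k => -9 + (min (k / M') (k % M') : ℕ) * τ) (by linarith) (fun k hk => by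
      have i1 : k / M' < M' := Nat.div_lt_of_lt_mul hk
      have i2 : k % M' < M' := Nat.mod_lt _ hM'0
      obtain ⟨a1, a2⟩ := hgr (max (k / M') (k % M')) (max_lt i1 i2)
      obtain ⟨b1, b2⟩ := hgr (min (k / M') (k % M')) ((min_le_left _ _).trans_lt i1)
      have h1 : (min (k / M') (k % M') : ℕ) ≤ (max (k / M') (k % M') : ℕ) :=
        (min_le_left _ _).trans (le_max_left _ _)
      have h2 : ((min (k / M') (k % M') : ℕ) : ℝ) * τ ≤ ((max (k / M') (k % M') : ℕ) : ℝ) * τ :=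
        mul_le_mul_of_nonneg_right (by exact_mod_cast h1) hτ0.le
      exact ⟨by linarith, by linarith, by linarith⟩) τ hτ0
  obtain ⟨q₁, hq₁, W⟩ := W K 0 (fun _ => 0) le_rfl (fun k hk => absurd hk (Nat.not_lt_zero k))
    (e / 16) (by linarith)
  have hrg := D.room g hg 1 (by norm_num)
  obtain ⟨C, hC⟩ : ∃ C, C = 9 * s + e / 16 + e / 8 + 9 * θ₀ + 1 := ⟨_, rfl⟩
  have hθ₀ := D.th0
  have hC0 : 0 < C := by rw [hC]; positivity
  refine ⟨min q₁ ((1 - θ₀ * g - LvL hn P P' o 1 g g) / C), lt_min hq₁ (div_pos (by linarith) hC0),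
    fun q hq hqm a w b1 b2 b3 => ?_⟩
  have hqC := hqm.trans_le (min_le_right _ _)
  rw [lt_div_iff₀ hC0, hC] at hqC
  have hqm := hqm.trans_le (min_le_left _ _)
  obtain ⟨a1, a2, hnb, hls, W⟩ := W q g hq hqm (by
    rw [sub_self, abs_zero]
    positivity)
  obtain ⟨t, -, ht1, ht2, W, -⟩ := W ∅ measure_empty
  have hKq : 12 * q ≤ K * q := mul_le_mul_of_nonneg_right hK12 hq.le
  have eK : 3 * K * q = 3 * (K * q) := by ring
  have eK6 : 6 * K * q = 6 * (K * q) := by ring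
  have hτq : τ * q ≤ 1 / 2 * q := mul_le_mul_of_nonneg_right hτ1 hq.le
  have hτq0 : 0 < τ * q := mul_pos hτ0 hq
  rw [eK] at a1 a2
  -- the grid point
  obtain ⟨x, hx⟩ : ∃ x, x = (a - t) / q + 9 := ⟨_, rfl⟩
  obtain ⟨y, hy⟩ : ∃ y, y = (w - t) / q + 9 := ⟨_, rfl⟩
  have exq : x * q = a - t + 9 * q := by rw [hx]; field_simp
  have eyq : y * q = w - t + 9 * q := by rw [hy]; field_simp
  have hyx : y ≤ x := by
    rw [hx, hy]
    have := div_le_div_of_nonneg_right (show w - t ≤ a - t by linarith) hq.le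
    linarith
  have hy0 : 0 ≤ y := by
    have : 0 ≤ y * q := by rw [eyq]; linarith
    exact nonneg_of_mul_nonneg_left this hq
  have hx17 : x ≤ 17 := by
    have : x * q ≤ 17 * q := by rw [exq]; linarith
    exact le_of_mul_le_mul_right this hq
  obtain ⟨i1, i2, i3⟩ := grid_ex (M := M) hτ0 (hy0.trans hyx) (by linarith)
  obtain ⟨j1, j2, j3⟩ := grid_ex (M := M) hτ0 hy0 (by linarith)
  obtain ⟨i, hi⟩ : ∃ i, i = ⌈x / τ⌉₊ := ⟨_, rfl⟩
  obtain ⟨j, hj⟩ : ∃ j, j = ⌈y / τ⌉₊ := ⟨_, rfl⟩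
  rw [← hi] at i1 i2 i3
  rw [← hj] at j1 j2 j3
  have hji : j ≤ i := by
    rw [hi, hj]
    exact Nat.ceil_mono (div_le_div_of_nonneg_right hyx hτ0.le)
  have hk : i * M' + j < M' * M' := by
    have h1 : i * M' + j < (i + 1) * M' := by
      rw [Nat.succ_mul]
      omega
    exact h1.trans_le (Nat.mul_le_mul_right _ (by omega))
  have d1 : (i * M' + j) / M' = i := by
    rw [Nat.mul_comm, Nat.mul_add_div hM'0, Nat.div_eq_of_lt (by omega), Nat.add_zero]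
  have d2 : (i * M' + j) % M' = j := by
    rw [Nat.mul_comm, Nat.mul_add_mod, Nat.mod_eq_of_lt (by omega)]
  obtain ⟨-, hGk, hpk⟩ := W (i * M' + j) hk
  simp only [d1, d2, max_eq_left hji, min_eq_right hji] at hGk hpk
  obtain ⟨hpt, -, -⟩ := hpk 3 (by norm_num) (by norm_num)
  obtain ⟨a₂, ha₂⟩ : ∃ a₂, a₂ = t + (-9 + (i : ℝ) * τ) * q := ⟨_, rfl⟩
  obtain ⟨w₂, hw₂⟩ : ∃ w₂, w₂ = t + (-9 + (j : ℝ) * τ) * q := ⟨_, rfl⟩
  rw [← ha₂, ← hw₂] at hGk hpt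
  obtain ⟨haG, hwG⟩ := hGk
  have i1' := mul_le_mul_of_nonneg_right i1 hq.le
  have i2' := mul_le_mul_of_nonneg_right i2 hq.le
  have j1' := mul_le_mul_of_nonneg_right j1 hq.le
  have j2' := mul_le_mul_of_nonneg_right j2 hq.le
  rw [exq] at i1'
  rw [eyq] at j1'
  have c1 : a ≤ a₂ := by rw [ha₂]; linarith
  have c2 : a₂ ≤ a + τ * q := by
    rw [ha₂]
    have : (x + τ) * q = x * q + τ * q := by ring
    rw [this, exq] at i2'
    linarith
  have c3 : w ≤ w₂ := by rw [hw₂]; linarith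
  have c4 : w₂ ≤ w + τ * q := by
    rw [hw₂]
    have : (y + τ) * q = y * q + τ * q := by ring
    rw [this, eyq] at j2'
    linarith
  have c5 : w₂ ≤ a₂ := by
    have h1 : (j : ℝ) ≤ i := by exact_mod_cast hji
    have h2 : (j : ℝ) * τ ≤ i * τ := mul_le_mul_of_nonneg_right h1 hτ0.le
    rw [ha₂, hw₂]
    have := mul_le_mul_of_nonneg_right h2 hq.le
    linarith
  have bx : ∀ z : ℝ, g - 9 * q ≤ z → z ≤ g + 9 * q → |z - g| ≤ 3 * K * q := by
    intro z z1 z2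
    rw [eK, abs_le]
    constructor <;> linarith
  have hlast : LvL hn P P' o 3 = P := lvL_last (hn := hn) (P := P) (P' := P') o
  -- the numbers
  have l2a := abs_le.1 (hnb.dL 2 (by norm_num) a₂ (bx _ (by linarith) (by linarith)))
  have l2w := abs_le.1 (hnb.dL 2 (by norm_num) w₂ (bx _ (by linarith) (by linarith)))
  have t1w := abs_le.1 (hnb.dT 1 (by norm_num) w (bx _ (by linarith) (by linarith)))
  have t1w₂ := abs_le.1 (hnb.dT 1 (by norm_num) w₂ (bx _ (by linarith) (by linarith)))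
  rw [hs2] at l2a l2w
  have hroom := (hls 3 (by norm_num) (by norm_num)).2.2 2 (by norm_num) w₂
    (bx _ (by linarith) (by linarith))
  have hE := (hT 3 (by norm_num) (by norm_num)).2.1
  rw [eK6] at hroom
  have h3 : LvL hn P P' o 2 w₂ w₂ + (a₂ - w₂) < 1 := by linarith
  have h4 := D.sl1 haG hwG c5 (x := 2 * (e / 16 * q)) (by linarith) h3
  rw [hlast] at hpt
  have hrm : LvL hn P P' o 1 a₂ a₂ + 2 * (e / 16 * q) + θ₀ * a₂ < 1 := by
    have l1a := abs_le.1 (hnb.dL 1 (by norm_num) a₂ (bx _ (by linarith) (by linarith)))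
    have k1 : |SlL hn P P' o g 1 * (a₂ - g)| ≤ s * (9 * q) := by
      rw [abs_mul, ← hs]
      refine mul_le_mul_of_nonneg_left ?_ hs0
      rw [abs_le]
      constructor <;> linarith
    have k2 := abs_le.1 k1
    have k3 : θ₀ * a₂ ≤ θ₀ * (g + 9 * q) := mul_le_mul_of_nonneg_left (by linarith) hθ₀.le
    have k4 : q * (9 * s + e / 16 + e / 8 + 9 * θ₀ + 1) =
      s * (9 * q) + e / 16 * q + 2 * (e / 16 * q) + 9 * (θ₀ * q) + q := by ring
    have k5 : θ₀ * (g + 9 * q) = θ₀ * g + 9 * (θ₀ * q) := by ring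
    linarith
  have h5 := D.pair num haG hwG c5 hS₁ hpt h4 (by positivity) hrm (j := 2) (by norm_num)
  rw [sw12] at h5
  have h6 := hnb.thin 1 (by norm_num) hth a₂ w₂ (by linarith) c5 (by linarith)
  have h7 : LvP hn P P₀ o 2 a w ≤ LvP hn P P₀ o 2 a₂ w₂ :=
    (D.law 2).mono (by linarith) b2 c1 c3 c5 (D.bnd haG).2.le
  have h8 : SlL hn P P' o g 1 * (w₂ - w) ≤ s * (τ * q) := by
    have h9 : SlL hn P P' o g 1 ≤ s := by rw [hs]; exact le_abs_self _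
    have h10 : SlL hn P P' o g 1 * (w₂ - w) ≤ s * (w₂ - w) :=
      mul_le_mul_of_nonneg_right h9 (by linarith)
    exact h10.trans (mul_le_mul_of_nonneg_left (by linarith) hs0)
  have h9 := mul_le_mul_of_nonneg_right hτ2 hq.le
  have h10 := (abs_le.1 h5).2
  linarith [t1w.1, t1w₂.2]

end SwD

end

end Pool.SWC
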