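import Pool.Agent.H57.SWC.Asn

/-!
# The record of the swapped list near a window

`TvP`: the levels of the fattest boxes of the list with the places 1 and 2 swapped. `kgS`: its kinds.
`SwD.gdw`: the data of the greedy list at a window. `SwD.recG`: the record of the swapped list near
almost every window of the set.
-/

set_option autoImplicit false

namespace Pool.SWC

open Finset Real MvPolynomial MeasureTheory Filter Topology
open Pool.Agent.H49.Ent Pool.Agent.H32.Dense Pool.STK Pool.KA Pool.KSAT Pool.K2S Pool.PB Pool.GEN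
open Pool.S6C Pool.GRW Pool.RCD Pool.CHT Pool.LA91
open Pool.PKG hiding RecG RecT PtI
open Pool.LBT (ThrOf thr_le Reg)
open Pool.LEV (Law)
open Pool.ISO (lvN)
open Pool.TOP (TopS)
open Pool.STR (ThinAt SteepAt StaAt StaD)
open Pool.SWP
open Pool.W.PKG (LwD)

/-- A kind of a level, with its slope `s`, at a window. -/
def KgL (k : Kg) (L T : ℝ → ℝ → ℝ) (s g : ℝ) : Prop :=
  match k with
  | .one => s = 1
  | .thin => 1 < s ∧ ThinAt L T g
  | .sta => 2 ≤ s ∧ StaAt L g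
  | .stp => 2 < s ∧ SteepAt 2 T g
  | .any => True

/-- **The levels of the fattest boxes of the swapped list.** -/
noncomputable def TvP (hn : 2 ≤ 4) (P : ℝ → ℝ → ℝ) (P₀ : List (Fin 4) × Fin 4 → ℝ → ℝ → ℝ)
    (PB : ℕ → List (Fin 4) × Fin 4 → ℝ → ℝ → ℝ) (o : Od 4) (l : ℕ) : ℝ → ℝ → ℝ :=
  if l = 1 then LvP hn P P₀ o 1 else LvT hn PB o (sw 1 l)

section

variable {hn : 2 ≤ 4} {S : PCl 4} {P : ℝ → ℝ → ℝ} {r : ℝ → ℝ}
  {P' : ℕ → List (Fin 4) × Fin 4 → ℝ → ℝ → ℝ} {Λ : Finset (Fin 4) → Fin 4 → ℝ → ℝ → ℝ}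
  {PB : ℕ → List (Fin 4) × Fin 4 → ℝ → ℝ → ℝ} {PQ : ℚ → List (Fin 4) × Fin 4 → ℝ → ℝ → ℝ}
  {o : Od 4} {G : Set ℝ} {P₀ : List (Fin 4) × Fin 4 → ℝ → ℝ → ℝ} {θ₀ : ℝ}

theorem tvP_one : TvP hn P P₀ PB o 1 = LvP hn P P₀ o 1 := if_pos rfl

theorem tvP_ne {l : ℕ} (h : l ≠ 1) : TvP hn P P₀ PB o l = LvT hn PB o (sw 1 l) := if_neg h

theorem lvP_lvN {i l : ℕ} (hi : i < 4) (hl : l ≤ i) :
    lvN P₀ (fun l => cc hn o.1.1 (sw 1 l)) i (LvP hn P P₀ o i) l = LvP hn P P₀ o l := by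
  funext a w
  unfold lvN
  split_ifs with h1
  · exact (lvP_lt (by omega) a w).symm
  · have : l = i := by omega
    rw [this]

/-- **The rational points above** a pair. -/
theorem rat_tgt {S : PCl 4} (hS : S.Ne) {θ₂ : ℝ} {P₂ : List (Fin 4) × Fin 4 → ℝ → ℝ → ℝ}
    (hP : ThrOf (Pool.W.CHT.chsys 4 θ₂) S P₂) {i : List (Fin 4) × Fin 4} (hi : i.1.Nodup)
    (hi' : i.2 ∉ i.1) {Q : ℝ → ℝ → ℝ} (hQ : ThrOf (Pool.ONE.tgs i.2) S (fun _ => Q)) {a w e : ℝ}
    (hw : 0 < w) (ha : a < 1)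
    (h : ∃ d : ℝ, 0 < d ∧ ∀ a' w' : ℝ, a ≤ a' → a' ≤ a + d → w ≤ w' → w' ≤ w + d → w' ≤ a' →
      Q a' w' ≤ Q a w + e) :
    ∃ d : ℝ, 0 < d ∧ ∀ a' w' : ℝ, a ≤ a' → a' ≤ a + d → w ≤ w' → w' ≤ w + d → w' ≤ a' →
      P₂ i a' w' ≤ Q a w + e := by
  obtain ⟨d, hd, h⟩ := h
  obtain ⟨δ, hδ⟩ : ∃ δ, δ = min (d / 2) ((1 - a) / 2) := ⟨_, rfl⟩
  have h1 : δ ≤ d / 2 := hδ ▸ min_le_left _ _
  have h2 : δ ≤ (1 - a) / 2 := hδ ▸ min_le_right _ _
  have h3 : 0 < δ := hδ ▸ lt_min (half_pos hd) (by linarith)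
  refine ⟨δ, h3, fun a' w' k1 k2 k3 k4 k5 => ?_⟩
  obtain ⟨x, hx, hx'⟩ := exists_rat_btwn (show a' < a' + δ by linarith)
  obtain ⟨y, hy, hy'⟩ := exists_rat_btwn (show w' < min (w' + δ) x from
    lt_min (by linarith) (by linarith))
  have e1 := hy'.trans_le (min_le_left (w' + δ) (x : ℝ))
  have e2 := hy'.trans_le (min_le_right (w' + δ) (x : ℝ))
  have hx1 : (x : ℝ) ≤ 1 := by linarith
  refine (Pool.SWR.wle_tgs' hS hP hi hi' hQ (a' := x) (w' := y) (hw.trans_le k3) k5 hx.le hy.le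
    (by exact_mod_cast e2.le) (by exact_mod_cast hx1)).trans ?_
  exact h x y (by linarith) (by linarith) (by linarith) (by linarith) e2.le

namespace SwD

variable (D : SwD hn S P r P' Λ PB PQ o G P₀ θ₀)
include D

/-- **The data of the greedy list at a window.** -/
theorem gdw {w : ℝ} (hw : w ∈ G) {S₀ : ℕ} {Eb : ℝ}
    (hpt : Pool.PKG.PtI S (P' o.2) (tht o.2) (cc hn o.1.1) 3 P S₀ Eb w w)
    (hord : LvL hn P P' o 1 w w < LvL hn P P' o 2 w w) :
    Pool.W.ISO.Gdw S (P' o.2) (tht o.2) (fun l => cc hn o.1.1 (sw 1 l)) P w S₀ Eb := by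
  have ec : (fun l => (fun l => cc hn o.1.1 (sw 1 l)) (sw 1 l)) = cc hn o.1.1 := by
    funext l
    show cc hn o.1.1 (sw 1 (sw 1 l)) = _
    rw [sw_sw]
  have hinj : Set.InjOn (fun l => cc hn o.1.1 (sw 1 l)) (Set.Iio 4) := by
    intro x hx y hy h
    have h1 := cc_inj hn o.1.1 (show sw 1 x ∈ Set.Iio 4 from sw1_lt hx)
      (show sw 1 y ∈ Set.Iio 4 from sw1_lt hy) h
    rw [← sw_sw 1 x, h1, sw_sw]
  refine ⟨D.pk.cht o.2, tht_pos _, D.pk.tgs.law (), hinj, ?_, ?_, ?_⟩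
  · rw [ec]
    exact hpt
  · rw [ec]
    exact hord
  · rw [ec]
    obtain ⟨ρ, h1, h2, h3⟩ := D.swa w hw
    exact ⟨ρ, h1, h2, h3⟩

/-- The kinds of the swapped list. -/
theorem kgS (num : Nm2) {g : ℝ} (hg : g ∈ G) (W : WnG hn S P P' PB o G g)
    (hgap : ∀ C τ : ℝ, 0 < C → 0 < τ → ∃ q₁ : ℝ, 0 < q₁ ∧
      ∀ q y : ℝ, 0 < q → q < q₁ → |y - g| ≤ C * q → ∃ x ∈ G, y ≤ x ∧ x ≤ y + τ * q)
    (hd : ∀ l < 4, DifferentiableAt ℝ (fun a => LvL hn P P' o l a a) g)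
    (hs0 : SlL hn P P' o g 0 = 1) (hs2 : SlL hn P P' o g 2 = 1) {l : ℕ} (hl : l < 4) {k : Kg}
    (hk : KgAt hn P P' PB o (sw 1 l) g k) :
    KgL k (LvP hn P P₀ o l) (TvP hn P P₀ PB o l) (SlL hn P P' o g (sw 1 l)) g := by
  have hone : ∀ {x : ℕ} (L T : ℝ → ℝ → ℝ), SlL hn P P' o g x = 1 → KgAt hn P P' PB o x g k →
      KgL k L T (SlL hn P P' o g x) g := by
    intro x L T hx h
    have hx' : deriv (fun a => LvL hn P P' o x a a) g = 1 := hx
    cases k with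
    | one => exact hx
    | any => trivial
    | thin =>
      have h1 : 1 < deriv (fun a => LvL hn P P' o x a a) g := h.1
      rw [hx'] at h1
      exact absurd h1 (lt_irrefl _)
    | sta =>
      have h1 : 2 ≤ deriv (fun a => LvL hn P P' o x a a) g := h.1
      rw [hx'] at h1
      norm_num at h1
    | stp =>
      have h1 : 2 < deriv (fun a => LvL hn P P' o x a a) g := h.1
      rw [hx'] at h1
      norm_num at h1
  have h123 : l = 0 ∨ l = 1 ∨ l = 2 ∨ l = 3 := by omega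
  rcases h123 with rfl | rfl | rfl | rfl
  · rw [sw10] at hk ⊢
    exact hone _ _ hs0 hk
  · rw [sw11] at hk ⊢
    exact hone _ _ hs2 hk
  · have hT : TvP hn P P₀ PB o 2 = LvT hn PB o 1 := by
      rw [tvP_ne (by norm_num), sw12]
    have h1 := D.der hg hgap (l := 2) (by norm_num) (by rw [sw12]; exact hd 1 (by norm_num))
    rw [sw12] at hk h1 ⊢
    rw [hT]
    cases k with
    | one => exact hk
    | any => trivial
    | thin => exact ⟨hk.1, D.thin2 num hg W hs2 hk.2⟩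
    | sta => exact ⟨hk.1, D.sta2 hg h1 (hd 1 (by norm_num)).hasDerivAt hk.2⟩
    | stp => exact hk
  · have hT : TvP hn P P₀ PB o 3 = LvT hn PB o 3 := by
      rw [tvP_ne (by norm_num), sw13]
    have e3 : LvL hn P P' o 3 = P := lvL_last (hn := hn) (P := P) (P' := P') o
    rw [sw13] at hk ⊢
    rw [hT, lvP_top]
    cases k with
    | one => exact hk
    | any => trivial
    | thin =>
      refine ⟨hk.1, ?_⟩
      have h1 : ThinAt (LvL hn P P' o 3) (LvT hn PB o 3) g := hk.2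
      rwa [e3] at h1
    | sta =>
      refine ⟨hk.1, ?_⟩
      have h1 : StaAt (LvL hn P P' o 3) g := hk.2
      rwa [e3] at h1
    | stp => exact hk

end SwD

end

/-- The numbers of a kind near a window. -/
theorem kgQ_of {k : Kg} {L T : ℕ → ℝ → ℝ → ℝ} {Sl : ℕ → ℝ} {N l : ℕ} {g η K q K' t ε : ℝ}
    (hn : Nbx L T Sl N g η K q) (hl : l ≤ N) (h : KgL k (L l) (T l) (Sl l) g)
    (h1 : g - K * q ≤ t - K' * q) (h2 : t + K' * q ≤ g + K * q) (h3 : η * q ≤ ε * q) :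
    KgQ k (L l) (T l) (Sl l) t K' q ε := by
  unfold KgQ
  unfold KgL at h
  cases k with
  | one => exact h
  | thin =>
    refine ⟨h.1, fun a w h6 h7 h8 => ?_⟩
    have := hn.thin l hl h.2 a w (by linarith) h7 (by linarith)
    linarith
  | sta =>
    refine ⟨h.1, fun a w h6 h7 h8 => ?_⟩
    have := hn.sta l hl h.2 a w (by linarith) h7 (by linarith)
    linarith
  | stp =>
    refine ⟨h.1, fun a w h6 h7 h8 => ?_⟩
    have := hn.stp l hl h.2 a w (by linarith) h7 (by linarith)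
    linarith
  | any => trivial

end Pool.SWC
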