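import Pool.Agent.H57.SWC.Aso

/-!
# The record of the swapped list

`SwD.recG`: the record of the list with the places 1 and 2 swapped, near almost every window of a set
where the coordinate of the place 2 has closed labels of its level over the first one.
-/

set_option autoImplicit false

namespace Pool.SWC

open Finset Real MvPolynomial MeasureTheory Filter Topology
open Pool.Agent.H49.Ent Pool.Agent.H32.Dense Pool.STK Pool.KA Pool.KSAT Pool.K2S Pool.PB Pool.GEN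
open Pool.S6C Pool.GRW Pool.RCD Pool.CHT Pool.LA91
open Pool.PKG hiding RecG RecT PtI
open Pool.LBT (ThrOf thr_le Reg)
open Pool.LEV (Law)
open Pool.ISO (lvN)
open Pool.TOP (TopS)
open Pool.STR (ThinAt SteepAt StaAt StaD)
open Pool.SWP
open Pool.W.PKG (LwD RecG RecT PtI)

section

variable {hn : 2 ≤ 4} {S : PCl 4} {P : ℝ → ℝ → ℝ} {r : ℝ → ℝ}
  {P' : ℕ → List (Fin 4) × Fin 4 → ℝ → ℝ → ℝ} {Λ : Finset (Fin 4) → Fin 4 → ℝ → ℝ → ℝ}
  {PB : ℕ → List (Fin 4) × Fin 4 → ℝ → ℝ → ℝ} {PQ : ℚ → List (Fin 4) × Fin 4 → ℝ → ℝ → ℝ}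
  {o : Od 4} {G : Set ℝ} {P₀ : List (Fin 4) × Fin 4 → ℝ → ℝ → ℝ} {θ₀ : ℝ}

/-- The room at the window. -/
theorem wnG_room {g : ℝ} {Eb : ℝ}
    (W : ∀ (K : ℝ) (N : ℕ) (A V : ℕ → ℝ), 1 ≤ K → (∀ k < N, -K ≤ V k ∧ V k ≤ A k ∧ A k ≤ K) →
        ∀ th : ℝ, 0 < th → ∃ S₁ : ℕ, 1 ≤ S₁ ∧ ∀ (K' : ℝ) (N' : ℕ) (V' : ℕ → ℝ), K ≤ K' →
          (∀ k < N', -K' ≤ V' k ∧ V' k ≤ K') → ∀ η : ℝ, 0 < η → ∃ q₁ : ℝ, 0 < q₁ ∧
          ∀ q u : ℝ, 0 < q → q < q₁ → |u - g| ≤ K * q →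
            ∀ j ≤ 3, ∀ x : ℝ, |x - g| ≤ 3 * K' * q →
              LvL hn P P' o j x x + Eb + 6 * K' * q < 1) :
    ∀ j ≤ 3, LvL hn P P' o j g g + Eb < 1 := by
  obtain ⟨S₁, -, W⟩ := W 1 0 (fun _ => 0) (fun _ => 0) le_rfl
    (fun k hk => absurd hk (Nat.not_lt_zero k)) 1 one_pos
  obtain ⟨q₁, hq₁, W⟩ := W 1 0 (fun _ => 0) le_rfl (fun k hk => absurd hk (Nat.not_lt_zero k)) 1
    one_pos
  intro j hj
  have h1 := W (q₁ / 2) g (by linarith) (by linarith) (by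
    rw [sub_self, abs_zero]
    linarith) j hj g (by
    rw [sub_self, abs_zero]
    linarith)
  linarith

namespace SwD

variable (D : SwD hn S P r P' Λ PB PQ o G P₀ θ₀)
include D

/-- The levels of the fattest boxes are at most the levels. -/
theorem tvP_le {a w : ℝ} (hw : 0 < w) (hwa : w ≤ a) (ha : a ≤ 1)
    (h : ∀ l ≤ 4 - 1, LvT hn PB o l a w ≤ LvL hn P P' o l a w) {l : ℕ} (hl : l < 4) :
    TvP hn P P₀ PB o l a w ≤ LvP hn P P₀ o l a w := by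
  have h123 : l = 0 ∨ l = 1 ∨ l = 2 ∨ l = 3 := by omega
  rcases h123 with rfl | rfl | rfl | rfl
  · rw [tvP_ne (by norm_num), sw10]
    exact (h 0 (by norm_num)).trans (D.low0 hw hwa ha)
  · rw [tvP_one]
  · rw [tvP_ne (by norm_num), sw12]
    exact (h 1 (by norm_num)).trans (D.low2 hw hwa ha)
  · rw [tvP_ne (by norm_num), sw13, lvP_top]
    have e3 : LvL hn P P' o 3 = P := lvL_last (hn := hn) (P := P) (P' := P') o
    have h1 := h 3 (by norm_num)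
    rwa [e3] at h1

/-- The deep data of a window. -/
theorem dpB {w : ℝ} (hw : w ∈ G) {S₀ : ℕ} {Eb : ℝ}
    (hpt : Pool.PKG.PtI S (P' o.2) (tht o.2) (cc hn o.1.1) 3 P S₀ Eb w w)
    (hord : LvL hn P P' o 1 w w < LvL hn P P' o 2 w w) {l : ℕ} (hl : l < 4) :
    Pool.W.ISO.DpB S (fun l => cc hn o.1.1 (sw 1 l)) l
      (fun j => lvN P₀ (fun l => cc hn o.1.1 (sw 1 l)) l (LvP hn P P₀ o l) j w w) w S₀ Eb := by
  refine ⟨P' o.2, tht o.2, P, D.gdw hw hpt hord, by omega, fun j hj => ?_⟩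
  have ec : (fun l => (fun l => cc hn o.1.1 (sw 1 l)) (sw 1 l)) = cc hn o.1.1 := by
    funext l
    show cc hn o.1.1 (sw 1 (sw 1 l)) = _
    rw [sw_sw]
  show lvN P₀ (fun l => cc hn o.1.1 (sw 1 l)) l (LvP hn P P₀ o l) j w w = _
  rw [lvP_lvN hl hj, D.dia hw (by omega), ec]
  rfl

/-- The data of a pair. -/
theorem ptI {a w : ℝ} (hw : w ∈ G) (hwa : w ≤ a) (ha : a < 1) {S₀ : ℕ} (hS₀ : 1 ≤ S₀) {Eb : ℝ}
    (hE : 0 < Eb) (hpt : Pool.PKG.PtI S (P' o.2) (tht o.2) (cc hn o.1.1) 3 P S₀ Eb w w)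
    (hord : LvL hn P P' o 1 w w < LvL hn P P' o 2 w w) {l : ℕ} (hl : l < 4) :
    PtI S P₀ θ₀ (fun l => cc hn o.1.1 (sw 1 l)) l (LvP hn P P₀ o l) S₀ Eb a w := by
  obtain ⟨hw0, hw1⟩ := D.bnd hw
  refine ⟨0, fun _ => 0, fun _ => 0, fun _ => 0, fun _ => Eb, fun _ => 0, ∅,
    ⟨hw0, hwa, ha, hE, hS₀, ?_, D.dpB hw hpt hord hl⟩, le_rfl, hE.le⟩
  by_cases h3 : l < 3
  · rw [lvP_lt h3]
    exact D.thr.low _ a w hw0.le hwa ha.le
  · rw [lvP_ge h3]
    exact D.pk.tgs.low () a w hw0.le hwa ha.le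

/-- The deep data of a pair. -/
theorem dpP (num : Nm2) {a w : ℝ} (ha : a ∈ G) (hw : w ∈ G) (hwa : w ≤ a) {S₀ : ℕ} (hS₀ : 1 ≤ S₀)
    {Eb : ℝ} (hpw : Pool.PKG.PtI S (P' o.2) (tht o.2) (cc hn o.1.1) 3 P S₀ Eb w w)
    (hpa : Pool.PKG.PtI S (P' o.2) (tht o.2) (cc hn o.1.1) 3 P S₀ Eb a w)
    (hord : LvL hn P P' o 1 w w < LvL hn P P' o 2 w w) {x : ℝ} (hx : 0 ≤ x)
    (h1 : LvL hn P P' o 2 a a ≤ LvL hn P P' o 2 w w + (a - w) + x)
    (h2 : LvL hn P P' o 2 w w + (a - w) < 1) (hrm : LvL hn P P' o 1 a a + x + θ₀ * a < 1)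
    {l : ℕ} (hl : l < 4) :
    Pool.W.ISO.DpP S (fun l => cc hn o.1.1 (sw 1 l)) l
      (fun j => lvN P₀ (fun l => cc hn o.1.1 (sw 1 l)) l (LvP hn P P₀ o l) j w w)
      (fun j => lvN P₀ (fun l => cc hn o.1.1 (sw 1 l)) l (LvP hn P P₀ o l) j a w) a w S₀ Eb x := by
  have ec : (fun l => (fun l => cc hn o.1.1 (sw 1 l)) (sw 1 l)) = cc hn o.1.1 := by
    funext l
    show cc hn o.1.1 (sw 1 (sw 1 l)) = _
    rw [sw_sw]
  obtain ⟨hw0, hw1⟩ := D.bnd hw
  obtain ⟨ha0, ha1⟩ := D.bnd ha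
  have h3 := D.sl1 ha hw hwa h1 h2
  have h4 := (D.pk.lawL o 2).mono_w a w a hw0.le hwa le_rfl ha1.le
  refine ⟨P' o.2, tht o.2, P, D.gdw hw hpw hord, by omega, fun j hj => ?_, ?_, fun j hj => ?_, ?_⟩
  · show lvN P₀ (fun l => cc hn o.1.1 (sw 1 l)) l (LvP hn P P₀ o l) j w w = _
    rw [lvP_lvN hl hj, D.dia hw (by omega), ec]
    rfl
  · rw [ec]
    exact hpa
  · show |lvN P₀ (fun l => cc hn o.1.1 (sw 1 l)) l (LvP hn P P₀ o l) j a w - _| ≤ x
    rw [lvP_lvN hl hj, ec]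
    exact D.pair num ha hw hwa hS₀ hpa h3 hx hrm (by omega)
  · rw [ec]
    show LvL hn P P' o 2 a w ≤ LvL hn P P' o 2 w w + (a - w) + x
    linarith

/-- **The record of the swapped list near a window of the set.** -/
theorem recG (num : Nm2) {g : ℝ} (hg : g ∈ G)
    (hgap : ∀ C τ : ℝ, 0 < C → 0 < τ → ∃ q₁ : ℝ, 0 < q₁ ∧
      ∀ q y : ℝ, 0 < q → q < q₁ → |y - g| ≤ C * q → ∃ x ∈ G, y ≤ x ∧ x ≤ y + τ * q)
    (W : WnG hn S P P' PB o G g) {κ : ℕ → Kg} (hκ : ∀ l < 4, KgAt hn P P' PB o (sw 1 l) g (κ l))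
    (hd : ∀ l < 4, DifferentiableAt ℝ (fun a => LvL hn P P' o l a a) g)
    (hT : ∀ l < 4, DifferentiableAt ℝ (fun a => LvT hn PB o l a a) g ∧
      deriv (fun a => LvT hn PB o l a a) g = SlL hn P P' o g l ∧
      LvT hn PB o l g g = LvL hn P P' o l g g)
    (hs0 : SlL hn P P' o g 0 = 1) (hs2 : SlL hn P P' o g 2 = 1) (hl0 : LvL hn P P' o 0 g g = g)
    (h12 : LvL hn P P' o 1 g g < LvL hn P P' o 2 g g)
    {h : ℝ} (hr : DifferentiableAt ℝ r (P g g)) (hh : deriv r (P g g) < 1 - h)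
    {al : ℝ} {g₀ : ℝ → ℝ} (hal : 0 < al) (hg₀ : ∀ ε : ℝ, 0 < ε → 0 < g₀ ε)
    (hC : ∃ (s : Fin 4 → ℝ) (d : ℕ → ℝ) (e : ℝ) (K₀ : ℕ) (N₁ : ℚ → ℚ → ℝ),
      ClX s d al g₀ e K₀ N₁ S) :
    ∃ (P₂ : ℕ → List (Fin 4) × Fin 4 → ℝ → ℝ → ℝ) (θ₂ Eb e₂ : ℕ → ℝ) (S₀ : ℕ), 1 ≤ S₀ ∧
      ∀ (K₀ K : ℝ) (N : ℕ) (A V : ℕ → ℝ), 0 < K₀ → 1 ≤ K →
      (∀ k < N, -K ≤ V k ∧ V k ≤ A k ∧ A k ≤ K) →
      ∀ th : ℝ, 0 < th → ∃ S₂ : ℕ, S₀ ≤ S₂ ∧ ∀ (K' : ℝ) (N' : ℕ) (V' : ℕ → ℝ), K ≤ K' →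
        (∀ k < N', -K' ≤ V' k ∧ V' k ≤ K') → ∀ ε : ℝ, 0 < ε → ∃ q₁ : ℝ, 0 < q₁ ∧
        ∀ q u : ℝ, 0 < q → q < q₁ → |u - g| ≤ K₀ * q → ∃ t : ℝ, u ≤ t ∧ t ≤ u + th * q ∧
          RecG S al g₀ P₀ θ₀ P₂ θ₂ Eb e₂ (fun l => cc hn o.1.1 (sw 1 l)) P r h (K₀ + th) g
            (LvP hn P P₀ o) (TvP hn P P₀ PB o) (fun l => SlL hn P P' o g (sw 1 l)) κ G S₀ N A V
            S₂ N' V' K' ε q t := by
  obtain ⟨hg0, hg1⟩ := D.bnd hg
  have hkl : ∀ l < 4, KgL (κ l) (LvP hn P P₀ o l) (TvP hn P P₀ PB o l)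
      (SlL hn P P' o g (sw 1 l)) g := fun l hl => D.kgS num hg W hgap hd hs0 hs2 hl (hκ l hl)
  have hder : ∀ l < 4, HasDerivAt (fun a => LvP hn P P₀ o l a a) (SlL hn P P' o g (sw 1 l)) g :=
    fun l hl => D.der hg hgap hl (hd _ (sw1_lt hl))
  have hdia : ∀ l < 4, LvP hn P P₀ o l g g = LvL hn P P' o (sw 1 l) g g :=
    fun l hl => D.dia hg hl
  have hderT : ∀ l < 4, DifferentiableAt ℝ (fun a => TvP hn P P₀ PB o l a a) g ∧
      deriv (fun a => TvP hn P P₀ PB o l a a) g = SlL hn P P' o g (sw 1 l) ∧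
      TvP hn P P₀ PB o l g g = LvP hn P P₀ o l g g := by
    intro l hl
    by_cases h1 : l = 1
    · subst h1
      rw [tvP_one]
      exact ⟨(hder 1 hl).differentiableAt, (hder 1 hl).deriv, rfl⟩
    · rw [tvP_ne h1]
      obtain ⟨k1, k2, k3⟩ := hT _ (sw1_lt hl)
      exact ⟨k1, k2, by rw [k3, hdia l hl]⟩
  obtain ⟨θg, eg, Ebg, Pg, S₀, hTg, -, hS₀, W⟩ := W
  obtain ⟨E, hE⟩ : ∃ E, E = Ebg 3 := ⟨_, rfl⟩
  have hE0 : 0 < E := by
    rw [hE]
    exact (hTg 3 (by norm_num) (by norm_num)).2.1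
  have hroom : ∀ j ≤ 3, LvL hn P P' o j g g + E < 1 := by
    refine wnG_room fun K N A V hK hAV th hth => ?_
    obtain ⟨S₁, h1, W⟩ := W K N A V hK hAV th hth
    refine ⟨S₁, h1, fun K' N' V' hKK hV' η hη => ?_⟩
    obtain ⟨q₁, hq₁, W⟩ := W K' N' V' hKK hV' η hη
    refine ⟨q₁, hq₁, fun q u hq hq' hu j hj x hx => ?_⟩
    rw [hE]
    exact ((W q u hq hq' hu).2.2.2.1 3 (by norm_num) (by norm_num)).2.2 j hj x hx
  -- the second exponent
  obtain ⟨δ₁, hδ₁, hδ₁l⟩ := fin_pos 4 (f := fun l => 1 - (LvL hn P P' o l g g + E))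
    fun l hl => by linarith [hroom l (by omega)]
  obtain ⟨p, hp1, hp2⟩ := exists_rat_btwn (show E / g < (E + δ₁ / 2) / g from
    div_lt_div_of_pos_right (by linarith) hg0)
  rw [div_lt_iff₀ hg0] at hp1
  rw [lt_div_iff₀ hg0] at hp2
  have hp0 : (0 : ℝ) < p := by
    by_contra hcon
    have : (p : ℝ) * g ≤ 0 := mul_nonpos_of_nonpos_of_nonneg (not_lt.1 hcon) hg0.le
    linarith
  refine ⟨fun _ => PQ p, fun _ => p, fun _ => E, fun _ => (E + p * g) / 2, S₀, hS₀, ?_⟩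
  intro K₀' K₁ N A V hK₀' hK1 hAV th hth
  obtain ⟨K₀, hK₀⟩ : ∃ K₀, K₀ = max K₀' K₁ := ⟨_, rfl⟩
  have hKK₁ : K₁ ≤ K₀ := by rw [hK₀]; exact le_max_right _ _
  have hKK' : K₀' ≤ K₀ := by rw [hK₀]; exact le_max_left _ _
  obtain ⟨S₁, hS₁, W⟩ := W (K₀ + 1) N A V (by linarith) (fun k hk => by
    obtain ⟨h1, h2, h3⟩ := hAV k hk
    exact ⟨by linarith, h2, by linarith⟩) (min th K₀) (lt_min hth (by linarith))
  refine ⟨max S₀ S₁, le_max_left _ _, fun K N' V' hK₁K hV' ε hε => ?_⟩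
  have hK0 : 0 < K := by linarith
  obtain ⟨R, hR⟩ : ∃ R, R = max K₀ K := ⟨_, rfl⟩
  have hR1 : K₀ ≤ R := by rw [hR]; exact le_max_left _ _
  have hR2 : K ≤ R := by rw [hR]; exact le_max_right _ _
  have hR0 : 0 < R := by linarith
  obtain ⟨q₁, hq₁, W⟩ := W (R + 1) N' V' (by linarith) (fun k hk => by
    obtain ⟨h1, h2⟩ := hV' k hk
    exact ⟨by linarith, by linarith⟩) (ε / 8) (by linarith)
  obtain ⟨q₃, hq₃, hnS⟩ := pos_ev (nbx_ev (L := LvP hn P P₀ o)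
    (T := TvP hn P P₀ PB o) (Sl := fun l => SlL hn P P' o g (sw 1 l)) (N := 3) (g := g)
    (fun l hl => ⟨(hder l (by omega)).differentiableAt, (hder l (by omega)).deriv⟩)
    (fun l hl => hderT l (by omega)) (η := ε / 4) (K := 3 * (R + 1)) (by linarith)
    (by linarith))
  obtain ⟨sN, hsN⟩ : ∃ sN, sN = |SlL hn P P' o g 3| := ⟨_, rfl⟩
  have hsN0 : 0 ≤ sN := by rw [hsN]; exact abs_nonneg _
  obtain ⟨q₂, hq₂, hrow⟩ := row_near hr hh (C := K + sN * (2 * R) + ε) (ε := ε)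
    (by positivity) hε
  -- the small scales
  obtain ⟨s, hs⟩ : ∃ s : ℝ, s = ∑ l ∈ Finset.range 4, |SlL hn P P' o g l| := ⟨_, rfl⟩
  have hsl : ∀ l < 4, |SlL hn P P' o g l| ≤ s := fun l hl => by
    rw [hs]
    exact Finset.single_le_sum (f := fun l => |SlL hn P P' o g l|) (fun _ _ => abs_nonneg _)
      (Finset.mem_range.2 hl)
  have hs0' : 0 ≤ s := (abs_nonneg _).trans (hsl 0 (by norm_num))
  have hrg := D.room g hg 1 (by norm_num)
  have hθ₀ := D.th0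
  obtain ⟨δ, hδ⟩ : ∃ δ, δ = min (min (δ₁ / 2) (p * g - E)) (min (LvL hn P P' o 2 g g -
    LvL hn P P' o 1 g g) (1 - θ₀ * g - LvL hn P P' o 1 g g)) := ⟨_, rfl⟩
  have hδ0 : 0 < δ := by
    rw [hδ]
    exact lt_min (lt_min (by linarith) (by linarith)) (lt_min (by linarith) (by linarith))
  have hδa : δ ≤ δ₁ / 2 := by rw [hδ]; exact (min_le_left _ _).trans (min_le_left _ _)
  have hδb : δ ≤ p * g - E := by rw [hδ]; exact (min_le_left _ _).trans (min_le_right _ _)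
  have hδc : δ ≤ LvL hn P P' o 2 g g - LvL hn P P' o 1 g g := by
    rw [hδ]
    exact (min_le_right _ _).trans (min_le_left _ _)
  have hδd : δ ≤ 1 - θ₀ * g - LvL hn P P' o 1 g g := by
    rw [hδ]
    exact (min_le_right _ _).trans (min_le_right _ _)
  obtain ⟨C, hC'⟩ : ∃ C, C = 4 * ((3 * (R + 1)) * (s + p + θ₀ + 1) + 3 * K + ε + 1) := ⟨_, rfl⟩
  have hC0 : 0 < C := by rw [hC']; positivity
  refine ⟨min (min q₁ q₂) (min q₃ (δ / C)), lt_min (lt_min hq₁ hq₂)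
    (lt_min hq₃ (div_pos hδ0 hC0)), fun q u hq hqm hu => ?_⟩
  have hq' := hqm.trans_le ((min_le_left _ _).trans (min_le_left _ _))
  have hrow := hrow q hq (hqm.trans_le ((min_le_left _ _).trans (min_le_right _ _)))
  have hnS := hnS q hq (hqm.trans_le ((min_le_right _ _).trans (min_le_left _ _)))
  have hqδ := hqm.trans_le ((min_le_right _ _).trans (min_le_right _ _))
  rw [lt_div_iff₀ hC0] at hqδ
  obtain ⟨X, hX⟩ : ∃ X, X = 3 * (R + 1) * q := ⟨_, rfl⟩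
  have hX0 : 0 < X := by rw [hX]; positivity
  have hsX : 0 ≤ s * X := mul_nonneg hs0' hX0.le
  have hpX : 0 < p * X := mul_pos hp0 hX0
  have hθX : 0 < θ₀ * X := mul_pos hθ₀ hX0
  have hKq0 : 0 < K * q := mul_pos hK0 hq
  have hεq : 0 < ε * q := mul_pos hε hq
  have hsm : 4 * (s * X + p * X + θ₀ * X + X + 3 * (K * q) + ε * q + q) < δ := by
    have e1 : q * C = 4 * (s * X + p * X + θ₀ * X + X + 3 * (K * q) + ε * q + q) := by
      rw [hC', hX]
      ring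
    linarith
  have hK₀q : K₀' * q ≤ K₀ * q := mul_le_mul_of_nonneg_right hKK' hq.le
  have hK₁q : K₁ * q ≤ K₀ * q := mul_le_mul_of_nonneg_right hKK₁ hq.le
  have hR1q : K₀ * q ≤ R * q := mul_le_mul_of_nonneg_right hR1 hq.le
  have eq0 : X = 3 * (R * q) + 3 * q := by rw [hX]; ring
  have eq2 : (K₀ + 1) * q = K₀ * q + q := by ring
  obtain ⟨a1, a2, hnb, hls, W⟩ := W q u hq hq' (by
    rw [eq2]
    linarith)
  rw [← hX] at a1 a2
  obtain ⟨t, ht1, ht2, W, Wc, hrat⟩ : ∃ t : ℝ, u ≤ t ∧ t ≤ u + min th K₀ * q ∧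
      (∀ k < N, (∀ l ≤ 4 - 1, LvT hn PB o l (t + A k * q) (t + V k * q) ≤
          LvL hn P P' o l (t + A k * q) (t + V k * q) ∧
        LvT hn PB o l (t + V k * q) (t + V k * q) ≤
          LvL hn P P' o l (t + V k * q) (t + V k * q)) ∧
        (t + A k * q ∈ G ∧ t + V k * q ∈ G) ∧
        Pool.PKG.PtI S (P' o.2) (tht o.2) (cc hn o.1.1) 3 P S₁ E (t + A k * q) (t + V k * q) ∧
        Pool.PKG.PtI S (P' o.2) (tht o.2) (cc hn o.1.1) 3 P S₀ E (t + V k * q) (t + V k * q)) ∧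
      (∀ k < N', (∀ l ≤ 4 - 1, LvT hn PB o l (t + V' k * q) (t + V' k * q) ≤
          LvL hn P P' o l (t + V' k * q) (t + V' k * q)) ∧ t + V' k * q ∈ G ∧
        Pool.PKG.PtI S (P' o.2) (tht o.2) (cc hn o.1.1) 3 P S₀ E (t + V' k * q)
          (t + V' k * q)) ∧
      ∀ k < N, 0 < t + V k * q → t + A k * q < 1 → ∀ e : ℝ, 0 < e → ∃ d : ℝ, 0 < d ∧
        ∀ a' w' : ℝ, t + A k * q ≤ a' → a' ≤ t + A k * q + d → t + V k * q ≤ w' →
        w' ≤ t + V k * q + d → w' ≤ a' → P a' w' ≤ P (t + A k * q) (t + V k * q) + e := by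
    have hz : ∀ k, ∃ Z : Set ℝ, volume Z = 0 ∧ (k < N → ∀ t ∉ Z, 0 < t + V k * q →
        t + A k * q < 1 → ∀ e : ℝ, 0 < e → ∃ d : ℝ, 0 < d ∧
        ∀ a' w' : ℝ, t + A k * q ≤ a' → a' ≤ t + A k * q + d → t + V k * q ≤ w' →
        w' ≤ t + V k * q + d → w' ≤ a' → P a' w' ≤ P (t + A k * q) (t + V k * q) + e) := by
      intro k
      by_cases hk : k < N
      · obtain ⟨Z, z1, z2⟩ := rat_of (ι := Unit) (f := fun _ => P)
          (fun _ => D.pk.tgs.law ()) (mul_le_mul_of_nonneg_right (hAV k hk).2.1 hq.le)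
        exact ⟨Z, z1, fun _ t ht h0 h1 e he => z2 t ht h0 h1 () e he⟩
      · exact ⟨∅, measure_empty, fun h => absurd h hk⟩
    choose Z hZ0 hZ using hz
    obtain ⟨t, ht, ht1, ht2, W, Wc⟩ := W (⋃ k, Z k) (measure_iUnion_null hZ0)
    rw [Set.mem_iUnion, not_exists] at ht
    have e3 : LvL hn P P' o 3 = P := lvL_last (hn := hn) (P := P) (P' := P') o
    refine ⟨t, ht1, ht2, fun k hk => ?_, fun k hk => ?_, fun k hk => hZ k hk t (ht k)⟩
    · obtain ⟨c1, c2, c3⟩ := W k hk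
      obtain ⟨c4, c5, -⟩ := c3 3 (by norm_num) (by norm_num)
      rw [e3, ← hE] at c4 c5
      exact ⟨c1, c2, c4, c5⟩
    · obtain ⟨c1, c2, c3⟩ := Wc k hk
      obtain ⟨c4, -⟩ := c3 3 (by norm_num) (by norm_num)
      rw [e3, ← hE] at c4
      exact ⟨c1, c2, c4⟩
  have hKq : K * q ≤ R * q := mul_le_mul_of_nonneg_right hR2 hq.le
  have m1 : min th K₀ * q ≤ th * q := mul_le_mul_of_nonneg_right (min_le_left _ _) hq.le
  have m2 : min th K₀ * q ≤ K₀ * q := mul_le_mul_of_nonneg_right (min_le_right _ _) hq.le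
  have hu' := abs_le.1 hu
  have htg : |t - g| ≤ 2 * (R * q) := by
    rw [abs_le]
    constructor <;> linarith
  have htg' := abs_le.1 htg
  have hbx : ∀ x : ℝ, |x - t| ≤ K * q → |x - g| ≤ X := fun x hx => by
    have := abs_le.1 hx
    rw [abs_le]
    constructor <;> linarith
  have hbx2 : ∀ x : ℝ, |x - t| ≤ K * q → |x - g| ≤ 3 * (R + 1) * q := fun x hx => by
    rw [← hX]
    exact hbx x hx
  have htt : |t - t| ≤ K * q := by
    rw [sub_self, abs_zero]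
    exact hKq0.le
  -- the numbers near `g`
  have hslx : ∀ l < 4, ∀ x : ℝ, |x - g| ≤ X → |SlL hn P P' o g l * (x - g)| ≤ s * X := by
    intro l hl x hx
    rw [abs_mul]
    exact mul_le_mul (hsl l hl) hx (abs_nonneg _) hs0'
  have hLg : ∀ l < 4, ∀ x : ℝ, |x - t| ≤ K * q →
      |LvL hn P P' o l x x - LvL hn P P' o l g g| ≤ s * X + ε / 8 * q := by
    intro l hl x hx
    have k1 := abs_le.1 (hnb.dL l (by omega) x (hbx2 x hx))
    have k2 := abs_le.1 (hslx l hl x (hbx x hx))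
    rw [abs_le]
    constructor <;> linarith
  have hLS : ∀ l < 4, ∀ x : ℝ, |x - t| ≤ K * q →
      |LvP hn P P₀ o l x x - LvL hn P P' o (sw 1 l) g g| ≤ s * X + ε / 4 * q := by
    intro l hl x hx
    have k1 := abs_le.1 (hnS.dL l (by omega) x (hbx2 x hx))
    have k2 := abs_le.1 (hslx _ (sw1_lt hl) x (hbx x hx))
    rw [hdia l hl] at k1
    rw [abs_le]
    constructor <;> linarith
  have hpx : ∀ x : ℝ, |x - g| ≤ X → |p * x - p * g| ≤ p * X := by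
    intro x hx
    rw [← mul_sub, abs_mul, abs_of_pos hp0]
    exact mul_le_mul_of_nonneg_left hx hp0.le
  have hVx : ∀ k < N, |t + V k * q - t| ≤ K * q ∧ |t + A k * q - t| ≤ K * q ∧
      V k * q ≤ A k * q := by
    intro k hk
    obtain ⟨c1, c2, c3⟩ := hAV k hk
    have d1 := mul_le_mul_of_nonneg_right c1 hq.le
    have d2 := mul_le_mul_of_nonneg_right c2 hq.le
    have d3 := mul_le_mul_of_nonneg_right c3 hq.le
    have d4 := mul_le_mul_of_nonneg_right hK₁K hq.le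
    refine ⟨?_, ?_, d2⟩
    · rw [add_sub_cancel_left, abs_le]
      constructor <;> linarith
    · rw [add_sub_cancel_left, abs_le]
      constructor <;> linarith
  have hVx' : ∀ k < N', |t + V' k * q - t| ≤ K * q := by
    intro k hk
    obtain ⟨c1, c2⟩ := hV' k hk
    have d1 := mul_le_mul_of_nonneg_right c1 hq.le
    have d2 := mul_le_mul_of_nonneg_right c2 hq.le
    rw [add_sub_cancel_left, abs_le]
    constructor <;> linarith
  have hord : ∀ x : ℝ, |x - t| ≤ K * q → LvL hn P P' o 1 x x < LvL hn P P' o 2 x x := by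
    intro x hx
    have k1 := abs_le.1 (hLg 1 (by norm_num) x hx)
    have k2 := abs_le.1 (hLg 2 (by norm_num) x hx)
    linarith
  have hδl : ∀ l < 4, LvL hn P P' o l g g + E + δ₁ ≤ 1 := fun l hl => by
    have := hδ₁l l hl
    linarith
  have hbnd : ∀ x : ℝ, |x - t| ≤ K * q → 0 < x ∧ x < 1 := by
    intro x hx
    have := abs_le.1 hx
    constructor <;> linarith
  refine ⟨t, ht1, by linarith, D.ne, hal, hg₀, hC, D.thr, D.th0, ?_, ?_, ?_, ?_,
    D.pk.tgs.law (), fun l _ => rfl, fun l _ => D.law l, hq, by linarith, by linarith, ?_,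
    ⟨fun k hk => (W k hk).2.1, fun k hk => (Wc k hk).2.1⟩, fun k hk l hl => ?_,
    fun k hk l hl => ?_, fun l hl x hx => ?_, fun l hl x hx => ?_, ?_, fun x hx => ?_,
    fun l hl => ?_, fun x y hx hy hxy => ?_, fun l hl1 hl => ?_, fun l hl1 hl k hk => ?_⟩
  · show ThrOf (Pool.W.ONE.tgs (cc hn o.1.1 (sw 1 3))) S fun _ => P
    rw [sw13]
    exact Pool.SWR.thr_tgs.2 D.pk.tgs
  · show Pool.ALL.RateOf S (cc hn o.1.1 (sw 1 3)) r
    rw [sw13]
    exact D.pk.rate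
  · intro x hx y hy hxy
    have h1 := cc_inj hn o.1.1 (show sw 1 x ∈ Set.Iio 4 from sw1_lt hx)
      (show sw 1 y ∈ Set.Iio 4 from sw1_lt hy) hxy
    rw [← sw_sw 1 x, h1, sw_sw]
  · show ((cc hn o.1.1 (sw 1 0) : Fin 4) : ℕ) = 0
    rw [sw10, cc_lt hn o.1.1 (show 0 < 4 - 1 by omega)]
    exact o.1.2 ⟨0, by omega⟩ rfl
  · have : (K₀' + th) * q = K₀' * q + th * q := by ring
    rw [abs_le, this]
    constructor <;> linarith [mul_pos hth hq]
  · obtain ⟨c1, c2, -⟩ := W k hk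
    obtain ⟨v1, v2, v3⟩ := hVx k hk
    obtain ⟨b1, b2⟩ := hbnd _ v1
    obtain ⟨b3, b4⟩ := hbnd _ v2
    exact ⟨D.tvP_le b1 (by linarith) b4.le (fun l hl => (c1 l hl).1) hl,
      D.tvP_le b1 le_rfl b2.le (fun l hl => (c1 l hl).2) hl⟩
  · obtain ⟨c1, c2, -⟩ := Wc k hk
    obtain ⟨b1, b2⟩ := hbnd _ (hVx' k hk)
    exact D.tvP_le b1 le_rfl b2.le c1 hl
  · have h3 := abs_le.1 (hnS.dL l (by omega) x (hbx2 x hx))
    have h4 := abs_le.1 (hnS.dL l (by omega) t (hbx2 t htt))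
    rw [abs_le]
    constructor <;> linarith
  · have h3 := abs_le.1 (hnS.dT l (by omega) x (hbx2 x hx))
    have h4 := abs_le.1 (hnS.dL l (by omega) t (hbx2 t htt))
    rw [abs_le]
    constructor <;> linarith
  · show SlL hn P P' o g (sw 1 0) = 1
    rw [sw10]
    exact hs0
  · have h3 := abs_le.1 (hnS.dL 0 (by norm_num) x (hbx2 x hx))
    rw [hdia 0 (by norm_num), sw10, hs0, hl0] at h3
    rw [abs_le]
    constructor <;> linarith
  · refine kgQ_of (Sl := fun l => SlL hn P P' o g (sw 1 l)) hnS (by omega) (hkl l hl) ?_ ?_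
      (by linarith)
    · rw [← hX]
      linarith
    · rw [← hX]
      linarith
  · -- the rate
    have h3 := abs_le.1 (hnS.dL 3 le_rfl t (hbx2 t htt))
    have hx1 : |x - P t t| ≤ K * q := by
      have h9 : LvP hn P P₀ o (4 - 1) t t = P t t := by rw [show 4 - 1 = 3 from rfl, lvP_top]
      rw [← h9]
      exact hx
    have hy1 : |y - P t t| ≤ K * q := by
      have h9 : LvP hn P P₀ o (4 - 1) t t = P t t := by rw [show 4 - 1 = 3 from rfl, lvP_top]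
      rw [← h9]
      exact hy
    rw [lvP_top, sw13] at h3
    have h4 : |SlL hn P P' o g 3 * (t - g)| ≤ sN * (2 * (R * q)) := by
      rw [abs_mul, ← hsN]
      exact mul_le_mul_of_nonneg_left htg hsN0
    have h5 := abs_le.1 h4
    have h6 : (K + sN * (2 * R) + ε) * q = K * q + sN * (2 * (R * q)) + ε * q := by ring
    have hx' := abs_le.1 hx1
    have hy' := abs_le.1 hy1
    refine hrow x y ?_ ?_ hxy
    · rw [h6, abs_le]
      constructor <;> linarith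
    · rw [h6, abs_le]
      constructor <;> linarith
  · -- the targets
    refine ⟨D.thq p, hp0, hE0, ?_, fun x hx => ?_, fun j hj x hx => ?_, fun k hk => ?_,
      fun hlm k hk e he => ?_, fun k hk => ?_, fun k hk e he => ?_⟩
    · have e1 : 3 * K * q = 3 * (K * q) := by ring
      show E + 3 * K * q < (E + p * g) / 2
      rw [e1]
      linarith
    · show (E + p * g) / 2 < p * x
      have := abs_le.1 (hpx x (hbx x hx))
      linarith
    · have e1 : 3 * K * q = 3 * (K * q) := by ring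
      show LvP hn P P₀ o j x x + E + 3 * K * q < 1
      rw [e1]
      have h1 := abs_le.1 (hLS j (by omega) x hx)
      have h2 := hδl _ (sw1_lt (show j < 4 by omega))
      linarith
    · obtain ⟨c1, ⟨c2, c2'⟩, c3, c4⟩ := W k hk
      obtain ⟨v1, v2, v3⟩ := hVx k hk
      obtain ⟨b1, b2⟩ := hbnd _ v1
      obtain ⟨b3, b4⟩ := hbnd _ v2
      have c5 := c4.mono (le_max_left S₀ S₁)
      exact ⟨D.ptI c2' (by linarith) b4 (hS₀.trans (le_max_left _ _)) hE0 c5 (hord _ v1) hl,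
        D.ptI c2' le_rfl b2 (hS₀.trans (le_max_left _ _)) hE0 c5 (hord _ v1) hl⟩
    · have h3 : l = 3 := by omega
      subst h3
      obtain ⟨v1, v2, v3⟩ := hVx k hk
      obtain ⟨b1, b2⟩ := hbnd _ v1
      obtain ⟨b3, b4⟩ := hbnd _ v2
      have hinj : Set.InjOn (fun l => cc hn o.1.1 (sw 1 l)) (Set.Iic 3) := by
        intro x hx y hy h
        have h1 := cc_inj hn o.1.1 (show sw 1 x ∈ Set.Iio 4 from sw1_lt (Nat.lt_succ_of_le hx))
          (show sw 1 y ∈ Set.Iio 4 from sw1_lt (Nat.lt_succ_of_le hy)) h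
        rw [← sw_sw 1 x, h1, sw_sw]
      obtain ⟨n1, n2⟩ := Pool.SWR.bet_nodup hinj
      have h4 := rat_tgt (i := ((List.range 3).map (fun l => cc hn o.1.1 (sw 1 l)),
        (fun l => cc hn o.1.1 (sw 1 l)) 3)) D.ne (D.thq p) n1 n2 (Q := P) (by
          show ThrOf (Pool.ONE.tgs (cc hn o.1.1 (sw 1 3))) S fun _ => P
          rw [sw13]
          exact D.pk.tgs) b1 b4 (hrat k hk b1 b4 e he)
      rw [lvP_top]
      exact h4
    · obtain ⟨c1, c2, c3⟩ := Wc k hk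
      obtain ⟨b1, b2⟩ := hbnd _ (hVx' k hk)
      exact D.ptI c2 le_rfl b2 hS₀ hE0 c3 (hord _ (hVx' k hk)) hl
    · obtain ⟨c1, c2, -⟩ := Wc k hk
      obtain ⟨x, hx⟩ : ∃ x, x = t + V' k * q := ⟨_, rfl⟩
      have hxt := hVx' k hk
      rw [← hx] at c2 hxt ⊢
      obtain ⟨b1, b2⟩ := hbnd _ hxt
      have hlt : ∀ i < 3, LvL hn P P' o i x x < 1 - p * x := by
        intro i hi
        have h1 := abs_le.1 (hLg i (by omega) x hxt)
        have h2 := hδl i (by omega)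
        have h3 := abs_le.1 (hpx x (hbx x hxt))
        linarith
      have hj : ∀ j ≤ l, ∃ d : ℝ, 0 < d ∧ ∀ w' : ℝ, x ≤ w' → w' ≤ x + d →
          bet (PQ p) (fun l => cc hn o.1.1 (sw 1 l)) j w' w' ≤ LvP hn P P₀ o j x x + e := by
        intro j hj
        by_cases h3 : j < 3
        · have h4 := D.up c2 hp0 (D.thq p) hlt h3
          have h5 := D.conq x c2 p ((List.range j).map (fun l => cc hn o.1.1 (sw 1 l)),
            (fun l => cc hn o.1.1 (sw 1 l)) j)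
          rw [Metric.continuousAt_iff] at h5
          obtain ⟨d, hd, h5⟩ := h5 e he
          have hm1 : min d (1 - x) / 2 ≤ d / 2 :=
            div_le_div_of_nonneg_right (min_le_left _ _) (by norm_num)
          have hm2 : min d (1 - x) / 2 ≤ (1 - x) / 2 :=
            div_le_div_of_nonneg_right (min_le_right _ _) (by norm_num)
          refine ⟨min d (1 - x) / 2, half_pos (lt_min hd (by linarith)), fun w' k1 k2 => ?_⟩
          have h6 := @h5 w' (by rw [Real.dist_eq, abs_lt]; constructor <;> linarith)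
          rw [Real.dist_eq, dg_eq (PQ p) _ (b1.le.trans k1) (by linarith),
            dg_eq (PQ p) _ b1.le b2.le] at h6
          have h7 := (abs_lt.1 h6).2
          have h8 : bet (PQ p) (fun l => cc hn o.1.1 (sw 1 l)) j w' w' -
            bet (PQ p) (fun l => cc hn o.1.1 (sw 1 l)) j x x < e := h7
          rw [D.dia c2 (by omega)]
          linarith
        · have h4 : j = 3 := by omega
          subst h4
          rw [lvP_top]
          refine Pool.SWR.ratc_last D.pk.toPk (D.gs c2) (fun _ _ _ _ h => h) D.ne (D.thq p) ?_ ?_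
            e he
          · intro x hx y hy h
            have h1 := cc_inj hn o.1.1 (show sw 1 x ∈ Set.Iio 4 from sw1_lt (Nat.lt_succ_of_le hx))
              (show sw 1 y ∈ Set.Iio 4 from sw1_lt (Nat.lt_succ_of_le hy)) h
            rw [← sw_sw 1 x, h1, sw_sw]
          · show cc hn o.1.1 (sw 1 3) = _
            rw [sw13]
            exact cc_ge hn _ le_rfl
      choose! dv hdv0 hdv using hj
      obtain ⟨m₁, hm₁, hm₁l⟩ := fin_pos (l + 1) (f := dv) fun j hj => hdv0 j (by omega)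
      exact ⟨m₁, hm₁, fun w' k1 k2 j hj => hdv j hj w' k1 (by linarith [hm₁l j (by omega)])⟩
  · -- the deep data
    obtain ⟨c1, ⟨c2, c2'⟩, c3, c4⟩ := W k hk
    obtain ⟨v1, v2, v3⟩ := hVx k hk
    have c5 := c4.mono (le_max_left S₀ S₁)
    have c6 := c3.mono (le_max_right S₀ S₁)
    have k1 := abs_le.1 (hnb.dL 2 (by norm_num) _ (hbx2 _ v1))
    have k2 := abs_le.1 (hnb.dL 2 (by norm_num) _ (hbx2 _ v2))
    rw [hs2] at k1 k2
    have k3 := abs_le.1 (hLg 2 (by norm_num) _ v1)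
    have k4 := hδl 2 (by norm_num)
    have k5 := abs_le.1 (hbx _ v1)
    have k6 := abs_le.1 (hbx _ v2)
    have k7 := abs_le.1 (hLg 1 (by norm_num) _ v2)
    have k8 : θ₀ * (t + A k * q) ≤ θ₀ * (g + X) := mul_le_mul_of_nonneg_left (by linarith) hθ₀.le
    have e8 : θ₀ * (g + X) = θ₀ * g + θ₀ * X := by ring
    exact D.dpP num c2 c2' (by linarith) (hS₀.trans (le_max_left _ _)) c5 c6 (hord _ v1) hεq.le
      (by linarith) (by linarith) (by linarith) hl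

end SwD

end

end Pool.SWC
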