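import Pool.Agent.H57.SWC.Cha

/-!
# Properties of a window which only see the levels at the windows of the set

`CgQ`: the property is the same for other levels with the same values at the windows of `G`. `cg_fa`,
`cg_attU`: free velocities and entropy fields; labels of the target.
-/

set_option autoImplicit false

namespace Pool.SWC

open Finset Real MvPolynomial MeasureTheory
open Pool.Agent.H49.Ent Pool.Agent.H32.Dense Pool.STK Pool.KA Pool.KSAT Pool.K2S Pool.PB Pool.GEN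
open Pool.S6C Pool.GRW Pool.RCD Pool.PKG Pool.LA91 Pool.V0F Pool.ALT
open Pool.CHT
open Pool.TOP (TopS)

/-- The property is the same for other levels with the same values at the windows of `G`. -/
def CgQ {n : ℕ} {ι : Type} (Q : PropG n ι) : Prop :=
  ∀ (p : ι) (k₀ : ℕ) (S : PCl n) (P P₀ : List (Fin n) × Fin n → ℝ → ℝ → ℝ) (θ θ₀ : ℝ)
    (c : ℕ → Fin n) (Pt : ℝ → ℝ → ℝ) (r : ℝ → ℝ) (L L' T T' : ℕ → ℝ → ℝ → ℝ) (κ κ' : ℕ → Kg)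
    (G : Set ℝ) (x : ℝ), 0 < n → x ∈ G → L' (n - 1) = L (n - 1) →
    (∀ l < n, ∀ w ∈ G, L' l w w = L l w w) → (∀ l < n, κ' l = .one → κ l = .one) →
    Q p k₀ S P θ c Pt r L T κ G x → Q p k₀ S P₀ θ₀ c Pt r L' T' κ' G x

/-- A chain with the same levels. -/
theorem chn_cg {m : ℕ} {S : PCl m} {c : ℕ → Fin m} {r₀ r : ℕ} {w u₀ u₁ : ℝ} {s s' rd : ℕ → ℝ}
    (h : Chn S c r₀ r w u₀ u₁ s rd) (hs : ∀ i < r, s' i = s i) : Chn S c r₀ r w u₀ u₁ s' rd where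
  hr := h.hr
  inj := h.inj
  w0 := h.w0
  wu0 := h.wu0
  u0 := h.u0
  wu1 := h.wu1
  u1 := h.u1
  s0 i h1 h2 := by
    rw [hs i h2]
    exact h.s0 i h1 h2
  r1 := h.r1
  att i h1 h2 := by
    rw [hs i h2]
    exact h.att i h1 h2
  base := h.base
  pre := h.pre
  ful ρ hρ := by
    refine Bas.mono 0 (h.ful ρ hρ) ?_
    intro J _ F A h1 V z z' hz i hi1 hi2
    rw [hs i hi2]
    exact h1 V z z' hz i hi1 hi2

theorem chG_cg {m : ℕ} {S : PCl m} {c : ℕ → Fin m} {d : ℕ} {sn sn' : ℕ → ℝ → ℝ} {G : Set ℝ}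
    (h : ChG S c d sn G) (hs : ∀ i < d, ∀ w ∈ G, sn' i w = sn i w) : ChG S c d sn' G :=
  ⟨fun w hw => by
    obtain ⟨u₁, rd, h1, h2⟩ := h.ch w hw
    exact ⟨u₁, rd, h1, chn_cg h2 fun i hi => hs i hi w hw⟩⟩

theorem stG_cg {d : ℕ} {sn sn' : ℕ → ℝ → ℝ} {g : ℝ} (hs : ∀ i < d, sn' i g = sn i g) {C : ℕ}
    {σ : ℚ} {k : ℕ} {P : Fin d → ℚ} (h : StG d sn' g C σ k P) : StG d sn g C σ k P := by
  obtain ⟨h1, h2, h3⟩ := h
  refine ⟨fun i => ?_, fun i => ?_, fun l i hli => ?_⟩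
  · rw [← hs i i.2]
    exact h1 i
  · rw [← hs i i.2]
    exact h2 i
  · rw [← hs i i.2, ← hs l l.2]
    exact h3 l i hli

theorem qG_cg (m : ℕ) (c : ℕ → Fin m) (d : ℕ) {sn sn' : ℕ → ℝ → ℝ} {w : ℝ} (N : Fin d → ℝ)
    (hs : ∀ i < d, sn' i w = sn i w) : qG m c d sn' w N = qG m c d sn w N := by
  unfold qG
  congr 1
  funext i
  rw [hs i i.2]

theorem freeAt_cg {m : ℕ} {α γ : ∀ J : ℕ, Fam m J → Type} {S : PCl m}
    {f : ∀ (J : ℕ) (F : Fam m J), F.Ω → α J F} {y : ∀ (J : ℕ) (F : Fam m J), F.Ω → γ J F}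
    {c : ℕ → Fin m} {d : ℕ} {sn sn' : ℕ → ℝ → ℝ} {G : Set ℝ} {g : ℝ} (hg : g ∈ G)
    (hs : ∀ i < d, ∀ w ∈ G, sn' i w = sn i w) {C : ℕ} {σ : ℚ} {κ : ℝ} {k : ℕ}
    (h : FreeAt S f y c d sn G g C σ κ k) : FreeAt S f y c d sn' G g C σ κ k := by
  intro P b w w' h1 h2 h3 h4 h5 h6
  obtain ⟨k₂, hk₂, e₀, he₀, h7⟩ := h P b w w' (stG_cg (fun i hi => hs i hi g hg) h1) h2 h3 h4 h5 h6
  refine ⟨k₂, hk₂, e₀, he₀, fun K => ?_⟩
  have e1 : qG m c d (fun i x => sn' i x - (σ : ℝ) / 20 * (1 / 2) ^ k) b (fun i => (P i : ℝ)) =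
      qG m c d (fun i x => sn i x - (σ : ℝ) / 20 * (1 / 2) ^ k) b (fun i => (P i : ℝ)) :=
    qG_cg m c d _ fun i hi => by rw [hs i hi b h2]
  rw [e1]
  exact h7 K

theorem freeNx_cg {m : ℕ} {α γ : ∀ J : ℕ, Fam m J → Type} {S : PCl m}
    {f : ∀ (J : ℕ) (F : Fam m J), F.Ω → α J F} {y : ∀ (J : ℕ) (F : Fam m J), F.Ω → γ J F}
    {c : ℕ → Fin m} {d : ℕ} {sn sn' : ℕ → ℝ → ℝ} {G : Set ℝ} {g : ℝ} (hg : g ∈ G)
    (hs : ∀ i < d, ∀ w ∈ G, sn' i w = sn i w) {C : ℕ} {σ : ℚ} {κ : ℝ} {k : ℕ}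
    (h : FreeNx S f y c d sn G g C σ κ k) : FreeNx S f y c d sn' G g C σ κ k := by
  intro P b n a h0 h1 h2 h3 h4 h5 h6
  obtain ⟨k₂, hk₂, e₀, he₀, h7⟩ := h P b n a h0 (stG_cg (fun i hi => hs i hi g hg) h1) h2 h3 h4
    h5 h6
  refine ⟨k₂, hk₂, e₀, he₀, fun K => ?_⟩
  have e1 : qG m c d (fun i x => sn' i x - (σ : ℝ) / 20 * (1 / 2) ^ k) b (fun i => (P i : ℝ)) =
      qG m c d (fun i x => sn i x - (σ : ℝ) / 20 * (1 / 2) ^ k) b (fun i => (P i : ℝ)) :=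
    qG_cg m c d _ fun i hi => by rw [hs i hi b h2]
  rw [e1]
  exact h7 K

theorem tlAt_cg {m : ℕ} {S : PCl m} {c : ℕ → Fin m} {d : ℕ} {sn sn' : ℕ → ℝ → ℝ} {G : Set ℝ}
    {g : ℝ} (hg : g ∈ G) (hs : ∀ i < d, ∀ w ∈ G, sn' i w = sn i w) {C : ℕ} {σ : ℚ} {κ : ℝ}
    {k : ℕ} (h : TlAt S c d sn G g C σ κ k) : TlAt S c d sn' G g C σ κ k := by
  intro P₁ P₂ b w a o h1 h1' h2 h3 h4 h5 h6 h7
  obtain ⟨k₂, hk₂, h8⟩ := h P₁ P₂ b w a o (stG_cg (fun i hi => hs i hi g hg) h1)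
    (stG_cg (fun i hi => hs i hi g hg) h1') h2 h3 h4 h5 h6 h7
  refine ⟨k₂, hk₂, fun D => ?_⟩
  obtain ⟨C₁, h9⟩ := h8 D
  refine ⟨C₁, Bas.mono 0 h9 ?_⟩
  intro J _ F A hA s gx e M Q n qe V V' v vL v' G₀ G₁ G₂ H₀ H₁ H₂ δ k1 k2 k3 k4
  refine hA s gx e M Q n qe V V' v vL v' G₀ G₁ G₂ H₀ H₁ H₂ δ k1 k2 ⟨fun i hi => ?_, k3.hQ, k3.hn,
    k3.hqe, k3.hQe, k3.hP, k3.hPe, k3.hM, k3.hJ, k3.hN⟩ fun i hi => ?_
  · have := k3.hs i hi
    rwa [hs i hi g hg] at this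
  · have := k4 i hi
    rwa [hs i hi b h2] at this

/-- **Free velocities and entropy fields** only see the levels at the windows of `G`. -/
theorem cg_fa (n : ℕ) : CgQ (FaQ : PropG n (ℕ × ℕ × ℚ × ℚ)) := by
  intro p k₀ S P P₀ θ θ₀ c Pt r L L' T T' κ κ' G x hn hx _ hL hκ h
  have hk : ∀ l, p.1 < n → (∀ l < p.1, κ' l = .one) → l < p.1 → κ l = .one :=
    fun l h1 h2 h3 => hκ l (by omega) (h2 l h3)
  refine ⟨h.rn, fun d hd => chG_cg (h.ch d hd) fun i hi w hw => hL i (by omega) w hw,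
    fun e1 e2 e3 e4 e5 k hk' => ?_, fun e1 e2 e3 e4 e5 k hk' => ?_,
    fun e1 e2 e3 e4 e5 k hk' => ?_⟩
  · exact freeAt_cg hx (fun i hi w hw => hL i (by omega) w hw)
      (h.free e1 (fun l hl => hk l e1 e2 hl) e3 e4 e5 k hk')
  · exact freeNx_cg hx (fun i hi w hw => hL i (by omega) w hw)
      (h.next e1 (fun l hl => hk l e1 e2 hl) e3 e4 e5 k hk')
  · exact tlAt_cg hx (fun i hi w hw => hL i (by omega) w hw)
      (h.tl e1 (fun l hl => hk l e1 e2 hl) e3 e4 e5 k hk')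

/-- **Labels of the target** only see the levels at the windows of `G`. -/
theorem cg_attU (n : ℕ) : CgQ (AttUQ : PropG n Unit) := by
  intro p k₀ S P P₀ θ θ₀ c Pt r L L' T T' κ κ' G x hn hx _ hL hκ h w hw hwx
  obtain ⟨rk, E, a1, a2, a3, a4, a5⟩ := h w hw hwx
  have e1 : L' (n - 1) w w = L (n - 1) w w := hL (n - 1) (by omega) w hw
  rw [e1]
  exact ⟨rk, E, a1, a2, a3, a4, a5⟩

end Pool.SWC
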