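import Pool.Agent.H57.SWB.Aes
import Pool.Agent.H60.ALT.Rate
import Pool.Agent.H3.V0F.Attu
import Pool.Agent.H92.V0F.Vsd

/-!
# The chains of the swapped list and properties of its windows

`gs_chnX_sw`, `gs_chG_sw`: the chain of the swapped list from the first place on, at the good windows.
`AeSv`: a property at almost every window, for the swapped list. `aeSv_fa`: free velocities and entropy
fields; `aeSv_attU`: labels of the target; `aeSv_alt`: the rate of a coordinate alone.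
-/

set_option autoImplicit false

namespace Pool.SWP

open Finset Real MvPolynomial MeasureTheory
open Pool.Agent.H49.Ent Pool.Agent.H32.Dense Pool.STK Pool.KA Pool.KSAT Pool.K2S Pool.PB Pool.GEN
open Pool.S6C Pool.GRW Pool.RCD Pool.PKG Pool.LA91 Pool.V0F Pool.ALT
open Pool.CHT
open Pool.TOP (TopS)

variable {n : ℕ} {hn : 2 ≤ n} {S : PCl n} {P : ℝ → ℝ → ℝ} {rr : ℝ → ℝ}
  {P' : ℕ → List (Fin n) × Fin n → ℝ → ℝ → ℝ} {Λ : Finset (Fin n) → Fin n → ℝ → ℝ → ℝ}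

/-- **The chain of the swapped list at a good window**, full behind the largest level. -/
theorem gs_chnX_sw (H : Pk hn S P rr P' Λ) (hTop : TopS n) (hF : FZX (n - 1)) {o : Od n} {w : ℝ}
    (hw : w ∈ Gs P rr P' Λ o) {S' : PCl n}
    (hs : ∀ (τ : ℝ) (J : ℕ) (F : Fam n J) (A : F.Ω → Prop), S'.St τ J F A → S.St τ J F A)
    {k : ℕ} (hk : k + 1 < n - 1)
    (h : SwA S' (cc hn o.1.1) (LvL hn P P' o) k w) {i : ℕ} (hi : i ≤ n - 1) :
    ∃ rd : ℕ → ℝ, (∀ l < i, 0 ≤ rd l) ∧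
      Chn S' (fun l => cc hn o.1.1 (sw k l)) 0 i w w (LvL hn P P' o (n - 2) w w)
        (fun l => LvL hn P P' o (sw k l) w w) rd := by
  obtain ⟨rd, h0, h1⟩ := gs_chnU H hTop hF hw
  obtain ⟨r, hr0, hr1, h2⟩ := h
  have hpos : ∀ (τ : ℝ) (J : ℕ) (F : Fam n J) (A : F.Ω → Prop), S'.St τ J F A → 0 < Pe F.p A := by
    obtain ⟨al, g₀, s, d, e, K₀, N, hal, hg₀, hC⟩ := H.cl
    exact fun τ J F A hA => hC.pos τ J F A (hs τ J F A hA)
  refine ⟨_, fun l hl => ?_, chn_cut (chn_sw hpos (h1.sub hs) (Nat.zero_le _) hk hr0 hr1 h2)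
    (Nat.zero_le _) hi⟩
  by_cases hlk : l = k
  · simp only [if_pos hlk]
    exact hr0
  · simp only [if_neg hlk]
    exact h0 _ (sw_mem (Or.inr hk) (by omega))

/-- **The chains of the swapped list** at the windows of a set. -/
theorem gs_chG_sw (H : Pk hn S P rr P' Λ) (hTop : TopS n) (hF : FZX (n - 1)) {o : Od n}
    {G : Set ℝ} (hG : G ⊆ Gs P rr P' Λ o) {S' : PCl n}
    (hs : ∀ (τ : ℝ) (J : ℕ) (F : Fam n J) (A : F.Ω → Prop), S'.St τ J F A → S.St τ J F A)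
    {k : ℕ} (hk : k + 1 < n - 1)
    (h : ∀ w ∈ G, SwA S' (cc hn o.1.1) (LvL hn P P' o) k w) {i : ℕ} (hi : i ≤ n - 1) :
    ChG S' (fun l => cc hn o.1.1 (sw k l)) i (fun l w => LvL hn P P' o (sw k l) w w) G :=
  ⟨fun w hw => by
    obtain ⟨rd, h1, h2⟩ := gs_chnX_sw H hTop hF (hG hw) hs hk (h w hw) hi
    exact ⟨_, rd, h1, h2⟩⟩

theorem sw_lt_n {k i n : ℕ} (hk : k + 1 < n - 1) (hi : i ≤ n - 1) : sw k i ≤ n - 1 := by
  have := sw_mem (k := k) (i := i) (n := n) (Or.inr (by omega)) (by omega)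
  omega

/-- **The property holds at almost every window for the list with the places `k`, `k + 1` swapped**, in
a subclass, at the windows where the coordinate of the place `k + 1` has closed labels of its level over
the places before `k`. -/
def AeSv (n k : ℕ) {ι : Type} (Q : PropG n ι) : Prop :=
  ∀ (hn : 2 ≤ n) (S : PCl n) (P : ℝ → ℝ → ℝ) (r : ℝ → ℝ)
    (P' : ℕ → List (Fin n) × Fin n → ℝ → ℝ → ℝ) (Λ : Finset (Fin n) → Fin n → ℝ → ℝ → ℝ)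
    (PB : ℕ → List (Fin n) × Fin n → ℝ → ℝ → ℝ) (PQ : ℚ → List (Fin n) × Fin n → ℝ → ℝ → ℝ),
    PkB hn S P r P' Λ PB PQ → TopS n → FZX (n - 1) → ∀ (o : Od n) (G : Set ℝ), IsClosed G →
      G ⊆ Gs P r P' Λ o →
      (∀ w ∈ G, SwA S (cc hn o.1.1) (LvL hn P P' o) k w) → ∃ S' : PCl n, S'.Ne ∧
        (∀ (τ : ℝ) (J : ℕ) (F : Fam n J) (A : F.Ω → Prop), S'.St τ J F A → S.St τ J F A) ∧
        ∀ᵐ g : ℝ, g ∈ G → ∀ κ : ℕ → Kg, (∀ l < n, KgAt hn P P' PB o l g (κ l)) → ∀ p : ι,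
          ∃ k₀ : ℕ, Q p k₀ S' (P' o.2) (tht o.2) (fun l => cc hn o.1.1 (sw k l)) P r
            (fun l => LvL hn P P' o (sw k l)) (fun l => LvT hn PB o (sw k l))
            (fun l => κ (sw k l)) G g

theorem AeSv.sw {n k : ℕ} {ι : Type} {Q : PropG n ι} (h : AeSv n k Q) : AeSw n k Q :=
  fun hn S P r P' Λ PB PQ H hTop hF o G hG hGs _ hsw =>
    h hn S P r P' Λ PB PQ H hTop hF o G hG hGs hsw

/-- **Free velocities and entropy fields** of the swapped list. -/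
theorem aeSv_fa {n k : ℕ} (hk : k + 1 < n - 1) : AeSv n k (FaQ : PropG n (ℕ × ℕ × ℚ × ℚ)) := by
  intro hn S P r P' Λ PB PQ H hTop hF o G hG hGs hsw
  obtain ⟨al, g₀, s, d', e', K₁, N₁, hal, hg₀, hC⟩ := H.cl
  have htm : TmC S 6 := Pool.GEN.N83.clx_tmc hC
  have hM : Bas S (fun J F A => (cnt F.p (ptr F J) A : ℝ) ≤ Real.exp ((4 * n + 1) * J)) :=
    Bas.mono 0 hC.cnt fun J _ F A h => h J le_rfl
  have hW : ∀ d < n, ChG S (fun l => cc hn o.1.1 (sw k l)) d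
      (fun l w => LvL hn P P' o (sw k l) w w) G :=
    fun d hd => gs_chG_sw H.toPk hTop hF hGs (fun _ _ _ _ h => h) hk hsw (by omega)
  obtain ⟨S₁, a1, a2, η, hη⟩ := rnum_ptr hC.ne hC.pos hM
  obtain ⟨S₂, b1, b2, b3⟩ := fa_tl_le (A := 0) a1
    (fun τ J F A h => hC.pos τ J F A (a2 τ J F A h))
    (fun τ J F A hτ h => htm τ J F A hτ (a2 τ J F A h)) (hM.sub a2) hG le_rfl n
    fun d hd => (hW d hd).sub a2
  refine ⟨S₂, b1, fun τ J F A h => a2 τ J F A (b2 τ J F A h), ?_⟩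
  filter_upwards [b3, H.toPkT.dia_all H.pble hTop hF] with g h1 hdia hg κ hκ p
  have ho := hGs hg
  obtain ⟨α, Q, c', F⟩ := H.toPk.fac hTop hF ho
  have key : p.1 < n → (∀ l < p.1, κ (sw k l) = .one) → 0 < p.2.2.1 → p.2.2.1 ≤ 1 →
      0 < p.2.2.2 → ∃ K : ℕ, ∀ k' ≥ K,
        FreeAt S₂ (fun J F => ptr F J) (fun _ F => F.W) (fun l => cc hn o.1.1 (sw k l)) p.1
          (fun l w => LvL hn P P' o (sw k l) w w) G g p.2.1 p.2.2.1 p.2.2.2 k' ∧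
        FreeNx S₂ (fun J F => ptr F J) (fun _ F => F.W) (fun l => cc hn o.1.1 (sw k l)) p.1
          (fun l w => LvL hn P P' o (sw k l) w w) G g p.2.1 p.2.2.1 p.2.2.2 k' ∧
        TlAt S₂ (fun l => cc hn o.1.1 (sw k l)) p.1 (fun l w => LvL hn P P' o (sw k l) w w) G g
          p.2.1 p.2.2.1 p.2.2.2 k' := by
    intro hp hone hσ0 hσ1 hκ0
    refine h1 ⟨F.g0, F.g1⟩ hg p.1 hp (fun i hi => ?_) p.2.1 p.2.2.1 hσ0 hσ1 p.2.2.2
      (by exact_mod_cast hκ0)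
    have hi' : sw k i ≤ n - 1 := sw_lt_n hk (by omega)
    have h2 := hκ (sw k i) (by omega)
    rw [hone i hi] at h2
    have h3 : deriv (fun a => LvL hn P P' o (sw k i) a a) g = 1 := h2
    have h4 := (hdia o ho (sw k i) hi').1.hasDerivAt
    rw [h3] at h4
    have h5 := h4.sub (hasDerivAt_id g)
    rw [sub_self] at h5
    exact h5.hasDerivWithinAt
  by_cases hall : p.1 < n ∧ (∀ l < p.1, κ (sw k l) = .one) ∧ 0 < p.2.2.1 ∧ p.2.2.1 ≤ 1 ∧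
      0 < p.2.2.2
  · obtain ⟨K, hK⟩ := key hall.1 hall.2.1 hall.2.2.1 hall.2.2.2.1 hall.2.2.2.2
    exact ⟨K, ⟨η, fun w => (hη w).sub b2⟩, fun d hd => ((hW d hd).sub a2).sub b2,
      fun _ _ _ _ _ k hk => (hK k hk).1, fun _ _ _ _ _ k hk => (hK k hk).2.1,
      fun _ _ _ _ _ k hk => (hK k hk).2.2⟩
  · exact ⟨0, ⟨η, fun w => (hη w).sub b2⟩, fun d hd => ((hW d hd).sub a2).sub b2,
      fun e1 e2 e3 e4 e5 => absurd ⟨e1, e2, e3, e4, e5⟩ hall,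
      fun e1 e2 e3 e4 e5 => absurd ⟨e1, e2, e3, e4, e5⟩ hall,
      fun e1 e2 e3 e4 e5 => absurd ⟨e1, e2, e3, e4, e5⟩ hall⟩

/-- **Labels of the target** over the swapped list. -/
theorem aeSv_attU {n k : ℕ} (hk : k + 1 < n - 1) : AeSv n k (AttUQ : PropG n Unit) := by
  intro hn S P r P' Λ PB PQ H hTop hF o G hG hGs hsw
  obtain ⟨S', h1, h2, h3⟩ := aePG_attU n hn S P r P' Λ PB PQ H hTop hF o G hG hGs
  refine ⟨S', h1, h2, ?_⟩
  filter_upwards [h3] with g h4 hg κ hκ p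
  obtain ⟨k₀, h5⟩ := h4 hg κ hκ p
  refine ⟨k₀, fun w hw hwx => ?_⟩
  obtain ⟨rk, E, a1, a2, a3, a4, a5⟩ := h5 w hw hwx
  have e1 : sw k (n - 1) = n - 1 := sw_gt hk
  refine ⟨rk, E, a1, a2, a3, ?_, ?_⟩
  · show E + LvL hn P P' o (sw k (n - 1)) w w ≤ _
    rw [e1]
    exact a4
  · show LbU S' ((range (n - 1)).image fun l => cc hn o.1.1 (sw k l))
      (cc hn o.1.1 (sw k (n - 1))) w (LvL hn P P' o (sw k (n - 1)) w w) rk E
    rw [img_sw (cc hn o.1.1) (Or.inr hk), e1]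
    exact a5

/-- **The rate of a coordinate alone**, for the swapped list. -/
theorem aeSv_alt (n k : ℕ) : AeSv n k (AltQ : PropG n AltI) := by
  classical
  intro hn S P r P' Λ PB PQ H hTop hF o G hG hGs hsw
  obtain ⟨al, g₀, s, d', e', K₁, N₁, hal, hg₀, hC⟩ := H.cl
  obtain ⟨c, hc⟩ : ∃ c : ℕ → Fin n, c = fun l => cc hn o.1.1 (sw k l) := ⟨_, rfl⟩
  obtain ⟨S', a1, a2, a3⟩ := alt_rate (ι := (ℕ × ℕ × ℕ) × (ℚ × ℚ × ℚ)) hC.ne hC.pos
    (fun i => (range i.1.1).image c) (fun i => (range i.1.2.1).image c)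
    (fun i => c i.1.1) (fun i => i.1.2.2) (fun i => i.2.1) (fun i => i.2.2.1)
    (fun i => i.2.2.2) (fun i w => LvL hn P P' o (sw k i.1.1) w w) (A := 0) (B := 1) le_rfl
    (fun i w hw w' hw' hww => by
      have hl := H.toPkT.lawL o (sw k i.1.1)
      exact (hl.mono_a w w' w hw.1.le le_rfl hww hw'.2.le).trans
        (hl.mono_w w' w w' hw.1.le hww le_rfl hw'.2.le))
  refine ⟨S', a1, a2, ?_⟩
  filter_upwards [a3] with g h1 hg κ hκ p
  have ho := hGs hg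
  obtain ⟨α, Q, c', F⟩ := H.toPk.fac hTop hF ho
  rw [← hc]
  by_cases hex : 0 < p.2.2 ∧ ∃ S'' : PCl n, S''.Ne ∧ SubC S'' S' ∧ ∃ w₀ : ℝ, 0 < w₀ ∧ w₀ < g ∧
      AltE S'' ((range p.1.1).image c) (c p.1.1) p.1.2.2 p.2.1.1 p.2.1.2.1
        p.2.1.2.2 w₀
  · obtain ⟨he, S'', hne, hs, w₀, b1, b2, b3⟩ := hex
    obtain ⟨φ, hφ, h2⟩ := h1 ⟨F.g0, F.g1⟩ (p.1, p.2.1) S'' hne hs w₀ b1 b2 b3
    obtain ⟨k₀, hk₀⟩ := h2 p.2.2 (by exact_mod_cast he)
    exact ⟨k₀, ⟨fun _ _ _ _ _ _ _ _ => ⟨φ, hφ, hk₀⟩⟩⟩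
  · exact ⟨0, ⟨fun he S'' hne hs w₀ b1 b2 b3 => absurd ⟨he, S'', hne, hs, w₀, b1, b2, b3⟩ hex⟩⟩

end Pool.SWP
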