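import Pool.Agent.H57.SWC.Rsw
import Pool.Agent.H31.W.H80.DIC.Tree

/-!
# The target is static at the windows of the kinds `1, s, 1` where the third coordinate has its labels over the first one

`sta_of_cw`: the target is static at almost every window where the record of the swapped list exists,
from the cases at the window of the swapped list.
-/

set_option autoImplicit false

namespace Pool.SWC

open MeasureTheory Set Filter Topology
open Pool.Agent.H49.Ent Pool.Agent.H32.Dense Pool.STK Pool.KA Pool.KSAT Pool.K2S Pool.PB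
open Pool.GEN Pool.S6C Pool.STAT Pool.CHT Pool.GRW Pool.ONE Pool.STA
open Pool.PKG hiding AePG CasW CelZ RecG
open Pool.SWP
open Pool.W.PKG (AePG CasW CelZ RecG LwD)
open Pool.TOP (TopS)
open Pool.STR (ThinAt SteepAt StaAt sta_of_pairs)

variable {n : ℕ} {hn : 2 ≤ n} {S : PCl n} {P : ℝ → ℝ → ℝ} {r : ℝ → ℝ}
  {P' : ℕ → List (Fin n) × Fin n → ℝ → ℝ → ℝ} {Λ : Finset (Fin n) → Fin n → ℝ → ℝ → ℝ}
  {PB : ℕ → List (Fin n) × Fin n → ℝ → ℝ → ℝ}

/-- **The target is static** at almost every window where the record of the swapped list exists, from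
the cases at the window of the swapped list. -/
theorem sta_of_cw {ι : Type} [Countable ι] {Q : PropG n ι} (hQ : AePG n Q) (hn3 : 2 < n - 1)
    {Cl : PCl n → Prop} (hCl : SubCl Cl) (hS : Cl S)
    (H : PkT hn S P r P' Λ PB) (hTop : TopS n) (hF : FZX (n - 1)) (h : ℝ) {κ : ℕ → Kg}
    (Φ : (ℕ → ℝ) → Prop) (o : Od n) (P₀ : List (Fin n) × Fin n → ℝ → ℝ → ℝ) (θ₀ : ℝ)
    (L T : ℕ → ℝ → ℝ → ℝ) {Y : ℝ → Prop} (hY : ∀ᵐ w : ℝ, Y w)
    (hL : ∀ (S : PCl n) (G : Set ℝ), PkT hn S P r P' Λ PB → Cl S → IsClosed G →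
      G ⊆ Gs P r P' Λ o → (∀ w ∈ G, SwA S (cc hn o.1.1) (LvL hn P P' o) 1 w) → (∀ w ∈ G, Y w) →
      LwD hn P P' o G L)
    (hcls : ∀ Sl : ℕ → ℝ, Φ Sl → (∀ l < n, (κ l = .one → Sl l = 1) ∧ (κ l = .thin → 1 < Sl l) ∧
      (κ l = .sta → 2 ≤ Sl l) ∧ (κ l = .stp → 2 < Sl l)) → (∀ l < n, 1 ≤ Sl l) →
      CasW n {n - 1} h Sl κ Q (TruW n)) {X : ℝ → Prop}
    (hrec : ∀ᵐ g : ℝ, RwH H hTop hF h o g → TwR hn P P' Λ 1 o g → X g →
      (∀ l < n, KgAt hn P P' PB o (sw 1 l) g (κ l)) →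
      RecSw hn P r P' Λ PB Cl Y o P₀ θ₀ L T κ h g) :
    ∀ᵐ g : ℝ, RwH H hTop hF h o g → TwR hn P P' Λ 1 o g → X g →
      Φ (fun l => SlL hn P P' o g (sw 1 l)) →
      (∀ l < n, KgAt hn P P' PB o (sw 1 l) g (κ l)) → StaAt P g := by
  filter_upwards [joint_aeW hQ hn3 hCl hS H hTop hF o P₀ θ₀ L T hY hL κ,
    H.dia_all H.pble hTop hF, sl_one H hTop hF, hrec] with g h1 hdia h1s hrec R hTw hX hΦ hkg
  have ho := R.rwd.mem
  obtain ⟨α, Q₁, c', F⟩ := H.toPk.fac hTop hF ho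
  have hg0 := F.g0
  have hg1 := F.g1
  obtain ⟨S', G, HT, hC', hG, hgG, hGs, hsw, hGY, W, hgap, hder, hQg⟩ := h1 ho hTw fun l hl h2 => by
    have h3 := hkg l hl
    rw [h2] at h3
    exact h3
  have hLw := hL S' G HT hC' hG hGs hsw hGY
  obtain ⟨al, g₀, s', d', e', K₁, N₁, hal, hg₀, hC⟩ := HT.cl
  have e3 : LvL hn P P' o (n - 1) = P := lvL_last (hn := hn) (P := P) (P' := P') o
  obtain ⟨i, hi, Lm, Z, hcls, hz⟩ := hcls (fun l => SlL hn P P' o g (sw 1 l)) hΦ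
    (fun l hl => (hkg l hl).sl) (fun l hl => h1s o ho (sw 1 l) (by
      have := sw_lt_n (k := 1) (i := l) (n := n) (by omega) (by omega)
      omega)) S' P₀ θ₀ (fun l => cc hn o.1.1 (sw 1 l)) P r L T G g
    ⟨hC.ne, hg0, hg1, hG, hgG, hder⟩
    (fun p => by
      obtain ⟨k₀, hk₀, -⟩ := hQg p
      exact ⟨k₀, hk₀⟩) trivial
  rw [Set.mem_singleton_iff] at hi
  subst hi
  obtain ⟨P₂, θ₂, Eb, e₂, S₀, hS₀, W⟩ := hrec R hTw hX hkg S' G HT hC' hG hGs hsw hGY hgG W hgap al g₀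
    hal hg₀ ⟨s', d', e', K₁, N₁, hC⟩
  have hlaw := H.lawL o (n - 1)
  have hdg := (hdia o ho (n - 1) le_rfl).1
  rw [e3] at hlaw hdg
  refine sta_of_pairs hlaw hg0 hg1 hdg fun K₀ del hK₀ hdel => ?_
  obtain ⟨K, N, A, V, hK, hAV, hc⟩ := hcls al hal (K₀ + del) (by linarith) del hdel S₀ hS₀
  obtain ⟨S₂, hS₂, W⟩ := W K₀ K N A V (by linarith) hK hAV del hdel
  obtain ⟨lam, K', N', V', hKK, hV', ε, hε, hc⟩ := hc S₂ hS₂
  obtain ⟨q₁, hq₁, W⟩ := W K' N' V' hKK hV' ε hε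
  obtain ⟨p, M, B₀, B₁, hB, hc⟩ := hc S' g₀ P₀ θ₀ P₂ θ₂ Eb e₂
    (fun l => cc hn o.1.1 (sw 1 l)) P r L T G g hG hgG hder (hz lam)
  obtain ⟨k₀, hg₀k, q₂, hq₂, hx⟩ := pts_nearH (R := K₀ + del) (by linarith) hQg p M B₀ B₁ hB
  obtain ⟨q₃, hq₃, hc⟩ := hc k₀ hg₀k
  refine ⟨min q₁ (min q₂ q₃), lt_min hq₁ (lt_min hq₂ hq₃), fun q u hq hq' hu => ?_⟩
  obtain ⟨t, ht1, ht2, hR⟩ := W q u hq (hq'.trans_le (min_le_left _ _)) hu
  obtain ⟨x, hx⟩ := hx q t hq (hq'.trans_le ((min_le_right _ _).trans (min_le_left _ _)))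
    hR.near
  have hend := hc q t x (hq'.trans_le ((min_le_right _ _).trans (min_le_right _ _))) hx hR
  rw [hLw.last] at hend
  exact ⟨t, ht1, ht2, hend⟩

/-- **Two functions with different derivatives** are different at almost every point. -/
theorem sl_eq_ae (f u : ℝ → ℝ) : ∀ᵐ g : ℝ, f g = u g → ∀ s s' : ℝ, HasDerivAt f s g →
    HasDerivAt u s' g → s = s' := by
  filter_upwards [pt_near {x | f x = u x}] with g h1 hg s s' hf hu
  have h2 := h1 hg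
  by_contra hne
  have h3 := hf.sub hu
  have hd : 0 < |s - s'| := abs_pos.2 (sub_ne_zero.2 hne)
  have h4 := (hasDerivAt_iff_isLittleO.1 h3).def (show 0 < |s - s'| / 2 by linarith)
  obtain ⟨η, hη, h5⟩ := Metric.eventually_nhds_iff.1 h4
  obtain ⟨q₁, hq₁, h6⟩ := h2 1 (1 / 2) one_pos (by norm_num)
  obtain ⟨q, hq⟩ : ∃ q, q = min q₁ η / 4 := ⟨_, rfl⟩
  have hm : 0 < min q₁ η := lt_min hq₁ hη
  have hq0 : 0 < q := by
    rw [hq]
    linarith
  have hq1 : q < q₁ := by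
    have := min_le_left q₁ η
    rw [hq]
    linarith
  have hq2 : 2 * q < η := by
    have := min_le_right q₁ η
    rw [hq]
    linarith
  obtain ⟨x, hx, hx1, hx2⟩ := h6 q (g + q / 2) hq0 hq1 (by
    rw [add_sub_cancel_left, abs_of_pos (by linarith)]
    linarith)
  have hxg : 0 < x - g := by linarith
  have h7 := h5 (y := x) (by
    rw [Real.dist_eq, abs_of_pos hxg]
    linarith)
  have hx' : f x = u x := hx
  have hg' : f g = u g := hg
  have e1 : (f - u) x - (f - u) g - (x - g) • (s - s') = -((x - g) * (s - s')) := by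
    rw [Pi.sub_apply, Pi.sub_apply, hx', hg', smul_eq_mul]
    ring
  rw [e1, Real.norm_eq_abs, Real.norm_eq_abs, abs_neg, abs_mul, abs_of_pos hxg] at h7
  have h8 : 0 < (x - g) * |s - s'| := mul_pos hxg hd
  linarith

end Pool.SWC
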