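import Pool.Agent.H57.SWC.Lfa
import Pool.Agent.H31.W.H3.ASM.C11

/-!
# The leaf from the class theorems of the swapped list

`casW_11`: the cases at the windows of the kinds `one, one, k; stp`. `lLeafA_of`: `LLeafA` from the
class theorems.
-/

set_option autoImplicit false

namespace Pool.SWC

open MeasureTheory Set Filter Topology
open Pool.Agent.H49.Ent Pool.Agent.H32.Dense Pool.STK Pool.KA Pool.KSAT Pool.K2S Pool.PB
open Pool.GEN Pool.S6C Pool.STAT Pool.CHT Pool.GRW Pool.STA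
open Pool.PKG hiding AePG CasW CelZ RecG
open Pool.SWP
open Pool.W.PKG (AePG CasW CelZ RecG LwD)
open Pool.TOP (TopS)
open Pool.STR (ThinAt SteepAt StaAt sta_of_pairs)
open Pool.ALT (AltI AltQ PosR)
open Pool.LA91 (sumQ her_sum)
open Pool.ASM (SlB)
open Pool.ONE (Ext0)
open Pool.SHE3 (LLeafA LeafAt)
open Pool.ASM (Tol AllC)
open Pool.MIC6

/-- **The cases** at the windows of the kinds `one, one, k; stp` of the swapped list, from the class
theorems of the last coordinate. -/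
theorem casW_11 {k : Kd}
    (hf : Pool.W.ASM.CelTP (ofKd k) (fun _ => True) Pool.W.ASM.FulB)
    (hn : Pool.W.ASM.CbN (ofKd k) (fun _ => True)) :
    ∃ (ι : Type) (_ : Countable ι) (Q : PropG 4 ι), AePG 4 Q ∧ ∀ h : ℝ, 0 < h → h ≤ 1 →
      ∀ Sl : ℕ → ℝ, SlB (ofKd k) Sl →
        CasW 4 {4 - 1} h Sl (kg4 .one .one (ofKd k) .stp) Q (TruW 4) := by
  obtain ⟨ι, hι, Q, a1, b1, H⟩ := hf
  obtain ⟨ι', hι', Q', a2, b2, H'⟩ := hn
  refine ⟨(ι ⊕ ι') ⊕ AltI, inferInstance, sumQ (sumQ Q Q') (AltQ : PropG 4 AltI),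
    Pool.W.LA91.aePG_sum (Pool.W.LA91.aePG_sum a1 b1 a2) (her_sum b1 b2) (Pool.W.ALT.aePG_alt 4),
    fun h hh hh1 Sl hS => ?_⟩
  refine Pool.W.PKG.CasW.rt (Pool.W.ASM.AdmN 2) (Sl 3 * Real.log 2)
    (fun _ _ _ _ _ _ _ _ _ _ h => allQ_inr h) ?_ fun β' hβ' D => ?_
  · exact Pool.W.PKG.CasW.ful rfl ((H h hh hh1 Sl hS trivial).inl.inl.mono id
      fun _ _ _ _ _ _ _ _ _ _ _ hZ => hZ.2)
  · exact Pool.W.PKG.CasW.low rfl ((H' h hh hh1 Sl hS trivial β' hβ' D).inr.inl.mono id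
      fun _ _ _ _ _ _ _ _ _ _ _ hZ => hZ.2)

/-- **The leaf of one class**, from the record of the swapped list and the cases. -/
theorem leafAt_of (hR : LSwR) {hn : 2 ≤ 4} {S : PCl 4} {P : ℝ → ℝ → ℝ} {r : ℝ → ℝ}
    {P' : ℕ → List (Fin 4) × Fin 4 → ℝ → ℝ → ℝ} {Λ : Finset (Fin 4) → Fin 4 → ℝ → ℝ → ℝ}
    {PB : ℕ → List (Fin 4) × Fin 4 → ℝ → ℝ → ℝ} (H : PkT hn S P r P' Λ PB) (hTop : TopS 4)
    (hF : FZX (4 - 1)) {h : ℝ} (hh : 0 < h) (hh1 : h ≤ 1)
    (ht : ∃ (ι : Type) (_ : Countable ι) (Q : PropG 4 ι), AePG 4 Q ∧ ∀ Sl : ℕ → ℝ, SlB .thin Sl →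
      CasW 4 {4 - 1} h Sl (kg4 .one .one .thin .stp) Q (TruW 4))
    (hs : ∃ (ι : Type) (_ : Countable ι) (Q : PropG 4 ι), AePG 4 Q ∧ ∀ Sl : ℕ → ℝ, SlB .sta Sl →
      CasW 4 {4 - 1} h Sl (kg4 .one .one .sta .stp) Q (TruW 4)) :
    LeafAt H hTop hF h := by
  intro o
  obtain ⟨S', Cl, Y, P₀, θ₀, L, T, H', hCl, hS', hY, hL, hrec⟩ :=
    hR hn hTop hF S P r P' Λ PB H h hh hh1 o
  obtain ⟨ι, hι, Q, hQ, hcls⟩ := ht
  obtain ⟨ι', hι', Q', hQ', hcls'⟩ := hs
  have e0 : sw 1 0 = 0 := by unfold sw; simp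
  have e1 : sw 1 1 = 2 := by unfold sw; simp
  have e2 : sw 1 2 = 1 := by unfold sw; simp
  have e3 : sw 1 3 = 3 := by unfold sw; simp
  have key : ∀ {k : Kg} {ι : Type} [Countable ι] {Q : PropG 4 ι}, (k = .thin ∨ k = .sta) →
      AePG 4 Q → (∀ Sl : ℕ → ℝ, SlB k Sl →
        CasW 4 {4 - 1} h Sl (kg4 .one .one k .stp) Q (TruW 4)) →
      ∀ᵐ g : ℝ, RwH H hTop hF h o g → TwR hn P P' Λ 1 o g →
        KdAt hn P P' PB o 0 g .one → KgAt hn P P' PB o 1 g k → KdAt hn P P' PB o 2 g .one →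
        2 < deriv (fun a => LvL hn P P' o 3 a a) g → SteepAt 2 (LvT hn PB o 3) g →
        StaAt P g := by
    intro k ι _ Q hk hQ hcls
    have h1 := sta_of_cw (Cl := Cl) (κ := kg4 .one .one k .stp)
      (X := fun g => LvL hn P P' o 1 g g < LvL hn P P' o 2 g g ∧ SlL hn P P' o g 0 = 1 ∧
        SlL hn P P' o g 2 = 1)
      hQ (by norm_num) hCl hS' H' hTop hF h (fun Sl => SlB k Sl) o P₀ θ₀ L T hY hL
      (fun Sl hΦ _ _ => hcls Sl hΦ) (by
        filter_upwards [hrec] with g h1 R hTw hX hkg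
        exact h1 (rwH_cl H R) hTw hX.1 hX.2.1 hX.2.2 _ hkg)
    filter_upwards [h1, sl_eq_ae (fun x => LvL hn P P' o 1 x x) (fun x => LvL hn P P' o 2 x x),
      H.dia_all H.pble hTop hF] with g h1 h2 hdia R hTw k0 k1 k2 hs hst
    have hg := R.rwd.mem
    have d1 := (hdia o hg 1 (by norm_num)).1.hasDerivAt
    have d2 := (hdia o hg 2 (by norm_num)).1.hasDerivAt
    have s1 : 1 < deriv (fun a => LvL hn P P' o 1 a a) g := by
      rcases hk with h | h
      · rw [h] at k1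
        exact k1.1
      · rw [h] at k1
        have h3 : 2 ≤ deriv (fun a => LvL hn P P' o 1 a a) g := k1.1
        linarith
    have s2 : deriv (fun a => LvL hn P P' o 2 a a) g = 1 := k2
    have s0 : deriv (fun a => LvL hn P P' o 0 a a) g = 1 := k0
    have hX : LvL hn P P' o 1 g g < LvL hn P P' o 2 g g := by
      rcases (lvl_le H.toPk hTop hF hg (l := 1) (by norm_num)).lt_or_eq with h3 | h3
      · exact h3
      · have h4 := h2 h3 _ _ d1 d2
        rw [s2] at h4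
        exact absurd h4 s1.ne'
    refine h1 (rwH_cl H' R) hTw ⟨hX, s0, s2⟩ ?_ ?_
    · refine ⟨?_, ?_, ?_, ?_, ?_, ?_⟩
      · show SlL hn P P' o g (sw 1 0) = 1
        rw [e0]
        exact s0
      · show SlL hn P P' o g (sw 1 1) = 1
        rw [e1]
        exact s2
      · intro hkt
        show 1 < SlL hn P P' o g (sw 1 2)
        rw [e2]
        exact s1
      · intro hkt
        rw [hkt] at k1
        show 2 ≤ SlL hn P P' o g (sw 1 2)
        rw [e2]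
        exact k1.1
      · intro hkt
        rcases hk with h | h <;> rw [h] at hkt <;> cases hkt
      · show 2 < SlL hn P P' o g (sw 1 3)
        rw [e3]
        exact hs
    · intro l hl
      interval_cases l
      · rw [e0]
        exact k0
      · rw [e1]
        exact k2
      · rw [e2]
        exact k1
      · rw [e3]
        exact ⟨hs, hst⟩
  have e4 : LvL hn P P' o 3 = P := lvL_last (hn := hn) (P := P) (P' := P') o
  filter_upwards [key (Or.inl rfl) hQ hcls, key (Or.inr rfl) hQ' hcls'] with g a1 a2 R hth k0 k1 k2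
    hs hst hTw
  rw [e4]
  rcases k1 with k1 | k1
  · exact a1 R hTw k0 k1 k2 hs hst
  · exact a2 R hTw k0 k1 k2 hs hst

/-- **The leaf** from the record of the swapped list and its class theorems. -/
theorem lLeafA_of (hR : LSwR)
    (c1 : Pool.W.ASM.CelTP .thin (fun Sl => Sl 2 ≠ Sl 3) Pool.W.ASM.FulB)
    (c2 : Pool.W.ASM.CelTP .thin (fun Sl => Sl 2 = Sl 3) Pool.W.ASM.FulB)
    (c3 : Pool.W.ASM.CbN .thin (fun Sl => Sl 2 = Sl 3))
    (c4 : Pool.W.ASM.CelTP .sta (fun _ => True) Pool.W.ASM.FulB) : LLeafA := fun _ => by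
  refine (Pool.ASM.Tol.le (1 / 2) (by norm_num)).mono fun η hη => ?_
  intro hn _ hF hTop D hD hD1 _ S P r P' Λ PB H
  have h1 := hη D hD
  have hh : 0 < (1 - η D) * D := mul_pos (by linarith) hD
  have hh1 : (1 - η D) * D ≤ 1 := by nlinarith
  obtain ⟨ι, hι, Q, hQ, hc⟩ := casW_11 (k := .thin)
    (c2.or c1 fun _ _ => eq_or_ne _ _) (c3.or Pool.W.ASM.cbN_thin_ne fun _ _ => eq_or_ne _ _)
  obtain ⟨ι', hι', Q', hQ', hc'⟩ := casW_11 (k := .sta) c4 Pool.W.ASM.cbN_sta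
  exact leafAt_of hR H hTop hF hh hh1 ⟨ι, hι, Q, hQ, hc _ hh hh1⟩ ⟨ι', hι', Q', hQ', hc' _ hh hh1⟩

end Pool.SWC
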