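import Pool.Agent.H57.SWC.Rsw
import Pool.Agent.H88.SWR.Num2

/-!
# The record of the swapped list exists
-/

set_option autoImplicit false

namespace Pool.SWC

/-- **The numbers at the pairs.** -/
theorem nm2 : Nm2 := fun hS₀ hne htm hP hθ hinj hPt hW hθ' hd hroom =>
  ⟨Pool.W.N88.num0_pt hS₀ hne htm hP hθ hinj hPt hW hθ' hd hroom,
    Pool.W.N88.num1_pt hS₀ hne htm hP hθ hinj hPt hW hθ' hd hroom, fun _ h1 h2 =>
    Pool.W.N88.num2_pt hS₀ hne htm hP hθ hinj hPt hW hθ' hd hroom h1 h2⟩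

/-- **The record of the swapped list exists.** -/
theorem lSwR : LSwR := lSwR_of nm2

end Pool.SWC
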