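import Pool.Agent.H57.SWC.Cha
import Pool.Agent.H28.RJ.Pkg

/-!
# The rates of the jets of a place of the swapped list

`aeSv_vj`: the property `VrJ` of the windows, for the swapped list.
-/

set_option autoImplicit false

namespace Pool.SWP

open Finset Real MvPolynomial MeasureTheory
open Pool.Agent.H49.Ent Pool.Agent.H32.Dense Pool.STK Pool.KA Pool.KSAT Pool.K2S Pool.PB Pool.S6C
  Pool.GEN Pool.RCD Pool.LA91 Pool.LP30 Pool.LPJ30 Pool.PKG Pool.CHT Pool.GRW
open Pool.OWN83 (TwoRelS TRelS ae_shift rel_clsS)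
open Pool.AVG96 (fl fl_mem fl_mono le_fl whG gap_ae)
open Pool.TOP (TopS)
open Pool.RJ28
open Pool.RV28 (SdI yG vchG der_box fin_ev sdI_T slope_ge)

/-- **The rates of the jets of a place of the swapped list.** -/
theorem aeSv_vj {n k : ℕ} (hk : k + 1 < n - 1) : AeSv n k (VrJ : PropG n (ℕ × ℕ)) := by
  classical
  intro hn S P r P' Λ PB PQ H hTop hF o G hG hGs hsw
  obtain ⟨al, g₀, s, d', e', K₁, N₁, hal, hg₀, hC⟩ := H.cl
  have htm : TmC S 6 := Pool.GEN.N83.clx_tmc hC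
  have hM : Bas S (fun J F A => (cnt F.p (ptr F J) A : ℝ) ≤ Real.exp ((4 * n + 1) * J)) :=
    Bas.mono 0 hC.cnt fun J _ F A h => h J le_rfl
  have hW : ∀ d < n, ChG S (fun l => cc hn o.1.1 (sw k l)) d
      (fun l w => LvL hn P P' o (sw k l) w w) G :=
    fun d hd => gs_chG_sw H.toPk hTop hF hGs (fun _ _ _ _ h => h) hk hsw (by omega)
  obtain ⟨S₁, a1, a2, η, hη⟩ := rnum_ptr hC.ne hC.pos hM
  have hatt : ∀ d < n - 1, ∀ w ∈ G, ∃ rk, 0 ≤ rk ∧
      Att S₁ ((range d).image (fun l => cc hn o.1.1 (sw k l))) (cc hn o.1.1 (sw k d)) w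
        (LvL hn P P' o (sw k d) w w) rk := by
    intro d hd w hw
    obtain ⟨u₁, rd, h1, h2⟩ := (((hW (d + 1) (by omega)).sub a2).ch w hw)
    exact ⟨rd d, h1 d (by omega), h2.att d (Nat.zero_le _) (by omega)⟩
  have hnic : ∀ d < n - 1, ∀ B : ℝ, B < 1 → NiC S₁ (fun l => cc hn o.1.1 (sw k l)) d
      (fun _ : Fin 1 => cc hn o.1.1 (sw k d)) (fun l w => LvL hn P P' o (sw k l) w w) (fun _ w => LvL hn P P' o (sw k d) w w) G 0 0 B := by
    intro d hd B hB
    have hmon : ∀ l ≤ n - 1, ∀ w ∈ G, ∀ v ∈ G, w ≤ v → LvL hn P P' o (sw k l) w w - w ≤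
        LvL hn P P' o (sw k l) v v - v := fun l hl w hw v hv hwv =>
      law_gap (H.lawL o (sw k l)) (hGs hw).1.1.1.le hwv (hGs hv).1.1.2.1.le
        (lev_lt' H.toPk hTop hF (hGs hv) (sw_lt_n hk hl))
    exact
    { ne := a1
      pos := fun τ J F A h => hC.pos τ J F A (a2 τ J F A h)
      tm := ⟨6, fun τ J F A hτ h => htm τ J F A hτ (a2 τ J F A h)⟩
      rn := fun w _ _ => ⟨η w, by
        rw [add_zero]
        exact hη w⟩
      cl := hG
      ch := (hW d (by omega)).sub a2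
      mn := fun l hl w hw v hv hwv => by
        have := hmon l (by omega) w hw v hv hwv
        linarith
      att := fun _ w hw => hatt d hd w hw
      mT := fun _ w hw v hv hwv => hmon d (by omega) w hw v hv hwv
      B1 := hB }
  obtain ⟨S₂, b1, b2, b3⟩ := rj_le (sdI_T (fun l => cc hn o.1.1 (sw k l))) (n - 1) a1 hnic
  refine ⟨S₂, b1, fun τ J F A h => a2 τ J F A (b2 τ J F A h), ?_⟩
  filter_upwards [b3, H.toPkT.dia_all H.pble hTop hF, gap_ae hG] with g h1 hdia hgap hg κ hκ p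
  have ho := hGs hg
  have g0 : 0 < g := ho.1.1.1
  have g1 : g < 1 := ho.1.1.2.1
  have hpos₂ : ∀ (τ : ℝ) (J : ℕ) (F : Fam n J) (A : F.Ω → Prop), S₂.St τ J F A → 0 < Pe F.p A :=
    fun τ J F A h => hC.pos τ J F A (a2 τ J F A (b2 τ J F A h))
  refine ⟨0, ⟨η, fun w => (hη w).sub b2⟩, fun d hd => ((hW d hd).sub a2).sub b2, hgap hg,
    fun e1 e2 Sr e3 e4 => ?_⟩
  have hdl : ∀ l < p.1, HasDerivAt (fun x => LvL hn P P' o (sw k l) x x) 1 g := by
    intro l hl
    have h2 := hκ (sw k l) (by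
      have := sw_lt_n (k := k) (i := l) hk (by omega)
      omega)
    rw [e2 l hl] at h2
    have h3 : deriv (fun a => LvL hn P P' o (sw k l) a a) g = 1 := h2
    have h4 := (hdia o ho (sw k l) (sw_lt_n hk (by omega))).1.hasDerivAt
    rw [h3] at h4
    exact h4
  have hs1 := slope_ge (H.lawL o (sw k p.1)) g0 g1 (lev_lt' H.toPk hTop hF ho (sw_lt_n hk (by omega))) e3
  have hchp := ((hW p.1 (by omega)).sub a2).sub b2
  have hatp : ∀ b ∈ G, ∃ rk, 0 ≤ rk ∧ Att S₂ ((range p.1).image (fun l => cc hn o.1.1 (sw k l))) (cc hn o.1.1 (sw k p.1)) b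
      (LvL hn P P' o (sw k p.1) b b) rk := fun b hb => by
    obtain ⟨rk, r1, r2⟩ := hatt p.1 (by omega) b hb
    exact ⟨rk, r1, r2.sub b2⟩
  have hrn : ∀ w : ℚ, ∃ η, RNum S₂ (fun J F => ptr F J) (vg (w : ℝ)) η :=
    fun w => ⟨η w, (hη w).sub b2⟩
  have key : ∀ j : ℕ, ∃ φ : ℝ, 0 ≤ φ ∧ (p.2 < j → φ = 0) ∧ (1 ≤ j →
      RvU S₂ (fun (_ : ℕ) (F : Fam n _) => F.T) (fun l => cc hn o.1.1 (sw k l)) p.1
      (fun _ : Fin (p.2 + 1 - j) => cc hn o.1.1 (sw k p.1))
      (fun i => odv j i) (fun l w => LvL hn P P' o (sw k l) w w) (fun _ w => LvL hn P P' o (sw k p.1) w w)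
      G g φ) := by
    intro j
    rcases Nat.lt_or_ge p.2 j with hj | hj
    · exact ⟨0, le_rfl, fun _ => rfl, fun _ => rvU_empty (by omega) hpos₂⟩
    · have hR := h1 p.1 (by omega) (p.2 + 1 - j) j hg g0 g1
        (fun l hl => lev_lt' H.toPk hTop hF ho (sw_lt_n hk (by omega))) Sr (by linarith)
        (slB_ofn _ hdl e3 le_rfl (hgap hg)) (tgB_ofn _ e3 hs1 le_rfl)
        (loB_ofn e3 fun i => by
          have h5 : j + (i : ℕ) ≤ p.2 := by
            have := i.2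
            omega
          have h6 : ((odv j i : ℕ) : ℝ) ≤ p.2 := by
            unfold odv
            exact_mod_cast h5
          linarith)
      obtain ⟨φ, hφ, H⟩ := rvG_uni b1 hpos₂ hrn hchp hg
        (fun _ => hatp) (fun i => i.elim0) (show (0 : ℝ) ≤ Sr by linarith)
        (tgB_ofn _ e3 hs1 le_rfl) hR
      exact ⟨φ, hφ, fun h => absurd h (by omega), fun _ => H⟩
  choose φ hφ hφ0 Hφ using key
  refine ⟨φ, hφ, fun j hj => ?_, hφ0, Hφ⟩
  rcases Nat.lt_or_ge p.2 (j + 1) with hj' | hj'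
  · rw [hφ0 _ hj']
    exact hφ j
  · have e5 : p.2 + 1 - j = (p.2 + 1 - (j + 1)) + 1 := by omega
    have h2 := Hφ (j + 1) (by omega)
    refine rvU_mono b1 hpos₂ (n := p.2 + 1 - j) (n₂ := p.2 + 1 - (j + 1))
      (fun i => ⟨i + 1, by have := i.2; omega⟩) hrn hchp hg
      (fun _ => hatp) (show (0 : ℝ) ≤ Sr by linarith) (tgB_ofn _ e3 hs1 le_rfl) (Hφ j hj) ?_
    have e6 : (fun i : Fin (p.2 + 1 - (j + 1)) => odv (j + 1) i) =
        fun i : Fin (p.2 + 1 - (j + 1)) => odv j (⟨i + 1, by have := i.2; omega⟩ :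
          Fin (p.2 + 1 - j)) := by
      funext i
      unfold odv
      simp only
      omega
    rw [e6] at h2
    exact h2



end Pool.SWP
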