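import Pool.Agent.H57.SWC.Cha
import Pool.Agent.H28.RV.PkU

/-!
# The rate of the velocity of a place of the swapped list

`aeSv_vu`: the property `VrU` of the windows, for the swapped list.
-/

set_option autoImplicit false

namespace Pool.SWP

open Finset Real MvPolynomial MeasureTheory
open Pool.Agent.H49.Ent Pool.Agent.H32.Dense Pool.STK Pool.KA Pool.KSAT Pool.K2S Pool.PB Pool.S6C
  Pool.GEN Pool.RCD Pool.LA91 Pool.LP30 Pool.PKG Pool.CHT Pool.GRW
open Pool.OWN83 (TwoRelS TRelS ae_shift rel_clsS)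
open Pool.AVG96 (fl fl_mem fl_mono le_fl whG gap_ae)
open Pool.TOP (TopS)
open Pool.RV28

/-- **The rate of the velocity of a place of the swapped list.** -/
theorem aeSv_vu {n k : ℕ} (hk : k + 1 < n - 1) : AeSv n k (VrU : PropG n ℕ) := by
  intro hn S P r P' Λ PB PQ H hTop hF o G hG hGs hsw
  obtain ⟨al, g₀, s, d', e', K₁, N₁, hal, hg₀, hC⟩ := H.cl
  have htm : TmC S 6 := Pool.GEN.N83.clx_tmc hC
  have hM : Bas S (fun J F A => (cnt F.p (ptr F J) A : ℝ) ≤ Real.exp ((4 * n + 1) * J)) :=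
    Bas.mono 0 hC.cnt fun J _ F A h => h J le_rfl
  have hW : ∀ d < n, ChG S (fun l => cc hn o.1.1 (sw k l)) d
      (fun l w => LvL hn P P' o (sw k l) w w) G :=
    fun d hd => gs_chG_sw H.toPk hTop hF hGs (fun _ _ _ _ h => h) hk hsw (by omega)
  obtain ⟨S₁, a1, a2, η, hη⟩ := rnum_ptr hC.ne hC.pos hM
  have hatt : ∀ d < n - 1, ∀ w ∈ G, ∃ rk, 0 ≤ rk ∧
      Att S₁ ((range d).image (fun l => cc hn o.1.1 (sw k l))) (cc hn o.1.1 (sw k d)) w
        (LvL hn P P' o (sw k d) w w) rk := by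
    intro d hd w hw
    obtain ⟨u₁, rd, h1, h2⟩ := (((hW (d + 1) (by omega)).sub a2).ch w hw)
    exact ⟨rd d, h1 d (by omega), h2.att d (Nat.zero_le _) (by omega)⟩
  have hnic : ∀ d < n - 1, ∀ B : ℝ, B < 1 → NiC S₁ (fun l => cc hn o.1.1 (sw k l)) d
      (fun _ : Fin 1 => cc hn o.1.1 (sw k d)) (fun l w => LvL hn P P' o (sw k l) w w) (fun _ w => LvL hn P P' o (sw k d) w w) G 0 0 B := by
    intro d hd B hB
    have hmon : ∀ l ≤ n - 1, ∀ w ∈ G, ∀ v ∈ G, w ≤ v → LvL hn P P' o (sw k l) w w - w ≤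
        LvL hn P P' o (sw k l) v v - v := fun l hl w hw v hv hwv =>
      law_gap (H.lawL o (sw k l)) (hGs hw).1.1.1.le hwv (hGs hv).1.1.2.1.le
        (lev_lt' H.toPk hTop hF (hGs hv) (sw_lt_n hk hl))
    exact
    { ne := a1
      pos := fun τ J F A h => hC.pos τ J F A (a2 τ J F A h)
      tm := ⟨6, fun τ J F A hτ h => htm τ J F A hτ (a2 τ J F A h)⟩
      rn := fun w _ _ => ⟨η w, by
        rw [add_zero]
        exact hη w⟩
      cl := hG
      ch := (hW d (by omega)).sub a2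
      mn := fun l hl w hw v hv hwv => by
        have := hmon l (by omega) w hw v hv hwv
        linarith
      att := fun _ w hw => hatt d hd w hw
      mT := fun _ w hw v hv hwv => hmon d (by omega) w hw v hv hwv
      B1 := hB }
  obtain ⟨S₂, b1, b2, b3⟩ := rt_le (sdI_T (fun l => cc hn o.1.1 (sw k l))) (n - 1) a1 hnic
  refine ⟨S₂, b1, fun τ J F A h => a2 τ J F A (b2 τ J F A h), ?_⟩
  filter_upwards [b3, H.toPkT.dia_all H.pble hTop hF, gap_ae hG] with g h1 hdia hgap hg κ hκ p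
  have ho := hGs hg
  have g0 : 0 < g := ho.1.1.1
  have g1 : g < 1 := ho.1.1.2.1
  refine ⟨0, ⟨η, fun w => (hη w).sub b2⟩, fun d hd => ((hW d hd).sub a2).sub b2,
    fun e1 e2 => ?_⟩
  have hdl : ∀ l < p, HasDerivAt (fun x => LvL hn P P' o (sw k l) x x) 1 g := by
    intro l hl
    have h2 := hκ (sw k l) (by
      have := sw_lt_n (k := k) (i := l) hk (by omega)
      omega)
    rw [e2 l hl] at h2
    have h3 : deriv (fun a => LvL hn P P' o (sw k l) a a) g = 1 := h2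
    have h4 := (hdia o ho (sw k l) (sw_lt_n hk (by omega))).1.hasDerivAt
    rw [h3] at h4
    exact h4
  have hdT := (hdia o ho (sw k p) (sw_lt_n hk (by omega))).1.hasDerivAt
  have hs1 := slope_ge (H.lawL o (sw k p)) g0 g1 (lev_lt' H.toPk hTop hF ho (sw_lt_n hk (by omega))) hdT
  have hR := h1 p (by omega) hg g0 g1
    (fun l hl => lev_lt' H.toPk hTop hF ho (sw_lt_n hk (by omega))) _ (by linarith)
    (slB_of hdl hdT le_rfl (hgap hg)) (tgB_of hdT hs1 le_rfl)
  exact rtG_uni b1 (fun τ J F A h => hC.pos τ J F A (a2 τ J F A (b2 τ J F A h)))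
    (fun w => ⟨η w, (hη w).sub b2⟩) (((hW p (by omega)).sub a2).sub b2) hg
    (fun _ => by
      obtain ⟨rk, r1, r2⟩ := hatt p (by omega) g hg
      exact ⟨rk, r1, r2.sub b2⟩)
    (show 0 ≤ deriv (fun x => LvL hn P P' o (sw k p) x x) g by linarith) (tgB_of hdT hs1 le_rfl) hR



end Pool.SWP
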