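import Pool.Agent.H31.W.H73.D2.Tvk
import Pool.Agent.H31.W.H99.D2.Thn

/-!
# The parts over a record of places in any order: ranges of the slopes

`F1UD.map`, `CbF.mono`, `F1TP.mono`, `BxTP.mono`, `cbF_num`: ranges of the slopes. `ResP`, `ResS`: the first
jet of the place 2 from the closed slope. `s4_of`: the closed slope of a static place of slope two.
-/

set_option autoImplicit false

namespace Pool.W.ASM

open Pool.ASM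
open Pool.GEN Pool.PKG Pool.KA Pool.ALT

variable {k : Pool.PKG.Kg} {Φ Φ' Ψ : (ℕ → ℝ) → Prop}

/-- `F1UD` with other names of the parameters of the property. -/
theorem _root_.Pool.W.PKG.F1UD.map {m r : ℕ} {h : ℝ} {Sl : ℕ → ℝ} {κ : ℕ → Pool.PKG.Kg}
    {ι ι' Λ : Type} {Q : Pool.PKG.PropG m ι} {Q' : Pool.PKG.PropG m ι'} {Z : Pool.PKG.PropZ m Λ}
    (H : Pool.W.PKG.F1UD m r h Sl κ Q Z) (f : ι → ι') (hf : ∀ p, Q' (f p) = Q p) :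
    Pool.W.PKG.F1UD m r h Sl κ Q' Z := by
  intro al hal K₀ hK₀ del hdel S₀ hS₀
  obtain ⟨Kr, Nr, Ar, Vr, h1, h2, H⟩ := H al hal K₀ hK₀ del hdel S₀ hS₀
  refine ⟨Kr, Nr, Ar, Vr, h1, h2, fun S₂ hS₂ dd hdd => ?_⟩
  obtain ⟨lam, kf, φ, h3, h4, K₁, Nv, Vv, h5, H⟩ := H S₂ hS₂ dd hdd
  refine ⟨lam, kf, φ, h3, h4, K₁, Nv, Vv, h5, fun K' hK' => ?_⟩
  obtain ⟨ε₀, hε₀, H⟩ := H K' hK'
  refine ⟨ε₀, hε₀, fun ε hε hεε S g₀ P θ P₂ θ₂ Eb e₂ c Pt rt L T G g hG hg hd hZ => ?_⟩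
  obtain ⟨p, M, B₀, B₁, hB, H⟩ := H ε hε hεε S g₀ P θ P₂ θ₂ Eb e₂ c Pt rt L T G g hG hg hd hZ
  refine ⟨fun k => f (p k), M, B₀, B₁, hB, fun k₀ hk₀ => ?_⟩
  simp only [hf] at hk₀ ⊢
  exact H k₀ hk₀

/-- A smaller range of the slopes. -/
theorem CbF.mono (H : Pool.W.ASM.CbF k Φ) (h : ∀ Sl, Ψ Sl → Φ Sl) : Pool.W.ASM.CbF k Ψ := by
  obtain ⟨ι, hι, Q, h1, h2, H⟩ := H
  exact ⟨ι, hι, Q, h1, h2, fun h' h0 h1' Sl hS hΨ => H h' h0 h1' Sl hS (h Sl hΨ)⟩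

/-- A smaller range of the slopes. -/
theorem F1TP.mono {Λ : Type} {Z : (ℕ → ℝ) → Pool.PKG.PropZ 4 Λ} (H : Pool.W.ASM.F1TP k Φ Z)
    (h : ∀ Sl, Ψ Sl → Φ Sl) : Pool.W.ASM.F1TP k Ψ Z := by
  obtain ⟨ι, hι, Q, h1, h2, H⟩ := H
  exact ⟨ι, hι, Q, h1, h2, fun h' h0 h1' Sl hS hΨ => H h' h0 h1' Sl hS (h Sl hΨ)⟩

/-- A smaller range of the slopes. -/
theorem BxTP.mono {Λ : Type} {Z : (ℕ → ℝ) → Pool.PKG.PropZ 4 Λ} (H : Pool.W.ASM.BxTP k Φ Z)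
    (h : ∀ Sl, Pool.ASM.SlB k Sl → Ψ Sl → Φ Sl) : Pool.W.ASM.BxTP k Ψ Z := by
  obtain ⟨ι, hι, Q, h1, h2, H⟩ := H
  exact ⟨ι, hι, Q, h1, h2, fun h' h0 h1' Sl hS hΨ => H h' h0 h1' Sl hS (h Sl hS hΨ)⟩

/-- A smaller range of the slopes. -/
theorem CelTP.mono {Λ : Type} {Z : (ℕ → ℝ) → Pool.PKG.PropZ 4 Λ} (H : Pool.W.ASM.CelTP k Φ Z)
    (h : ∀ Sl, Pool.ASM.SlB k Sl → Ψ Sl → Φ Sl) : Pool.W.ASM.CelTP k Ψ Z := by
  obtain ⟨ι, hι, Q, h1, h2, H⟩ := H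
  exact ⟨ι, hι, Q, h1, h2, fun h' h0 h1' Sl hS hΨ => H h' h0 h1' Sl hS (h Sl hS hΨ)⟩

/-- **Both ranges** of the slopes. -/
theorem cbF_num (H : Pool.W.ASM.CbF k Φ) (H' : Pool.W.ASM.CbF k Φ')
    (h : ∀ Sl, Ψ Sl → Φ Sl ∨ Φ' Sl) : Pool.W.ASM.CbF k Ψ := by
  obtain ⟨ι, hι, Q, h1, h2, H⟩ := H
  obtain ⟨ι', hι', Q', h1', h2', H'⟩ := H'
  refine ⟨ι ⊕ ι', inferInstance, Pool.LA91.sumQ Q Q', Pool.W.LA91.aePG_sum h1 h2 h1',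
    Pool.LA91.her_sum h2 h2', fun h₁ h0 h1' Sl hS hΨ => ?_⟩
  rcases h Sl hΨ with hΦ | hΦ
  · exact (H h₁ h0 h1' Sl hS hΦ).map Sum.inl fun _ => rfl
  · exact (H' h₁ h0 h1' Sl hS hΦ).map Sum.inr fun _ => rfl

/-- **The first jet of the place 2** from the supply of the closed slope, the slope of the last
coordinate larger than the one of the place 2. -/
def ResP : Prop := ∀ k : Pool.PKG.Kg, k = .stp ∨ k = .thin →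
  ∀ (Φ : (ℕ → ℝ) → Prop) (R₁ : (ℕ → ℝ) → ℝ),
  Pool.W.ASM.SupF k Φ R₁ → Pool.W.ASM.CbF k (fun Sl => Sl 2 < Sl 3 ∧ Φ Sl)

/-- **The first jet of a static place 2** from the closed slope, the slope of the last coordinate
larger. -/
def ResS : Prop := Pool.W.ASM.BxTP .sta (fun Sl => Sl 2 < Sl 3) Pool.W.ASM.FulB →
  Pool.W.ASM.F1TP .sta (fun Sl => Sl 2 < Sl 3) Pool.W.ASM.FulB

/-- `u` static of slope two: the last coordinate has a larger slope. -/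
theorem s4_of (H : Pool.W.ASM.BxTP .sta (fun Sl => Sl 2 < Sl 3) Pool.W.ASM.FulB) :
    Pool.W.ASM.BxTP .sta (fun Sl => Sl 2 = 2) Pool.W.ASM.FulB :=
  BxTP.mono H fun Sl hS h => by
    have h3 : Sl 2 = 2 := h
    rw [h3]
    exact hS.s3

end Pool.W.ASM
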